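import Mathlib
import Pool.Agent.Helper342.Par.Holo

set_option autoImplicit false

namespace Pool.Agent.Helper342.Par

open Metric Set Filter Topology Asymptotics

section Taylor

variable {F : Type*} [NormedAddCommGroup F] [NormedSpace ℂ F]

/-- The `n`-th Taylor coefficient at the origin. -/
noncomputable def tc (n : ℕ) (f : ℂ → F) : F := ((n.factorial : ℂ)⁻¹) • iteratedDeriv n f 0

theorem tc_circleAverage [CompleteSpace F] {f : ℂ → F} {R : ℝ} (hR : 0 < R) (n : ℕ)
    (hf : DiffContOnCl ℂ f (ball 0 R)) :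
    Real.circleAverage (fun z => (z ^ n)⁻¹ • f z) 0 R = tc n f := by
  rw [Real.circleAverage_eq_circleIntegral hR.ne']
  have h1 : (∮ z in C(0, R), (z - 0)⁻¹ • (z ^ n)⁻¹ • f z) =
      ∮ z in C(0, R), (1 / (z - 0) ^ (n + 1)) • f z := by
    congr 1
    ext z
    rw [smul_smul, sub_zero, one_div, pow_succ', mul_inv]
  rw [h1, DiffContOnCl.circleIntegral_one_div_sub_center_pow_smul hR n hf, smul_smul, tc]
  congr 1
  have : (2 * Real.pi * Complex.I : ℂ) ≠ 0 := Complex.two_pi_I_ne_zero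
  field_simp

theorem tc_congr {f g : ℂ → F} (n : ℕ) (h : f =ᶠ[𝓝 0] g) : tc n f = tc n g := by
  rw [tc, tc, h.iteratedDeriv_eq]

theorem contDiffAt_of_ball [CompleteSpace F] {f : ℂ → F} {R : ℝ} (hR : 0 < R)
    (hf : DifferentiableOn ℂ f (ball 0 R)) (n : ℕ) : ContDiffAt ℂ n f 0 :=
  ((hf.analyticOnNhd isOpen_ball) 0 (mem_ball_self hR)).contDiffAt

theorem tc_add {f g : ℂ → F} (n : ℕ) (hf : ContDiffAt ℂ n f 0) (hg : ContDiffAt ℂ n g 0) :
    tc n (fun z => f z + g z) = tc n f + tc n g := by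
  rw [tc, tc, tc, ← smul_add]
  congr 1
  exact iteratedDeriv_add hf hg

theorem tc_sub {f g : ℂ → F} (n : ℕ) (hf : ContDiffAt ℂ n f 0) (hg : ContDiffAt ℂ n g 0) :
    tc n (fun z => f z - g z) = tc n f - tc n g := by
  rw [tc, tc, tc, ← smul_sub]
  congr 1
  exact iteratedDeriv_sub hf hg

theorem tc_eq_zero_of_bound [CompleteSpace F] {f : ℂ → F} {R C : ℝ} (n : ℕ) (hR : 0 < R)
    (hf : DifferentiableOn ℂ f (ball 0 R)) (hC : ∀ z ∈ ball (0 : ℂ) R, ‖f z‖ ≤ C * ‖z‖ ^ (n + 1)) :
    tc n f = 0 := by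
  have key : ∀ r : ℝ, 0 < r → r < R → ‖iteratedDeriv n f 0‖ ≤ n.factorial * C * r := by
    intro r hr hrR
    have h1 : DiffContOnCl ℂ f (ball 0 r) := by
      apply DifferentiableOn.diffContOnCl
      apply hf.mono
      rw [closure_ball _ hr.ne']
      exact closedBall_subset_ball hrR
    have h2 := Complex.norm_iteratedDeriv_le_of_forall_mem_sphere_norm_le (C := C * r ^ (n + 1)) n
      hr h1 (fun z hz => by
        have hz' : ‖z‖ = r := by simpa using hz
        have := hC z (by rw [mem_ball_zero_iff, hz']; exact hrR)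
        rwa [hz'] at this)
    calc _ ≤ _ := h2
      _ = _ := by field_simp; ring
  have h0 : ‖iteratedDeriv n f 0‖ ≤ 0 := by
    have hlim : Tendsto (fun r : ℝ => n.factorial * C * r) (𝓝[>] 0) (𝓝 0) := by
      have : Tendsto (fun r : ℝ => n.factorial * C * r) (𝓝 0) (𝓝 (n.factorial * C * 0)) :=
        (continuous_const.mul continuous_id).tendsto 0
      rw [mul_zero] at this
      exact this.mono_left nhdsWithin_le_nhds
    refine ge_of_tendsto hlim ?_
    filter_upwards [Ioo_mem_nhdsGT hR] with r hr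
    exact key r hr.1 hr.2
  rw [tc, norm_le_zero_iff.1 h0, smul_zero]

theorem tc_pow_smul (n m : ℕ) (v : F) :
    tc n (fun z : ℂ => z ^ m • v) = if n = m then v else 0 := by
  have h1 : iteratedDeriv n (fun z : ℂ => z ^ m • v) 0 = iteratedDeriv n (fun z : ℂ => z ^ m) 0 • v := by
    exact iteratedDeriv_smul_const (by fun_prop) v
  rw [tc, h1, iteratedDeriv_fun_pow_zero]
  split_ifs with h2 <;> simp [h2, smul_smul, Nat.factorial_ne_zero]

theorem tc_clm {G : Type*} [NormedAddCommGroup G] [NormedSpace ℂ G] (L : F →L[ℂ] G) {f : ℂ → F}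
    (n : ℕ) (hf : ContDiffAt ℂ n f 0) : tc n (fun z => L (f z)) = L (tc n f) := by
  have : iteratedDeriv n (fun z => L (f z)) 0 = L (iteratedDeriv n f 0) := by
    rw [iteratedDeriv_eq_iteratedFDeriv, iteratedDeriv_eq_iteratedFDeriv]
    have := L.iteratedFDeriv_comp_left (i := n) hf le_rfl
    have h2 : iteratedFDeriv ℂ n (fun z => L (f z)) 0 = iteratedFDeriv ℂ n (L ∘ f) 0 := rfl
    rw [h2, this]
    rfl
  rw [tc, tc, this, map_smul]

theorem tc_one {f : ℂ → F} {f' : F} (hf : HasDerivAt f f' 0) : tc 1 f = f' := by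
  simp [tc, iteratedDeriv_one, hf.deriv]

end Taylor

section Slice

variable {E F : Type*} [NormedAddCommGroup E] [NormedSpace ℂ E]
  [NormedAddCommGroup F] [NormedSpace ℂ F]

/-- Restriction of the iterated Frechet derivative to a complex line. -/
theorem iteratedDeriv_slice {f : E → F} {s : Set E} (hs : IsOpen s) (h0 : (0 : E) ∈ s) {n : ℕ}
    (hf : ContDiffOn ℂ n f s) (z : E) :
    iteratedDeriv n (fun t : ℂ => f (t • z)) 0 = iteratedFDeriv ℂ n f 0 (fun _ => z) := by
  set g : ℂ →L[ℂ] E := ContinuousLinearMap.toSpanSingleton ℂ z with hg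
  have hg0 : g 0 ∈ s := by simpa [hg] using h0
  have hopen : IsOpen (g ⁻¹' s) := hs.preimage g.continuous
  have h1 := ContinuousLinearMap.iteratedFDerivWithin_comp_right g hf hs.uniqueDiffOn
    hopen.uniqueDiffOn hg0 (le_refl (n : WithTop ℕ∞))
  rw [iteratedFDerivWithin_of_isOpen n hopen (by exact hg0),
    iteratedFDerivWithin_of_isOpen n hs hg0] at h1
  rw [iteratedDeriv_eq_iteratedFDeriv]
  have h2 : (fun t : ℂ => f (t • z)) = f ∘ g := by
    ext t
    simp [hg]
  rw [h2, h1]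
  simp [hg]

theorem tc_slice [FiniteDimensional ℂ E] [CompleteSpace F] {f : E → F} {R : ℝ} (hR : 0 < R)
    (hf : DifferentiableOn ℂ f (ball 0 R)) (n : ℕ) (z : E) :
    tc n (fun t : ℂ => f (t • z)) =
      ((n.factorial : ℂ)⁻¹) • iteratedFDeriv ℂ n f 0 (fun _ => z) := by
  rw [tc, iteratedDeriv_slice isOpen_ball (mem_ball_self hR)
    (contDiffOn_of_differentiableOn isOpen_ball hf n)]

/-- Taylor coefficients of a dilation. -/
theorem tc_comp_smul [CompleteSpace F] {f : ℂ → F} {R : ℝ} (hR : 0 < R)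
    (hf : DifferentiableOn ℂ f (ball 0 R)) (n : ℕ) (a : ℂ) :
    tc n (fun t : ℂ => f (t • a)) = a ^ n • tc n f := by
  rw [tc, iteratedDeriv_slice isOpen_ball (mem_ball_self hR)
    (contDiffOn_of_differentiableOn isOpen_ball hf n), iteratedFDeriv_apply_eq_iteratedDeriv_mul_prod,
    tc, smul_comm]
  simp

end Slice

end Pool.Agent.Helper342.Par
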