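import Mathlib
import Pool.Agent.Helper342.Par.Ode

set_option autoImplicit false

namespace Pool.Agent.Helper342.Par

open Metric Set Filter Topology MeasureTheory

/-- Second coefficient from the growth estimate. -/
theorem re_tc_two_le {G : ℂ → ℂ} (hG : DifferentiableOn ℂ G (ball 0 1)) {C δ : ℝ} (hδ : 0 < δ)
    (hδ1 : δ < 1) (h1 : ∀ ζ : ℂ, ‖ζ‖ < δ → ‖G ζ - ζ‖ ≤ C * ‖ζ‖ ^ 2)
    (h2 : ∀ ρ : ℝ, 0 < ρ → ρ < δ → ‖G ρ‖ ≤ ρ / (1 - ρ) ^ 2) : (tc 2 G).re ≤ 2 := by
  have hG0 : G 0 = 0 := by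
    have := h1 0 (by simpa using hδ)
    simpa using this
  have hG1 : deriv G 0 = 1 := by
    have hd : DifferentiableAt ℂ G 0 := hG.differentiableAt (ball_mem_nhds _ one_pos)
    have h3 : HasDerivAt (fun ζ => G ζ - ζ) 0 0 := by
      rw [hasDerivAt_iff_isLittleO_nhds_zero]
      simp only [zero_add, hG0, sub_zero, smul_zero]
      have h4 : (fun ζ : ℂ => G ζ - ζ) =O[𝓝 0] fun ζ : ℂ => ζ ^ 2 := by
        apply Asymptotics.IsBigO.of_bound C
        filter_upwards [ball_mem_nhds (0 : ℂ) hδ] with ζ hζ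
        rw [norm_pow]
        exact h1 ζ (by simpa using hζ)
      refine h4.trans_isLittleO ?_
      have := Asymptotics.isLittleO_pow_id (𝕜 := ℂ) (one_lt_two)
      exact this
    have h5 : HasDerivAt (fun ζ => G ζ - ζ) (deriv G 0 - 1) 0 :=
      hd.hasDerivAt.sub (hasDerivAt_id 0)
    have := h5.unique h3
    linear_combination this
  have hb : ball (0 : ℂ) 1 ∈ 𝓝 (0 : ℂ) := ball_mem_nhds _ one_pos
  set G1 := dslope G 0 with hG1def
  have hG1d : DifferentiableOn ℂ G1 (ball 0 1) := (Complex.differentiableOn_dslope hb).2 hG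
  set G2 := dslope G1 0 with hG2def
  have hG2d : DifferentiableOn ℂ G2 (ball 0 1) := (Complex.differentiableOn_dslope hb).2 hG1d
  have e1 : ∀ ζ, G ζ = ζ * G1 ζ := by
    intro ζ
    have := sub_smul_dslope G 0 ζ
    rw [hG0, sub_zero, sub_zero, smul_eq_mul] at this
    exact this.symm
  have e2 : ∀ ζ, G1 ζ = 1 + ζ * G2 ζ := by
    intro ζ
    have := sub_smul_dslope G1 0 ζ
    rw [hG1def, dslope_same, hG1, sub_zero, smul_eq_mul] at this
    linear_combination -this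
  have e3 : ∀ ζ, G ζ = ζ + ζ ^ 2 * G2 ζ := by
    intro ζ; rw [e1, e2]; ring
  -- identification of the coefficient
  have htc : tc 2 G = G2 0 := by
    obtain ⟨r, hr, M, hM0, hsub, hM⟩ := exists_bound isOpen_ball hG2d (mem_ball_self one_pos)
    have hlip : ∀ ζ ∈ ball (0 : ℂ) (r / 2), ‖G2 ζ - G2 0‖ ≤ 4 * M / r * ‖ζ‖ := by
      intro ζ hζ
      have := lipschitz_half (hG2d.mono hsub) hM (w := 0) (z := ζ)
        (mem_ball_self (by linarith)) hζ
      simpa using this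
    have hsub2 : ball (0 : ℂ) (r / 2) ⊆ ball 0 1 := (ball_subset_ball (by linarith)).trans hsub
    have h3 : tc 2 (fun ζ => G ζ - (ζ ^ 1 • (1 : ℂ) + ζ ^ 2 • G2 0)) = 0 := by
      apply tc_eq_zero_of_bound 2 (R := r / 2) (C := 4 * M / r) (by linarith)
      · exact (hG.mono hsub2).sub (by fun_prop)
      · intro ζ hζ
        have e4 : G ζ - (ζ ^ 1 • (1 : ℂ) + ζ ^ 2 • G2 0) = ζ ^ 2 * (G2 ζ - G2 0) := by
          rw [e3]; simp; ring
        rw [e4, norm_mul, norm_pow]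
        have := hlip ζ hζ
        calc ‖ζ‖ ^ 2 * ‖G2 ζ - G2 0‖ ≤ ‖ζ‖ ^ 2 * (4 * M / r * ‖ζ‖) := by gcongr
          _ = 4 * M / r * ‖ζ‖ ^ (2 + 1) := by ring
    rw [tc_sub 2 (contDiffAt_of_ball one_pos hG 2) (by fun_prop),
      tc_add 2 (by fun_prop) (by fun_prop), tc_pow_smul, tc_pow_smul] at h3
    simp only [show ¬ (2 = 1) by norm_num, if_false, if_true, zero_add] at h3
    exact sub_eq_zero.1 h3
  rw [htc]
  -- pass to the limit along the positive reals
  have hc : ContinuousAt G2 0 := (hG2d.differentiableAt hb).continuousAt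
  have hl1 : Tendsto (fun ρ : ℝ => (G2 (ρ : ℂ)).re) (𝓝[>] 0) (𝓝 (G2 0).re) := by
    have h3 : Tendsto (fun ρ : ℝ => (ρ : ℂ)) (𝓝[>] 0) (𝓝 0) := by
      have := (Complex.continuous_ofReal.tendsto (0 : ℝ)).mono_left
        (nhdsWithin_le_nhds (s := Ioi (0 : ℝ)))
      simpa using this
    exact (Complex.continuous_re.tendsto _).comp (hc.tendsto.comp h3)
  have hl2 : Tendsto (fun ρ : ℝ => (2 - ρ) / (1 - ρ) ^ 2) (𝓝[>] 0) (𝓝 2) := by
    have h3 : ContinuousAt (fun ρ : ℝ => (2 - ρ) / (1 - ρ) ^ 2) 0 := by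
      apply ContinuousAt.div (by fun_prop) (by fun_prop)
      norm_num
    have := h3.tendsto.mono_left (nhdsWithin_le_nhds (s := Ioi (0 : ℝ)))
    simpa using this
  refine le_of_tendsto_of_tendsto hl1 hl2 ?_
  filter_upwards [Ioo_mem_nhdsGT hδ] with ρ hρ
  have h3 := h2 ρ hρ.1 hρ.2
  have h4 : (G ρ).re ≤ ρ / (1 - ρ) ^ 2 := ((le_abs_self _).trans (Complex.abs_re_le_norm _)).trans h3
  have hρ1 : 0 < 1 - ρ := by linarith [hρ.2]
  have h5 : (G ρ).re = ρ + ρ ^ 2 * (G2 ρ).re := by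
    rw [e3]
    have : ((ρ : ℂ) ^ 2 * G2 ρ) = ((ρ ^ 2 : ℝ) : ℂ) * G2 ρ := by push_cast; ring
    rw [Complex.add_re, this, Complex.re_ofReal_mul, Complex.ofReal_re]
  rw [h5, le_div_iff₀ (by positivity)] at h4
  rw [le_div_iff₀ (by positivity)]
  have h6 : ρ ^ 2 * ((G2 ρ).re * (1 - ρ) ^ 2) ≤ ρ ^ 2 * (2 - ρ) := by nlinarith
  exact le_of_mul_le_mul_left h6 (by have := hρ.1; positivity)

section Lin

variable {E : Type*} [NormedAddCommGroup E] [InnerProductSpace ℂ E] [CompleteSpace E]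

/-- `‖e^t v(t) - z‖ = O(‖z‖^2)` uniformly in `t`. -/
theorem Sol.lin {h : E → ℝ → E} {z : E} {v : ℝ → E} (hv : Sol h z v)
    (hh : ∀ s, Cara (fun w => h w s)) (hz : ‖z‖ ≤ 1 / 8) {t : ℝ} (ht : 0 ≤ t) :
    ‖((Real.exp t : ℝ) : ℂ) • v t - z‖ ≤ 3200 * ‖z‖ ^ 2 := by
  set d : E := ((Real.exp t : ℝ) : ℂ) • v t - z with hd
  rcases eq_or_ne d 0 with h0 | h0
  · rw [h0, norm_zero]; positivity
  have hdp : 0 < ‖d‖ := norm_pos_iff.2 h0
  set w : E := ((‖d‖ : ℂ)⁻¹) • d with hw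
  have hwn : ‖w‖ = 1 := by
    rw [hw, norm_smul, norm_inv, Complex.norm_real, norm_norm, inv_mul_cancel₀ hdp.ne']
  have hwi : inner ℂ w d = (‖d‖ : ℂ) := by
    rw [hw, inner_smul_left, inner_self_eq_norm_sq_to_K, map_inv₀, Complex.conj_ofReal]
    have : (‖d‖ : ℂ) ≠ 0 := by exact_mod_cast hdp.ne'
    simp only [Complex.coe_algebraMap]
    field_simp
  set c : ℝ := 2 * ‖z‖ with hc
  -- size of the solution
  have hvs : ∀ s, 0 ≤ s → ‖v s‖ ≤ Real.exp (-s) * c := by
    intro s hs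
    have h1 := hv.growth hh hs
    have hz1 : ‖z‖ / (1 - ‖z‖) ^ 2 ≤ c := by
      rw [div_le_iff₀ (by nlinarith [norm_nonneg z]), hc]
      have h50 : 1 / 2 ≤ (1 - ‖z‖) ^ 2 := by nlinarith [norm_nonneg z]
      nlinarith [norm_nonneg z]
    have hv1 := hv.mem s hs
    have h2 : ‖v s‖ ≤ ‖v s‖ / (1 - ‖v s‖) ^ 2 := by
      rw [le_div_iff₀ (by have : 0 < 1 - ‖v s‖ := by linarith
                          positivity)]
      have h3 : (1 - ‖v s‖) ^ 2 ≤ 1 := by nlinarith [norm_nonneg (v s)]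
      nlinarith [norm_nonneg (v s)]
    have h4 : Real.exp s * ‖v s‖ ≤ c := by
      calc Real.exp s * ‖v s‖ ≤ Real.exp s * (‖v s‖ / (1 - ‖v s‖) ^ 2) := by gcongr
        _ ≤ c := h1.trans hz1
    rw [Real.exp_neg, ← div_eq_inv_mul, le_div_iff₀ (Real.exp_pos s)]
    linarith
  have hvz : ∀ s, 0 ≤ s → ‖v s‖ < 1 / 4 := by
    intro s hs
    have := hv.norm_antitone hh le_rfl hs
    rw [hv.start] at this
    linarith
  -- the scalar function
  set φ : ℝ → ℝ := fun s => Real.exp s * (inner ℂ w (v s)).re with hφ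
  have hAC1 : AbsolutelyContinuousOnInterval (fun s => (inner ℂ w (v s)).re) 0 t := by
    apply ac_of_dist_le zero_le_one (hv.ac le_rfl ht)
    intro x _ y _
    rw [Real.dist_eq, dist_eq_norm, ← Complex.sub_re, ← inner_sub_right, one_mul]
    refine (Complex.abs_re_le_norm _).trans ?_
    have := norm_inner_le_norm (𝕜 := ℂ) w (v x - v y)
    rwa [hwn, one_mul] at this
  have hACe : ∀ a b : ℝ, AbsolutelyContinuousOnInterval (fun s => a * Real.exp (b * s)) 0 t := by
    intro a b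
    have : ContDiffOn ℝ 1 (fun s : ℝ => a * Real.exp (b * s)) (uIcc 0 t) := by fun_prop
    exact this.absolutelyContinuousOnInterval
  have hAC2 : AbsolutelyContinuousOnInterval φ 0 t := by
    have := (hACe 1 1).fun_mul hAC1
    simpa [hφ] using this
  have hAC3 : AbsolutelyContinuousOnInterval
      (fun s => φ s + 800 * c ^ 2 * Real.exp ((-1) * s)) 0 t := hAC2.fun_add (hACe _ _)
  have hfin := ac_le_of_deriv_nonpos
    (f := fun s => φ s + 800 * c ^ 2 * Real.exp ((-1) * s))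
    (f' := fun s => (Real.exp s * (inner ℂ w (v s)).re + Real.exp s * (inner ℂ w (-(h (v s) s))).re)
      + 800 * c ^ 2 * (Real.exp ((-1) * s) * (-1))) ht hAC3 (by
    filter_upwards [hv.hasDerivAt le_rfl ht] with s hs hsm
    have h1 := hs hsm
    have h2 := (innerSL ℂ w).hasFDerivAt.restrictScalars ℝ |>.comp_hasDerivAt s h1
    have h3 := Complex.reCLM.hasFDerivAt.comp_hasDerivAt s h2
    have h4 : HasDerivAt (fun s => (inner ℂ w (v s)).re) (inner ℂ w (-(h (v s) s))).re s := h3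
    have h5 := (Real.hasDerivAt_exp s).mul h4
    have h6 : HasDerivAt (fun s : ℝ => Real.exp ((-1) * s)) (Real.exp ((-1) * s) * (-1)) s := by
      have := ((hasDerivAt_id s).const_mul (-1 : ℝ)).exp
      simpa using this
    refine ⟨h5.add (h6.const_mul (800 * c ^ 2)), ?_⟩
    have h7 := (hh s).second_order (hvz s hsm.1.le)
    have h8 : (inner ℂ w (v s)).re + (inner ℂ w (-(h (v s) s))).re ≤ 800 * ‖v s‖ ^ 2 := by
      rw [← Complex.add_re, ← inner_add_right]
      have h9 : v s + -(h (v s) s) = -(h (v s) s - v s) := by abel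
      rw [h9]
      refine ((le_abs_self _).trans (Complex.abs_re_le_norm _)).trans ?_
      refine (norm_inner_le_norm (𝕜 := ℂ) _ _).trans ?_
      rw [hwn, one_mul, norm_neg]
      exact h7
    have h10 := hvs s hsm.1.le
    have h11 : ‖v s‖ ^ 2 ≤ (Real.exp (-s) * c) ^ 2 := by gcongr
    have h12 : Real.exp s * ((Real.exp (-s) * c) ^ 2) = Real.exp ((-1) * s) * c ^ 2 := by
      rw [mul_pow, ← mul_assoc, sq (Real.exp (-s)), ← mul_assoc, ← Real.exp_add, ← Real.exp_add]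
      congr 2
      ring
    have h13 : Real.exp s * ((inner ℂ w (v s)).re + (inner ℂ w (-(h (v s) s))).re) ≤
        800 * (Real.exp ((-1) * s) * c ^ 2) := by
      calc _ ≤ Real.exp s * (800 * (Real.exp (-s) * c) ^ 2) := by
            apply mul_le_mul_of_nonneg_left _ (Real.exp_pos s).le
            linarith
        _ = 800 * (Real.exp s * ((Real.exp (-s) * c) ^ 2)) := by ring
        _ = _ := by rw [h12]
    linarith)
  have h14 : φ t - φ 0 = ‖d‖ := by
    have h15 : inner ℂ w d = ((Real.exp t : ℝ) : ℂ) * inner ℂ w (v t) - inner ℂ w z := by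
      rw [hd, inner_sub_right, inner_smul_right]
    rw [hwi] at h15
    have h16 := congrArg Complex.re h15
    rw [Complex.sub_re, Complex.re_ofReal_mul, Complex.ofReal_re] at h16
    simp only [hφ, Real.exp_zero, one_mul, hv.start]
    linarith
  have h17 : 0 ≤ 800 * c ^ 2 * Real.exp ((-1) * t) := by positivity
  simp only [mul_zero, Real.exp_zero, mul_one] at hfin
  have h18 : 800 * c ^ 2 = 3200 * ‖z‖ ^ 2 := by rw [hc]; ring
  linarith

end Lin

end Pool.Agent.Helper342.Par
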