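import Mathlib
import Pool.Agent.Helper342.Par.Second
import Pool.Agent.Helper342.Par.Cara

set_option autoImplicit false

namespace Pool.Agent.Helper342.Par

open Metric Set Filter Topology MeasureTheory

section Third

variable {E : Type*} [NormedAddCommGroup E] [InnerProductSpace ℂ E] [CompleteSpace E]

/-- A holomorphic curve through `0` with derivative `u` and bounded first quotient. -/
theorem curve_third {g : ℂ → E} {R B : ℝ} (hR : 0 < R) (hg : DifferentiableOn ℂ g (ball 0 R))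
    {u : E} (g0 : g 0 = 0) (g1 : HasDerivAt g u 0)
    (hB : ∀ ζ ∈ ball (0 : ℂ) R, ‖dslope g 0 ζ‖ ≤ B) :
    HasDerivAt (dslope g 0) (tc 2 g) 0 ∧ ∀ ζ ∈ ball (0 : ℂ) R,
      ‖g ζ - ζ • u - ζ ^ 2 • tc 2 g‖ ≤ 4 * B / R ^ 2 * ‖ζ‖ ^ 3 := by
  have hb : ball (0 : ℂ) R ∈ 𝓝 0 := ball_mem_nhds _ hR
  have hd1 : DifferentiableOn ℂ (dslope g 0) (ball 0 R) :=
    (Complex.differentiableOn_dslope hb).2 hg
  have hs0 : dslope g 0 0 = u := by rw [dslope_same, g1.deriv]
  have hmul : ∀ ζ, ζ • dslope g 0 ζ = g ζ := by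
    intro ζ
    have := sub_smul_dslope g 0 ζ
    simpa [g0] using this
  set c : E := deriv (dslope g 0) 0 with hc
  have hder : HasDerivAt (dslope g 0) c 0 := (hd1.differentiableAt hb).hasDerivAt
  have hmain : ∀ ζ ∈ ball (0 : ℂ) R, ‖g ζ - ζ • u - ζ ^ 2 • c‖ ≤ 4 * B / R ^ 2 * ‖ζ‖ ^ 3 := by
    intro ζ hζ
    have h1 := norm_sub_sub_fderiv_le hR hd1 hB hζ
    have h2 : fderiv ℂ (dslope g 0) 0 (ζ - 0) = ζ • c := by
      rw [hder.hasFDerivAt.fderiv]
      simp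
    rw [h2, hs0, sub_zero] at h1
    have h3 : g ζ - ζ • u - ζ ^ 2 • c = ζ • (dslope g 0 ζ - u - ζ • c) := by
      rw [smul_sub, smul_sub, hmul, smul_smul, sq]
    rw [h3, norm_smul]
    calc ‖ζ‖ * ‖dslope g 0 ζ - u - ζ • c‖ ≤ ‖ζ‖ * (4 * B * (‖ζ‖ / R) ^ 2) := by gcongr
      _ = 4 * B / R ^ 2 * ‖ζ‖ ^ 3 := by
        field_simp
  have htc : tc 2 g = c := by
    have h3 : tc 2 (fun ζ => g ζ - (ζ ^ 1 • u + ζ ^ 2 • c)) = 0 := by
      apply tc_eq_zero_of_bound 2 (R := R) (C := 4 * B / R ^ 2) hR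
      · exact hg.sub (by fun_prop)
      · intro ζ hζ
        have h4 : g ζ - (ζ ^ 1 • u + ζ ^ 2 • c) = g ζ - ζ • u - ζ ^ 2 • c := by
          rw [pow_one]; abel
        rw [h4]
        exact hmain ζ hζ
    rw [tc_sub 2 (contDiffAt_of_ball hR hg 2) (by fun_prop),
      tc_add 2 (by fun_prop) (by fun_prop), tc_pow_smul, tc_pow_smul] at h3
    simp only [show ¬ (2 = 1) by norm_num, if_false, if_true, zero_add] at h3
    exact sub_eq_zero.1 h3
  rw [htc]
  exact ⟨hder, hmain⟩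

/-- The constant `3 √3 / 2`. -/
noncomputable def MM : ℝ := 3 * Real.sqrt 3 / 2

theorem MM_pos : 0 < MM := by rw [MM]; positivity

theorem MM_sq : MM ^ 2 = 27 / 4 := by
  have := Real.sq_sqrt (by norm_num : (0 : ℝ) ≤ 3)
  rw [MM]
  nlinarith

theorem MM_eq : Real.sqrt (((2 : ℕ) + 1 : ℝ) ^ (2 + 1) / ((2 : ℕ) : ℝ) ^ 2) = MM := by
  have h1 : (((2 : ℕ) + 1 : ℝ) ^ (2 + 1) / ((2 : ℕ) : ℝ) ^ 2) = MM ^ 2 := by
    rw [MM_sq]
    push_cast
    norm_num
  rw [h1, Real.sqrt_sq MM_pos.le]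

/-- Uniform third order estimate for the Caratheodory class. -/
theorem Cara.third_order {h : E → E} (hh : Cara h) {z : E} (hz : ‖z‖ < 1 / 4) :
    ‖h z - z‖ ≤ MM * ‖z‖ ^ 2 + 12864 * ‖z‖ ^ 3 := by
  rcases eq_or_ne z 0 with h0 | h0
  · rw [h0, hh.zero]; simp
  have hzp : 0 < ‖z‖ := norm_pos_iff.2 h0
  set u : E := ((‖z‖ : ℂ)⁻¹) • z with hu
  have hun : ‖u‖ = 1 := by
    rw [hu, norm_smul, norm_inv, Complex.norm_real, norm_norm, inv_mul_cancel₀ hzp.ne']
  have hzu : (‖z‖ : ℂ) • u = z := by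
    rw [hu, smul_smul, mul_inv_cancel₀, one_smul]
    exact_mod_cast hzp.ne'
  set g : ℂ → E := fun ζ => h (ζ • u) with hg
  have hmem : ∀ ζ ∈ ball (0 : ℂ) (1 / 4), ζ • u ∈ ball (0 : E) 1 := by
    intro ζ hζ
    rw [mem_ball_zero_iff] at *
    rw [norm_smul, hun, mul_one]
    linarith
  have hgd : DifferentiableOn ℂ g (ball 0 (1 / 4)) := hh.diff.comp (by fun_prop) hmem
  have g0 : g 0 = 0 := by simp [hg, hh.zero]
  have g1 : HasDerivAt g u 0 := by
    have h1 : HasFDerivAt h (ContinuousLinearMap.id ℂ E) ((0 : ℂ) • u) := by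
      rw [zero_smul, ← hh.fder]
      exact (hh.diff.differentiableAt (ball_mem_nhds _ one_pos)).hasFDerivAt
    have h2 : HasDerivAt (fun ζ : ℂ => ζ • u) ((1 : ℂ) • u) 0 :=
      (hasDerivAt_id (0 : ℂ)).smul_const u
    have h3 : HasDerivAt g ((ContinuousLinearMap.id ℂ E) ((1 : ℂ) • u)) 0 :=
      h1.comp_hasDerivAt 0 h2
    simpa using h3
  have hB : ∀ ζ ∈ ball (0 : ℂ) (1 / 4), ‖dslope g 0 ζ‖ ≤ 201 := by
    intro ζ hζ
    rcases eq_or_ne ζ 0 with hq | hq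
    · rw [hq, dslope_same, g1.deriv, hun]; norm_num
    · have hζ' : ‖ζ‖ < 1 / 4 := by simpa using hζ
      have h1 : ‖ζ • u‖ < 1 / 4 := by rw [norm_smul, hun, mul_one]; exact hζ'
      have h2 := hh.second_order h1
      rw [norm_smul, hun, mul_one] at h2
      rw [dslope_of_ne _ hq, slope_def_module, sub_zero, g0, sub_zero, norm_smul, norm_inv,
        inv_mul_le_iff₀ (norm_pos_iff.2 hq)]
      have h3 : ‖g ζ‖ ≤ ‖h (ζ • u) - ζ • u‖ + ‖ζ • u‖ := by
        have := norm_add_le (h (ζ • u) - ζ • u) (ζ • u)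
        simpa [hg] using this
      rw [norm_smul, hun, mul_one] at h3
      nlinarith [norm_nonneg ζ]
  obtain ⟨-, h4⟩ := curve_third (by norm_num) hgd g0 g1 hB
  have hmz : (‖z‖ : ℂ) ∈ ball (0 : ℂ) (1 / 4) := by
    rw [mem_ball_zero_iff, Complex.norm_real, norm_norm]; exact hz
  have h5 := h4 _ hmz
  have h6 : ‖tc 2 g‖ ≤ MM := by
    have hpos' : ∀ z ∈ ball (0 : E) 1, 0 ≤ (inner ℂ z (h z)).re := fun z hz =>
      hh.re_inner_nonneg (by simpa using hz)
    have := norm_tc_le hh.diff hh.zero hh.fder hpos' (le_refl 2) hun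
    rwa [MM_eq] at this
  have h7 : g (‖z‖ : ℂ) = h z := by simp only [hg, hzu]
  rw [h7, hzu, Complex.norm_real, norm_norm] at h5
  calc ‖h z - z‖ = ‖(h z - z - (‖z‖ : ℂ) ^ 2 • tc 2 g) + (‖z‖ : ℂ) ^ 2 • tc 2 g‖ := by
        rw [sub_add_cancel]
    _ ≤ ‖h z - z - (‖z‖ : ℂ) ^ 2 • tc 2 g‖ + ‖(‖z‖ : ℂ) ^ 2 • tc 2 g‖ := norm_add_le _ _
    _ ≤ 4 * 201 / (1 / 4) ^ 2 * ‖z‖ ^ 3 + ‖z‖ ^ 2 * MM := by
        rw [norm_smul, norm_pow, Complex.norm_real, norm_norm]
        gcongr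
    _ = MM * ‖z‖ ^ 2 + 12864 * ‖z‖ ^ 3 := by ring

/-- `‖e^t v(t) - z‖ ≤ M ‖z‖^2 + O(‖z‖^3)` uniformly in `t`. -/
theorem Sol.quad {h : E → ℝ → E} {z : E} {v : ℝ → E} (hv : Sol h z v)
    (hh : ∀ s, Cara (fun w => h w s)) (hz : ‖z‖ ≤ 1 / 8) {t : ℝ} (ht : 0 ≤ t) :
    ‖((Real.exp t : ℝ) : ℂ) • v t - z‖ ≤ MM * (‖z‖ / (1 - ‖z‖) ^ 2) ^ 2 +
      6432 * (‖z‖ / (1 - ‖z‖) ^ 2) ^ 3 := by
  set c : ℝ := ‖z‖ / (1 - ‖z‖) ^ 2 with hc
  have hc0 : 0 ≤ c := by
    have := norm_nonneg z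
    positivity
  have hM := MM_pos
  set d : E := ((Real.exp t : ℝ) : ℂ) • v t - z with hd
  rcases eq_or_ne d 0 with h0 | h0
  · rw [h0, norm_zero]; positivity
  have hdp : 0 < ‖d‖ := norm_pos_iff.2 h0
  set w : E := ((‖d‖ : ℂ)⁻¹) • d with hw
  have hwn : ‖w‖ = 1 := by
    rw [hw, norm_smul, norm_inv, Complex.norm_real, norm_norm, inv_mul_cancel₀ hdp.ne']
  have hwi : inner ℂ w d = (‖d‖ : ℂ) := by
    rw [hw, inner_smul_left, inner_self_eq_norm_sq_to_K, map_inv₀, Complex.conj_ofReal]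
    have : (‖d‖ : ℂ) ≠ 0 := by exact_mod_cast hdp.ne'
    simp only [Complex.coe_algebraMap]
    field_simp
  -- size of the solution
  have hvs : ∀ s, 0 ≤ s → ‖v s‖ ≤ Real.exp (-s) * c := by
    intro s hs
    have h1 := hv.growth hh hs
    have hv1 := hv.mem s hs
    have h2 : ‖v s‖ ≤ ‖v s‖ / (1 - ‖v s‖) ^ 2 := by
      rw [le_div_iff₀ (by have : 0 < 1 - ‖v s‖ := by linarith
                          positivity)]
      have h3 : (1 - ‖v s‖) ^ 2 ≤ 1 := by nlinarith [norm_nonneg (v s)]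
      nlinarith [norm_nonneg (v s)]
    have h4 : Real.exp s * ‖v s‖ ≤ c := by
      calc Real.exp s * ‖v s‖ ≤ Real.exp s * (‖v s‖ / (1 - ‖v s‖) ^ 2) := by gcongr
        _ ≤ c := h1
    rw [Real.exp_neg, ← div_eq_inv_mul, le_div_iff₀ (Real.exp_pos s)]
    linarith
  have hvz : ∀ s, 0 ≤ s → ‖v s‖ < 1 / 4 := by
    intro s hs
    have := hv.norm_antitone hh le_rfl hs
    rw [hv.start] at this
    linarith
  -- the scalar function
  set φ : ℝ → ℝ := fun s => Real.exp s * (inner ℂ w (v s)).re with hφ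
  have hAC1 : AbsolutelyContinuousOnInterval (fun s => (inner ℂ w (v s)).re) 0 t := by
    apply ac_of_dist_le zero_le_one (hv.ac le_rfl ht)
    intro x _ y _
    rw [Real.dist_eq, dist_eq_norm, ← Complex.sub_re, ← inner_sub_right, one_mul]
    refine (Complex.abs_re_le_norm _).trans ?_
    have := norm_inner_le_norm (𝕜 := ℂ) w (v x - v y)
    rwa [hwn, one_mul] at this
  have hACe : ∀ a b : ℝ, AbsolutelyContinuousOnInterval (fun s => a * Real.exp (b * s)) 0 t := by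
    intro a b
    have : ContDiffOn ℝ 1 (fun s : ℝ => a * Real.exp (b * s)) (uIcc 0 t) := by fun_prop
    exact this.absolutelyContinuousOnInterval
  have hAC2 : AbsolutelyContinuousOnInterval φ 0 t := by
    have := (hACe 1 1).fun_mul hAC1
    simpa [hφ] using this
  have hAC3 : AbsolutelyContinuousOnInterval
      (fun s => φ s + MM * c ^ 2 * Real.exp ((-1) * s) + 6432 * c ^ 3 * Real.exp ((-2) * s)) 0 t :=
    (hAC2.fun_add (hACe _ _)).fun_add (hACe _ _)
  have hfin := ac_le_of_deriv_nonpos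
    (f := fun s => φ s + MM * c ^ 2 * Real.exp ((-1) * s) + 6432 * c ^ 3 * Real.exp ((-2) * s))
    (f' := fun s => (Real.exp s * (inner ℂ w (v s)).re + Real.exp s * (inner ℂ w (-(h (v s) s))).re)
      + MM * c ^ 2 * (Real.exp ((-1) * s) * (-1)) + 6432 * c ^ 3 * (Real.exp ((-2) * s) * (-2)))
      ht hAC3 (by
    filter_upwards [hv.hasDerivAt le_rfl ht] with s hs hsm
    have h1 := hs hsm
    have h2 := (innerSL ℂ w).hasFDerivAt.restrictScalars ℝ |>.comp_hasDerivAt s h1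
    have h3 := Complex.reCLM.hasFDerivAt.comp_hasDerivAt s h2
    have h4 : HasDerivAt (fun s => (inner ℂ w (v s)).re) (inner ℂ w (-(h (v s) s))).re s := h3
    have h5 := (Real.hasDerivAt_exp s).mul h4
    have h6 : ∀ b : ℝ, HasDerivAt (fun s : ℝ => Real.exp (b * s)) (Real.exp (b * s) * b) s := by
      intro b
      have := ((hasDerivAt_id s).const_mul b).exp
      simpa using this
    refine ⟨(h5.add ((h6 (-1)).const_mul (MM * c ^ 2))).add ((h6 (-2)).const_mul (6432 * c ^ 3)),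
      ?_⟩
    have h7 := (hh s).third_order (hvz s hsm.1.le)
    have h8 : (inner ℂ w (v s)).re + (inner ℂ w (-(h (v s) s))).re ≤
        MM * ‖v s‖ ^ 2 + 12864 * ‖v s‖ ^ 3 := by
      rw [← Complex.add_re, ← inner_add_right]
      have h9 : v s + -(h (v s) s) = -(h (v s) s - v s) := by abel
      rw [h9]
      refine ((le_abs_self _).trans (Complex.abs_re_le_norm _)).trans ?_
      refine (norm_inner_le_norm (𝕜 := ℂ) _ _).trans ?_
      rw [hwn, one_mul, norm_neg]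
      exact h7
    have h10 := hvs s hsm.1.le
    have h11 : ‖v s‖ ^ 2 ≤ (Real.exp (-s) * c) ^ 2 := by gcongr
    have h11' : ‖v s‖ ^ 3 ≤ (Real.exp (-s) * c) ^ 3 := by gcongr
    have h12 : Real.exp s * ((Real.exp (-s) * c) ^ 2) = Real.exp ((-1) * s) * c ^ 2 := by
      rw [mul_pow, ← mul_assoc, sq (Real.exp (-s)), ← mul_assoc, ← Real.exp_add, ← Real.exp_add]
      congr 2
      ring
    have h12' : Real.exp s * ((Real.exp (-s) * c) ^ 3) = Real.exp ((-2) * s) * c ^ 3 := by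
      rw [mul_pow, ← mul_assoc, ← Real.exp_nat_mul, ← Real.exp_add]
      congr 2
      push_cast
      ring
    have h13 : Real.exp s * ((inner ℂ w (v s)).re + (inner ℂ w (-(h (v s) s))).re) ≤
        MM * (Real.exp ((-1) * s) * c ^ 2) + 12864 * (Real.exp ((-2) * s) * c ^ 3) := by
      calc _ ≤ Real.exp s * (MM * (Real.exp (-s) * c) ^ 2 + 12864 * (Real.exp (-s) * c) ^ 3) := by
            apply mul_le_mul_of_nonneg_left _ (Real.exp_pos s).le
            nlinarith [mul_le_mul_of_nonneg_left h11 hM.le]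
        _ = MM * (Real.exp s * ((Real.exp (-s) * c) ^ 2)) +
            12864 * (Real.exp s * ((Real.exp (-s) * c) ^ 3)) := by ring
        _ = _ := by rw [h12, h12']
    linarith)
  have h14 : φ t - φ 0 = ‖d‖ := by
    have h15 : inner ℂ w d = ((Real.exp t : ℝ) : ℂ) * inner ℂ w (v t) - inner ℂ w z := by
      rw [hd, inner_sub_right, inner_smul_right]
    rw [hwi] at h15
    have h16 := congrArg Complex.re h15
    rw [Complex.sub_re, Complex.re_ofReal_mul, Complex.ofReal_re] at h16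
    simp only [hφ, Real.exp_zero, one_mul, hv.start]
    linarith
  have h17 : 0 ≤ MM * c ^ 2 * Real.exp ((-1) * t) := by positivity
  have h18 : 0 ≤ 6432 * c ^ 3 * Real.exp ((-2) * t) := by positivity
  simp only [mul_zero, Real.exp_zero, mul_one] at hfin
  linarith

end Third

end Pool.Agent.Helper342.Par
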