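import Mathlib
import Pool.Agent.Helper342.Par.Third

set_option autoImplicit false

namespace Pool.Agent.Helper342.Par

open Metric Set Filter Topology Asymptotics

section GenKey

variable {E : Type*} [NormedAddCommGroup E] [InnerProductSpace ℂ E] [CompleteSpace E]

/-- The main inequality, obtained by averaging over the boundary of a rational disc. -/
theorem key_ineq_gen {A : E →L[ℂ] E} {h : E → E} {R₁ : ℝ} (hR : 1 < R₁) (hd : DifferentiableOn ℂ h (ball 0 R₁))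
    (h0 : h 0 = 0) (h1 : fderiv ℂ h 0 = A)
    (hpos : ∀ z, ‖z‖ ≤ 1 → 0 ≤ (inner ℂ z (h z)).re) {m : ℕ} (hm : 2 ≤ m) {u w : E}
    (hu : ‖u‖ = 1) (hw : ‖w‖ = 1) {c x y ρ : ℝ} (huw : inner ℂ u w = (c : ℂ))
    (hy : 0 ≤ y) (hy1 : y ≤ 1) (hρ : 0 ≤ ρ) (hρ1 : ρ < 1)
    (e1 : x ^ 2 + y ^ 2 = 1 + ρ ^ 2) (e2 : x * y * c = ρ) :
    x * y ^ m * (inner ℂ w (tc m (fun t : ℂ => h (t • u)))).re ≤
      y ^ 2 * (inner ℂ u (A u)).re + x ^ 2 * (inner ℂ w (A w)).re := by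
  have hR0 : 0 < R₁ := by linarith
  have hwu : inner ℂ w u = (c : ℂ) := by
    rw [← inner_conj_symm, huw, Complex.conj_ofReal]
  set q : ℂ → ℂ := fun ζ => 1 - (ρ : ℂ) * ζ ^ (m - 1) with hq
  set v : E := ((ρ * y : ℝ) : ℂ) • u - (x : ℂ) • w with hv
  set z : ℂ → E := fun ζ => ζ • ((y : ℂ) • u) + ((q ζ)⁻¹ * ζ ^ m) • v with hz
  have hmm : ∀ ζ : ℂ, ζ ^ m = ζ * ζ ^ (m - 1) := by
    intro ζ
    rw [← pow_succ']
    congr 1
    omega
  have hpow : ∀ {ζ : ℂ}, ‖ζ‖ ≤ 1 → ‖ζ ^ (m - 1)‖ ≤ 1 := by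
    intro ζ hζ
    rw [norm_pow]
    exact pow_le_one₀ (norm_nonneg _) hζ
  have hqne : ∀ {ζ : ℂ}, ‖ζ‖ ≤ 1 → q ζ ≠ 0 := fun hζ => (q_ne hρ hρ1 (hpow hζ)).2
  have hqz : ∀ {ζ : ℂ}, ‖ζ‖ ≤ 1 → q ζ • z ζ = ζ • ((y : ℂ) • u - (ζ ^ (m - 1) * x) • w) := by
    intro ζ hζ
    have := hqne hζ
    have e0 : q ζ • ((q ζ)⁻¹ * ζ ^ m) • v = ζ ^ m • v := by
      rw [smul_smul, ← mul_assoc, mul_inv_cancel₀ this, one_mul]
    simp only [hz]
    rw [smul_add, e0, hmm ζ]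
    simp only [hq, hv]
    push_cast
    module
  have hzn : ∀ {ζ : ℂ}, ‖ζ‖ ≤ 1 → ‖z ζ‖ ≤ ‖ζ‖ := by
    intro ζ hζ
    have h2 := hqne hζ
    have h3 : ‖q ζ‖ * ‖z ζ‖ ≤ ‖q ζ‖ * ‖ζ‖ := by
      rw [← norm_smul, hqz hζ, norm_smul, mul_comm]
      exact mul_le_mul_of_nonneg_right (disc_norm hu hw huw hy hy1 e1 e2 (hpow hζ)) (norm_nonneg _)
    exact le_of_mul_le_mul_left h3 (norm_pos_iff.2 h2)
  set H : ℂ → E := fun ζ => h (z ζ) with hH
  have hzd : ∀ {ζ : ℂ}, ‖ζ‖ ≤ 1 → DifferentiableAt ℂ z ζ := by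
    intro ζ hζ
    have h2 : (1 : ℂ) - (ρ : ℂ) * ζ ^ (m - 1) ≠ 0 := hqne hζ
    simp only [hz, hq]
    fun_prop (disch := assumption)
  have hHd : ∀ {ζ : ℂ}, ‖ζ‖ ≤ 1 → DifferentiableAt ℂ H ζ := by
    intro ζ hζ
    have h2 : z ζ ∈ ball (0 : E) R₁ := by
      rw [mem_ball_zero_iff]
      exact (hzn hζ).trans_lt (hζ.trans_lt hR)
    exact (hd.differentiableAt (isOpen_ball.mem_nhds h2)).comp ζ (hzd hζ)
  have hHon : DifferentiableOn ℂ H (closedBall 0 1) := fun ζ hζ =>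
    (hHd (by simpa using hζ)).differentiableWithinAt
  have hcl : closure (ball (0 : ℂ) 1) = closedBall 0 1 := closure_ball _ one_ne_zero
  have hLon : ∀ p : E, DifferentiableOn ℂ (fun ζ => inner ℂ p (H ζ)) (closedBall 0 1) := by
    intro p
    have : (fun ζ => inner ℂ p (H ζ)) = fun ζ => (innerSL ℂ p) (H ζ) := by
      ext ζ; simp
    rw [this]
    exact (innerSL ℂ p).differentiable.comp_differentiableOn hHon
  have hLdc : ∀ p : E, DiffContOnCl ℂ (fun ζ => inner ℂ p (H ζ)) (ball 0 1) := fun p =>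
    DifferentiableOn.diffContOnCl (by rw [hcl]; exact hLon p)
  have hz0 : z 0 = 0 := by
    have : m ≠ 0 := by omega
    simp [hz, this]
  have hH0 : H 0 = 0 := by simp [hH, hz0, h0]
  -- the Taylor coefficients of `H`
  obtain ⟨δ, hδ, C, hC0, hδR, hC⟩ := near_zero_gen hR0 hd
  rw [h1] at hC
  have hbig : ∀ ζ ∈ ball (0 : ℂ) (min δ 1),
      ‖H ζ - h (ζ • ((y : ℂ) • u)) - ζ ^ m • A v‖ ≤
        ((C + ρ * ‖A‖) / (1 - ρ) * ‖v‖) * ‖ζ‖ ^ (m + 1) := by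
    intro ζ hζ
    have hζ' : ‖ζ‖ < min δ 1 := by simpa using hζ
    have hζ1 : ‖ζ‖ ≤ 1 := (hζ'.trans_le (min_le_right _ _)).le
    have hζδ : ‖ζ‖ < δ := hζ'.trans_le (min_le_left _ _)
    have hyu : ‖ζ • ((y : ℂ) • u)‖ ≤ ‖ζ‖ := by
      rw [norm_smul, norm_smul, hu, mul_one, Complex.norm_real, Real.norm_of_nonneg hy]
      exact mul_le_of_le_one_right (norm_nonneg _) hy1
    have key := hC (z ζ) (ζ • ((y : ℂ) • u)) ((hzn hζ1).trans_lt hζδ) (hyu.trans_lt hζδ)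
    have hdiff : z ζ - ζ • ((y : ℂ) • u) = ((q ζ)⁻¹ * ζ ^ m) • v := by simp [hz]
    rw [hdiff] at key
    have hqn := (q_ne hρ hρ1 (hpow hζ1)).1
    have h1ρ : 0 < 1 - ρ := by linarith
    have hqi : ‖(q ζ)⁻¹‖ ≤ (1 - ρ)⁻¹ := by
      rw [norm_inv]
      exact inv_anti₀ h1ρ hqn
    rw [map_smul] at key
    have hsplit : H ζ - h (ζ • ((y : ℂ) • u)) - ζ ^ m • A v =
        (h (z ζ) - h (ζ • ((y : ℂ) • u)) - ((q ζ)⁻¹ * ζ ^ m) • A v) +
          ((q ζ)⁻¹ * (ρ * ζ ^ (m - 1)) * ζ ^ m) • A v := by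
      have e3 : ((q ζ)⁻¹ * ζ ^ m) = ζ ^ m + (q ζ)⁻¹ * (ρ * ζ ^ (m - 1)) * ζ ^ m := by
        have h5 := hqne hζ1
        have h6 : (ρ : ℂ) * ζ ^ (m - 1) = 1 - q ζ := by simp [hq]
        rw [h6]
        field_simp
        ring
      rw [e3]
      simp only [hH]
      module
    rw [hsplit]
    have t1 : ‖h (z ζ) - h (ζ • ((y : ℂ) • u)) - ((q ζ)⁻¹ * ζ ^ m) • A v‖ ≤
        C * ‖ζ‖ * ((1 - ρ)⁻¹ * ‖ζ‖ ^ m * ‖v‖) := by
      refine key.trans ?_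
      have hmax : max ‖z ζ‖ ‖ζ • ((y : ℂ) • u)‖ ≤ ‖ζ‖ := max_le (hzn hζ1) hyu
      have e4 : ‖((q ζ)⁻¹ * ζ ^ m) • v‖ = ‖(q ζ)⁻¹‖ * ‖ζ‖ ^ m * ‖v‖ := by
        rw [norm_smul, norm_mul, norm_pow]
      rw [e4]
      gcongr
    have t2 : ‖((q ζ)⁻¹ * (ρ * ζ ^ (m - 1)) * ζ ^ m) • A v‖ ≤
        (1 - ρ)⁻¹ * (ρ * ‖ζ‖) * ‖ζ‖ ^ m * (‖A‖ * ‖v‖) := by
      have hAv := A.le_opNorm v
      rw [norm_smul, norm_mul, norm_mul, norm_mul, norm_pow, norm_pow, Complex.norm_real,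
        Real.norm_of_nonneg hρ]
      have : ‖ζ‖ ^ (m - 1) ≤ ‖ζ‖ := by
        calc ‖ζ‖ ^ (m - 1) ≤ ‖ζ‖ ^ 1 :=
              pow_le_pow_of_le_one (norm_nonneg _) hζ1 (by omega)
          _ = ‖ζ‖ := pow_one _
      gcongr
    calc _ ≤ _ := norm_add_le _ _
      _ ≤ C * ‖ζ‖ * ((1 - ρ)⁻¹ * ‖ζ‖ ^ m * ‖v‖) +
          (1 - ρ)⁻¹ * (ρ * ‖ζ‖) * ‖ζ‖ ^ m * (‖A‖ * ‖v‖) := add_le_add t1 t2
      _ = _ := by rw [pow_succ]; field_simp
  have hslice : DifferentiableOn ℂ (fun ζ : ℂ => h (ζ • ((y : ℂ) • u))) (ball 0 1) := by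
    intro ζ hζ
    have hζ' : ‖ζ‖ < 1 := by simpa using hζ
    have h2 : ζ • ((y : ℂ) • u) ∈ ball (0 : E) R₁ := by
      rw [mem_ball_zero_iff, norm_smul, norm_smul, hu, mul_one, Complex.norm_real,
        Real.norm_of_nonneg hy]
      calc ‖ζ‖ * y ≤ 1 * 1 := by gcongr
        _ < R₁ := by linarith
    have h3 : DifferentiableAt ℂ (fun ζ : ℂ => ζ • ((y : ℂ) • u)) ζ := by fun_prop
    exact ((hd.differentiableAt (isOpen_ball.mem_nhds h2)).comp ζ h3).differentiableWithinAt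
  have hHball : DifferentiableOn ℂ H (ball 0 1) := hHon.mono ball_subset_closedBall
  have cdH : ∀ n : ℕ, ContDiffAt ℂ n H 0 := fun n => contDiffAt_of_ball one_pos hHball n
  have cdS : ∀ n : ℕ, ContDiffAt ℂ n (fun ζ : ℂ => h (ζ • ((y : ℂ) • u))) 0 :=
    fun n => contDiffAt_of_ball one_pos hslice n
  have htm : tc m H = tc m (fun ζ : ℂ => h (ζ • ((y : ℂ) • u))) + A v := by
    have h3 : tc m (fun ζ => H ζ - h (ζ • ((y : ℂ) • u)) - ζ ^ m • A v) = 0 := by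
      apply tc_eq_zero_of_bound m (R := min δ 1) (by positivity) _ hbig
      have hs : ball (0 : ℂ) (min δ 1) ⊆ ball 0 1 := ball_subset_ball (min_le_right _ _)
      exact ((hHball.mono hs).sub (hslice.mono hs)).sub (by fun_prop)
    rw [tc_sub m ((cdH m).sub (cdS m)) (by fun_prop), tc_sub m (cdH m) (cdS m), tc_pow_smul,
      if_pos rfl] at h3
    rw [sub_sub, sub_eq_zero] at h3
    exact h3
  have hym : tc m (fun ζ : ℂ => h (ζ • ((y : ℂ) • u))) =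
      ((y : ℂ) ^ m) • tc m (fun t : ℂ => h (t • u)) := by
    have hs1 : DifferentiableOn ℂ (fun ζ : ℂ => h (ζ • u)) (ball 0 1) := by
      intro ζ hζ
      have hζ' : ‖ζ‖ < 1 := by simpa using hζ
      have h2 : ζ • u ∈ ball (0 : E) R₁ := by
        rw [mem_ball_zero_iff, norm_smul, hu, mul_one]
        linarith
      have h3 : DifferentiableAt ℂ (fun ζ : ℂ => ζ • u) ζ := by fun_prop
      exact ((hd.differentiableAt (isOpen_ball.mem_nhds h2)).comp ζ h3).differentiableWithinAt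
    rw [← tc_comp_smul one_pos hs1 m (y : ℂ)]
    simp only [smul_smul, smul_eq_mul]
  have hm0 : m ≠ 0 := by omega
  have hm1 : m - 1 ≠ 0 := by omega
  have hz1 : HasDerivAt z ((y : ℂ) • u) 0 := by
    have hqd : HasDerivAt q (-(ρ * ((m - 1 : ℕ) * (0 : ℂ) ^ (m - 1 - 1)))) 0 := by
      exact ((hasDerivAt_pow (m - 1) (0 : ℂ)).const_mul (ρ : ℂ)).const_sub 1
    have hq0 : q 0 ≠ 0 := hqne (by simp)
    have h5 := (hqd.inv hq0).mul (hasDerivAt_pow m (0 : ℂ))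
    have h6 := ((hasDerivAt_id (0 : ℂ)).smul_const ((y : ℂ) • u)).add (h5.smul_const v)
    refine h6.congr_deriv ?_
    simp [hm0, hm1]
  have hH1 : HasDerivAt H (A ((y : ℂ) • u)) 0 := by
    have h5 : HasFDerivAt h A (z 0) := by
      rw [hz0, ← h1]
      exact (hd.differentiableAt (ball_mem_nhds _ hR0)).hasFDerivAt
    exact h5.comp_hasDerivAt 0 hz1
  have ht1 : tc 1 H = (y : ℂ) • A u := by rw [← map_smul]; exact tc_one hH1
  -- the averaged function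
  set a : ℂ → ℂ := fun ζ => inner ℂ u (H ζ) with ha
  set b : ℂ → ℂ := fun ζ => inner ℂ w (H ζ) with hb
  have htc : ∀ (p : E) (n : ℕ), tc n (fun ζ => inner ℂ p (H ζ)) = inner ℂ p (tc n H) := by
    intro p n
    have := tc_clm (innerSL ℂ p) n (cdH n)
    simpa using this
  have havg : ∀ (p : E) (n : ℕ), Real.circleAverage (fun ζ => (ζ ^ n)⁻¹ * inner ℂ p (H ζ)) 0 1 =
      inner ℂ p (tc n H) := by
    intro p n
    have := tc_circleAverage one_pos n (hLdc p)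
    rw [htc] at this
    simpa using this
  have hcont : ∀ p : E, ContinuousOn (fun ζ => inner ℂ p (H ζ)) (sphere 0 1) := fun p =>
    (hLon p).continuousOn.mono sphere_subset_closedBall
  have hinv : ∀ n : ℕ, ContinuousOn (fun ζ : ℂ => (ζ ^ n)⁻¹) (sphere 0 1) := by
    intro n
    apply ContinuousOn.inv₀ (by fun_prop)
    intro ζ hζ
    have : ‖ζ‖ = 1 := by simpa using hζ
    apply pow_ne_zero
    intro h7
    rw [h7, norm_zero] at this
    norm_num at this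
  have hci : ∀ {f : ℂ → ℂ}, ContinuousOn f (sphere 0 1) → CircleIntegrable f 0 1 := by
    intro f hf
    apply ContinuousOn.circleIntegrable zero_le_one
    simpa using hf
  have i1 : CircleIntegrable (fun ζ => (ζ ^ 1)⁻¹ * a ζ) 0 1 := hci ((hinv 1).mul (hcont u))
  have i2 : CircleIntegrable (fun ζ => ζ ^ (m - 2) * a ζ) 0 1 :=
    hci ((by fun_prop : ContinuousOn (fun ζ : ℂ => ζ ^ (m - 2)) (sphere 0 1)).mul (hcont u))
  have i3 : CircleIntegrable (fun ζ => (ζ ^ m)⁻¹ * b ζ) 0 1 := hci ((hinv m).mul (hcont w))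
  have i4 : CircleIntegrable (fun ζ => (ζ ^ 1)⁻¹ * b ζ) 0 1 := hci ((hinv 1).mul (hcont w))
  set G : ℂ → ℂ := fun ζ => (y : ℂ) • ((ζ ^ 1)⁻¹ * a ζ) - ((ρ * y : ℝ) : ℂ) • (ζ ^ (m - 2) * a ζ)
    - (x : ℂ) • ((ζ ^ m)⁻¹ * b ζ) + ((ρ * x : ℝ) : ℂ) • ((ζ ^ 1)⁻¹ * b ζ) with hG
  have j1 := i1.const_fun_smul (a := (y : ℂ))
  have j2 := i2.const_fun_smul (a := ((ρ * y : ℝ) : ℂ))
  have j3 := i3.const_fun_smul (a := (x : ℂ))
  have j4 := i4.const_fun_smul (a := ((ρ * x : ℝ) : ℂ))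
  have hGi : CircleIntegrable G 0 1 := by
    exact ((j1.sub j2).sub j3).add j4
  have avg2 : Real.circleAverage (fun ζ => ζ ^ (m - 2) * a ζ) 0 1 = 0 := by
    have h7 : DiffContOnCl ℂ (fun ζ => ζ ^ (m - 2) * a ζ) (ball 0 1) := by
      apply DifferentiableOn.diffContOnCl
      rw [hcl]
      exact (by fun_prop : DifferentiableOn ℂ (fun ζ : ℂ => ζ ^ (m - 2)) (closedBall 0 1)).mul
        (hLon u)
    have h8 := DiffContOnCl.circleAverage (c := (0 : ℂ)) (R := 1) (by simpa using h7)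
    rw [h8]
    simp [ha, hH0]
  have hGavg : Real.circleAverage G 0 1 =
      (y : ℂ) • inner ℂ u (tc 1 H) - ((ρ * y : ℝ) : ℂ) • 0 - (x : ℂ) • inner ℂ w (tc m H)
        + ((ρ * x : ℝ) : ℂ) • inner ℂ w (tc 1 H) := by
    have k1 := havg u 1
    have k3 := havg w m
    have k4 := havg w 1
    have hG' : G = (((fun ζ => (y : ℂ) • ((ζ ^ 1)⁻¹ * a ζ)) -
        (fun ζ => ((ρ * y : ℝ) : ℂ) • (ζ ^ (m - 2) * a ζ))) -
        (fun ζ => (x : ℂ) • ((ζ ^ m)⁻¹ * b ζ))) +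
        (fun ζ => ((ρ * x : ℝ) : ℂ) • ((ζ ^ 1)⁻¹ * b ζ)) := rfl
    rw [hG', Real.circleAverage_add ((j1.sub j2).sub j3) j4,
      Real.circleAverage_sub (j1.sub j2) j3, Real.circleAverage_sub j1 j2,
      Real.circleAverage_fun_smul, Real.circleAverage_fun_smul,
      Real.circleAverage_fun_smul, Real.circleAverage_fun_smul, k1, k3, k4, avg2]
  have hGpos : ∀ ζ : ℂ, ‖ζ‖ = 1 → 0 ≤ (G ζ).re := by
    intro ζ hζ
    have hζ0 : ζ ≠ 0 := by
      intro h7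
      rw [h7, norm_zero] at hζ
      norm_num at hζ
    have hconj : ∀ n : ℕ, (starRingEnd ℂ) (ζ ^ n) = (ζ ^ n)⁻¹ := by
      intro n
      have : ‖ζ ^ n‖ = 1 := by rw [norm_pow, hζ, one_pow]
      rw [Complex.inv_def, Complex.normSq_eq_norm_sq, this]
      simp
    have e5 : G ζ = q ζ * inner ℂ (q ζ • z ζ) (H ζ) := by
      rw [hqz hζ.le, inner_smul_left, inner_sub_left, inner_smul_left, inner_smul_left,
        map_mul, Complex.conj_ofReal, Complex.conj_ofReal, hconj]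
      have hc1 : (starRingEnd ℂ) ζ = ζ⁻¹ := by simpa using hconj 1
      rw [hc1]
      have e6 : ζ ^ m = ζ ^ 2 * ζ ^ (m - 2) := by
        rw [← pow_add]; congr 1; omega
      have e7 : ζ ^ (m - 1) = ζ * ζ ^ (m - 2) := by
        rw [← pow_succ']; congr 1; omega
      have hs : ζ ^ (m - 2) ≠ 0 := pow_ne_zero _ hζ0
      simp only [hG, hq, ha, hb, e6, e7, smul_eq_mul]
      push_cast
      field_simp
      ring
    have e8 : G ζ = ((‖q ζ‖ ^ 2 : ℝ) : ℂ) * inner ℂ (z ζ) (H ζ) := by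
      rw [e5, inner_smul_left, ← mul_assoc, Complex.mul_conj, Complex.normSq_eq_norm_sq]
    rw [e8, Complex.re_ofReal_mul]
    exact mul_nonneg (by positivity) (hpos _ ((hzn hζ.le).trans hζ.le))
  have hfin := re_circleAverage_nonneg hGi hGpos
  rw [hGavg, ht1, htm, hym] at hfin
  have e9 : inner ℂ w (A v) = ((ρ * y : ℝ) : ℂ) * inner ℂ w (A u) - (x : ℂ) * inner ℂ w (A w) := by
    rw [hv, map_sub, map_smul, map_smul, inner_sub_right, inner_smul_right, inner_smul_right]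
  have e10 : inner ℂ u ((y : ℂ) • A u) = (y : ℂ) * inner ℂ u (A u) := inner_smul_right _ _ _
  have e11 : inner ℂ w ((y : ℂ) • A u) = (y : ℂ) * inner ℂ w (A u) := inner_smul_right _ _ _
  rw [e10, e11, inner_add_right, inner_smul_right, e9] at hfin
  set P : ℂ := inner ℂ w (tc m (fun t : ℂ => h (t • u))) with hP
  have e12 : ((y : ℂ) • ((y : ℂ) * inner ℂ u (A u)) - ((ρ * y : ℝ) : ℂ) • (0 : ℂ)
      - (x : ℂ) • ((y : ℂ) ^ m * P + (((ρ * y : ℝ) : ℂ) * inner ℂ w (A u) -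
        (x : ℂ) * inner ℂ w (A w)))
      + ((ρ * x : ℝ) : ℂ) • ((y : ℂ) * inner ℂ w (A u))) =
      ((y ^ 2 : ℝ) : ℂ) * inner ℂ u (A u) + ((x ^ 2 : ℝ) : ℂ) * inner ℂ w (A w) -
        ((x * y ^ m : ℝ) : ℂ) * P := by
    simp only [smul_eq_mul]
    push_cast
    ring
  rw [e12, Complex.sub_re, Complex.add_re, Complex.re_ofReal_mul, Complex.re_ofReal_mul,
    Complex.re_ofReal_mul] at hfin
  linarith


end GenKey

end Pool.Agent.Helper342.Par
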