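import Mathlib
import Pool.Agent.Helper342.Par.GenKey

set_option autoImplicit false

namespace Pool.Agent.Helper342.Par

open Metric Set Filter Topology Asymptotics

section GenBound

variable {E : Type*} [NormedAddCommGroup E] [InnerProductSpace ℂ E]

/-- The real inequality behind the choice of parameters. -/
theorem par_ineq {m D s σ t k a b : ℝ} (hm : 0 < m) (hD : 0 ≤ D) (hs0 : 0 < s) (hs1 : s < 1)
    (hs : D * s ^ 2 + (3 * m + D) * s = m) (ha : m ≤ a) (hb : b ≤ a + D * σ) (hσ : 0 ≤ σ)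
    (hσt : σ ^ 2 = 1 - t) (hk : 0 < k) (hk2 : k ^ 2 = 1 - t * (1 - s)) :
    s * b ≤ (1 - s) * a * k := by
  have h1 : m * (1 - s) ^ 2 = (m + D) * s * (1 + s) := by nlinarith
  have h2 : s * D ≤ m * (1 - s ^ 2) := by
    have : m * (1 - s ^ 2) - s * D = D * s ^ 2 + m * s * (3 - s) := by nlinarith
    have : 0 ≤ D * s ^ 2 + m * s * (3 - s) := by
      have : 0 ≤ 3 - s := by linarith
      positivity
    linarith
  have h3 : s * (m + D) ≤ m * (1 - s) ^ 2 := by
    rw [h1]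
    have : 0 ≤ (m + D) * s * s := by positivity
    nlinarith
  have h4 : s ^ 2 * (m + D) * D ≤ m ^ 2 * (1 - s) ^ 3 := by
    have e : m ^ 2 * (1 - s) ^ 3 = s * (m + D) * (m * (1 - s ^ 2)) := by
      calc m ^ 2 * (1 - s) ^ 3 = m * (1 - s) * (m * (1 - s) ^ 2) := by ring
        _ = m * (1 - s) * ((m + D) * s * (1 + s)) := by rw [h1]
        _ = _ := by ring
    rw [e]
    calc s ^ 2 * (m + D) * D = s * (m + D) * (s * D) := by ring
      _ ≤ _ := by
        apply mul_le_mul_of_nonneg_left h2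
        positivity
  have h5 : (m + D * σ) ^ 2 ≤ (m + D) * (m + D * σ ^ 2) := by
    have : (m + D) * (m + D * σ ^ 2) - (m + D * σ) ^ 2 = m * D * (1 - σ) ^ 2 := by ring
    have : 0 ≤ m * D * (1 - σ) ^ 2 := by positivity
    linarith
  have hkk : k ^ 2 = s + σ ^ 2 * (1 - s) := by rw [hk2, hσt]; ring
  have h6 : (s * (m + D * σ)) ^ 2 ≤ (m * (1 - s) * k) ^ 2 := by
    calc (s * (m + D * σ)) ^ 2 = s ^ 2 * (m + D * σ) ^ 2 := by ring
      _ ≤ s ^ 2 * ((m + D) * (m + D * σ ^ 2)) := by gcongr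
      _ = (s * m) * (s * (m + D)) + (s ^ 2 * (m + D) * D) * σ ^ 2 := by ring
      _ ≤ (s * m) * (m * (1 - s) ^ 2) + (m ^ 2 * (1 - s) ^ 3) * σ ^ 2 := by gcongr
      _ = m ^ 2 * (1 - s) ^ 2 * (s + σ ^ 2 * (1 - s)) := by ring
      _ = (m * (1 - s) * k) ^ 2 := by rw [← hkk]; ring
  have h1s : 0 < 1 - s := by linarith
  have h7 : s * (m + D * σ) ≤ m * (1 - s) * k :=
    (pow_le_pow_iff_left₀ (by positivity) (by positivity) two_ne_zero).1 h6
  have ha0 : 0 < a := by linarith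
  have h8 : m * (s * b) ≤ m * ((1 - s) * a * k) := by
    calc m * (s * b) ≤ m * (s * (a + D * σ)) := by gcongr
      _ = s * (m * a) + s * (m * (D * σ)) := by ring
      _ ≤ s * (m * a) + s * (a * (D * σ)) := by gcongr
      _ = a * (s * (m + D * σ)) := by ring
      _ ≤ a * (m * (1 - s) * k) := by gcongr
      _ = _ := by ring
  exact le_of_mul_le_mul_left h8 hm

/-- Variation of the real quadratic form of an operator. -/
theorem form_diff {A : E →L[ℂ] E} {m M : ℝ}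
    (hmA : ∀ z, m * ‖z‖ ^ 2 ≤ (inner ℂ z (A z)).re) (hMA : ∀ z, (inner ℂ z (A z)).re ≤ M * ‖z‖ ^ 2)
    {u w : E} (hu : ‖u‖ = 1) (hw : ‖w‖ = 1) {c : ℝ} (huw : inner ℂ u w = (c : ℂ)) (hc0 : 0 ≤ c)
    {σ : ℝ} (hσ : 0 ≤ σ) (hσ2 : σ ^ 2 = 1 - c ^ 2) :
    (inner ℂ w (A w)).re ≤ (inner ℂ u (A u)).re + (M - m) * σ := by
  have hwu : inner ℂ w u = (c : ℂ) := by
    rw [← inner_conj_symm, huw, Complex.conj_ofReal]
  have n1 : ‖w - u‖ ^ 2 = 2 - 2 * c := by
    rw [@norm_sub_sq ℂ, hwu, hu, hw]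
    simp
    ring
  have n2 : ‖w + u‖ ^ 2 = 2 + 2 * c := by
    rw [@norm_add_sq ℂ, hwu, hu, hw]
    simp
    ring
  rcases hσ.eq_or_lt with h0 | h0
  · have hc : c = 1 := by
      rw [← h0] at hσ2
      nlinarith
    rw [hc] at n1
    have : ‖w - u‖ = 0 := by
      have : ‖w - u‖ ^ 2 = 0 := by rw [n1]; ring
      exact pow_eq_zero_iff two_ne_zero |>.1 this
    have hwu' : w = u := sub_eq_zero.1 (norm_eq_zero.1 this)
    rw [hwu', ← h0]
    simp
  · have hc1 : c < 1 := by nlinarith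
    set α : ℝ := Real.sqrt (1 + c) with hα
    set β : ℝ := Real.sqrt (1 - c) with hβ
    have ha2 : α ^ 2 = 1 + c := Real.sq_sqrt (by linarith)
    have hb2 : β ^ 2 = 1 - c := Real.sq_sqrt (by linarith)
    have hα0 : 0 ≤ α := Real.sqrt_nonneg _
    have hβ0 : 0 ≤ β := Real.sqrt_nonneg _
    have hab : α * β = σ := by
      have : (α * β) ^ 2 = σ ^ 2 := by rw [mul_pow, ha2, hb2, hσ2]; ring
      exact (pow_left_inj₀ (by positivity) hσ two_ne_zero).1 this
    set x : E := (α : ℂ) • (w - u) with hx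
    set y : E := (β : ℂ) • (w + u) with hy
    have e1 : (inner ℂ (x + y) (A (x + y))).re - (inner ℂ (x - y) (A (x - y))).re =
        2 * ((inner ℂ x (A y)).re + (inner ℂ y (A x)).re) := by
      simp only [map_add, map_sub, inner_add_left, inner_add_right, inner_sub_left,
        inner_sub_right, Complex.add_re, Complex.sub_re]
      ring
    have e2 : (inner ℂ x (A y)).re + (inner ℂ y (A x)).re =
        2 * (σ * ((inner ℂ w (A w)).re - (inner ℂ u (A u)).re)) := by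
      have t1 : inner ℂ x (A y) = ((α * β : ℝ) : ℂ) * inner ℂ (w - u) (A (w + u)) := by
        rw [hx, hy, map_smul, inner_smul_left, inner_smul_right, Complex.conj_ofReal]
        push_cast
        ring
      have t2 : inner ℂ y (A x) = ((α * β : ℝ) : ℂ) * inner ℂ (w + u) (A (w - u)) := by
        rw [hx, hy, map_smul, inner_smul_left, inner_smul_right, Complex.conj_ofReal]
        push_cast
        ring
      rw [t1, t2, hab, Complex.re_ofReal_mul, Complex.re_ofReal_mul]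
      simp only [map_add, map_sub, inner_add_right, inner_sub_right, inner_sub_left,
        inner_add_left, Complex.add_re, Complex.sub_re]
      ring
    have hxy : (inner ℂ x y).re = 0 := by
      have : inner ℂ x y = ((α * β : ℝ) : ℂ) * inner ℂ (w - u) (w + u) := by
        rw [hx, hy, inner_smul_left, inner_smul_right, Complex.conj_ofReal]
        push_cast
        ring
      rw [this, Complex.re_ofReal_mul]
      have h9 : (inner ℂ (w - u) (w + u)).re = 0 := by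
        simp only [inner_add_right, inner_sub_left, Complex.add_re, Complex.sub_re, hwu, huw,
          inner_self_eq_norm_sq_to_K, hu, hw]
        simp
      rw [h9, mul_zero]
    have nx : ‖x‖ ^ 2 = (1 + c) * (2 - 2 * c) := by
      rw [hx, norm_smul, mul_pow, n1, Complex.norm_real, Real.norm_of_nonneg hα0, ha2]
    have ny : ‖y‖ ^ 2 = (1 - c) * (2 + 2 * c) := by
      rw [hy, norm_smul, mul_pow, n2, Complex.norm_real, Real.norm_of_nonneg hβ0, hb2]
    have n3 : ‖x + y‖ ^ 2 = 4 * σ ^ 2 := by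
      rw [@norm_add_sq ℂ, nx, ny, hσ2, RCLike.re_eq_complex_re, hxy]; ring
    have n4 : ‖x - y‖ ^ 2 = 4 * σ ^ 2 := by
      rw [@norm_sub_sq ℂ, nx, ny, hσ2, RCLike.re_eq_complex_re, hxy]; ring
    have k1 := hMA (x + y)
    have k2 := hmA (x - y)
    rw [n3] at k1
    rw [n4] at k2
    have k3 : 4 * (σ * ((inner ℂ w (A w)).re - (inner ℂ u (A u)).re)) ≤ (M - m) * (4 * σ ^ 2) := by
      linarith
    have k4 : σ * ((inner ℂ w (A w)).re - (inner ℂ u (A u)).re) ≤ σ * ((M - m) * σ) := by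
      nlinarith
    have := le_of_mul_le_mul_left k4 h0
    linarith

/-- A unimodular number turning `z` into `‖z‖`. -/
theorem exists_phase (z : ℂ) : ∃ l : ℂ, ‖l‖ = 1 ∧ z = (‖z‖ : ℂ) * l := by
  rcases eq_or_ne z 0 with h | h
  · exact ⟨1, by simp, by simp [h]⟩
  · refine ⟨z / (‖z‖ : ℂ), ?_, ?_⟩
    · rw [norm_div, Complex.norm_real, norm_norm, div_self (norm_pos_iff.2 h).ne']
    · have : (‖z‖ : ℂ) ≠ 0 := by exact_mod_cast (norm_pos_iff.2 h).ne'
      field_simp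

variable [CompleteSpace E]

/-- Sharp bound for the second order term in the class `N_A`. -/
theorem inner_tc_two_le {A : E →L[ℂ] E} {h : E → E} (hd : DifferentiableOn ℂ h (ball 0 1))
    (h0 : h 0 = 0) (h1 : fderiv ℂ h 0 = A)
    (hpos : ∀ z ∈ ball (0 : E) 1, 0 ≤ (inner ℂ z (h z)).re)
    {m M s : ℝ} (hm : 0 < m) (hmM : m ≤ M)
    (hmA : ∀ z, m * ‖z‖ ^ 2 ≤ (inner ℂ z (A z)).re) (hMA : ∀ z, (inner ℂ z (A z)).re ≤ M * ‖z‖ ^ 2)
    (hs0 : 0 < s) (hs : (M - m) * s ^ 2 + (2 * m + M) * s = m) {u w₀ : E}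
    (hu : ‖u‖ = 1) (hw₀ : ‖w₀‖ = 1) :
    Real.sqrt s * (1 - s) * ‖inner ℂ w₀ (tc 2 (fun t : ℂ => h (t • u)))‖ ≤
      (1 - s) * (inner ℂ u (A u)).re + s * (inner ℂ w₀ (A w₀)).re := by
  have hs1 : s < 1 := by nlinarith [sq_nonneg s, mul_nonneg (sub_nonneg.2 hmM) (sq_nonneg s)]
  set P : E := tc 2 (fun t : ℂ => h (t • u)) with hP
  set p : ℂ := inner ℂ w₀ P with hp
  set c₀ : ℂ := inner ℂ u w₀ with hc₀
  obtain ⟨φ, hφ1, hφ⟩ := exists_phase c₀
  obtain ⟨ψ, hψ1, hψ⟩ := exists_phase p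
  have unim : ∀ l : ℂ, ‖l‖ = 1 → (starRingEnd ℂ) l * l = 1 := by
    intro l hl
    rw [mul_comm, Complex.mul_conj, Complex.normSq_eq_norm_sq, hl]; simp
  set c : ℝ := ‖c₀‖ with hc
  have hc0 : 0 ≤ c := norm_nonneg _
  have hc1 : c ≤ 1 := by
    have := norm_inner_le_norm (𝕜 := ℂ) u w₀
    rwa [hu, hw₀, one_mul] at this
  set l : ℂ := (starRingEnd ℂ) (φ * ψ) with hl
  have hl1 : ‖l‖ = 1 := by rw [hl, Complex.norm_conj, norm_mul, hφ1, hψ1, one_mul]
  set k : ℂ := l * (starRingEnd ℂ) φ with hk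
  have hk1 : ‖k‖ = 1 := by rw [hk, norm_mul, hl1, Complex.norm_conj, hφ1, one_mul]
  set u' : E := l • u with hu'
  have hu'n : ‖u'‖ = 1 := by rw [hu', norm_smul, hl1, hu, one_mul]
  set w : E := k • w₀ with hw
  have hwn : ‖w‖ = 1 := by rw [hw, norm_smul, hk1, hw₀, one_mul]
  have hu'w : inner ℂ u' w = (c : ℂ) := by
    rw [hu', hw, inner_smul_left, inner_smul_right, ← hc₀, hφ, hk]
    calc (starRingEnd ℂ) l * (l * (starRingEnd ℂ) φ * ((c : ℂ) * φ))
        = ((starRingEnd ℂ) l * l) * ((starRingEnd ℂ) φ * φ) * c := by ring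
      _ = c := by rw [unim l hl1, unim φ hφ1]; ring
  have hauA : inner ℂ u' (A u') = inner ℂ u (A u) := by
    rw [hu', map_smul, inner_smul_left, inner_smul_right, ← mul_assoc, unim l hl1, one_mul]
  have hawA : inner ℂ w (A w) = inner ℂ w₀ (A w₀) := by
    rw [hw, map_smul, inner_smul_left, inner_smul_right, ← mul_assoc, unim k hk1, one_mul]
  -- parameters
  set t : ℝ := c ^ 2 with ht
  have ht0 : 0 ≤ t := by positivity
  have ht1 : t ≤ 1 := by rw [ht]; nlinarith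
  have h1s : 0 < 1 - s := by linarith
  have hDp : 0 < 1 - t * (1 - s) := by nlinarith
  set κ : ℝ := Real.sqrt (1 - t * (1 - s)) with hκ
  have hκ2 : κ ^ 2 = 1 - t * (1 - s) := Real.sq_sqrt hDp.le
  have hκ0 : 0 < κ := Real.sqrt_pos.2 hDp
  have hκ1 : κ ≤ 1 := by
    rw [hκ, Real.sqrt_le_one]
    have : 0 ≤ t * (1 - s) := by positivity
    linarith
  set g : ℝ := Real.sqrt s with hg
  have hg2 : g ^ 2 = s := Real.sq_sqrt hs0.le
  have hg0 : 0 < g := Real.sqrt_pos.2 hs0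
  set x : ℝ := g / κ with hx
  set y : ℝ := Real.sqrt (1 - s) with hy
  have hx2 : x ^ 2 = s / κ ^ 2 := by rw [hx, div_pow, hg2]
  have hy2 : y ^ 2 = 1 - s := Real.sq_sqrt h1s.le
  have hx0 : 0 < x := div_pos hg0 hκ0
  have hy0 : 0 < y := Real.sqrt_pos.2 h1s
  have hy1 : y ≤ 1 := by
    rw [hy, Real.sqrt_le_one]; linarith
  have hXD : x ^ 2 * (1 - t * (1 - s)) = s := by
    rw [hx2, ← hκ2, div_mul_cancel₀ _ (by positivity)]
  set ρ : ℝ := x * y * c with hρ
  have hρ0 : 0 ≤ ρ := by positivity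
  have hρ2 : ρ ^ 2 = t * x ^ 2 * (1 - s) := by
    rw [hρ, mul_pow, mul_pow, hy2, ht]; ring
  have e1 : x ^ 2 + y ^ 2 = 1 + ρ ^ 2 := by rw [hy2, hρ2]; linarith
  have hx1 : x ^ 2 ≤ 1 := by
    have : x ^ 2 * (1 - t * (1 - s)) ≤ 1 * (1 - t * (1 - s)) := by rw [hXD]; nlinarith
    exact le_of_mul_le_mul_right this hDp
  have hρ1 : ρ < 1 := by
    have h5 : ρ ^ 2 < 1 := by
      rw [hρ2]
      calc t * x ^ 2 * (1 - s) ≤ 1 * 1 * (1 - s) := by gcongr
        _ < 1 := by linarith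
    nlinarith
  -- dilations of `h`
  have hr : ∀ r : ℝ, 0 < r → r < 1 → x * y ^ 2 * (r * ‖p‖) ≤
      y ^ 2 * (inner ℂ u (A u)).re + x ^ 2 * (inner ℂ w₀ (A w₀)).re := by
    intro r hr0 hr1
    have hrc : (r : ℂ) ≠ 0 := by exact_mod_cast hr0.ne'
    set g : E → E := fun z => ((r : ℂ)⁻¹) • h ((r : ℂ) • z) with hg
    have hmap : ∀ z ∈ ball (0 : E) (r⁻¹), (r : ℂ) • z ∈ ball (0 : E) 1 := by
      intro z hz
      rw [mem_ball_zero_iff] at *
      rw [norm_smul, Complex.norm_real, Real.norm_of_nonneg hr0.le]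
      calc r * ‖z‖ < r * r⁻¹ := by gcongr
        _ = 1 := mul_inv_cancel₀ hr0.ne'
    have hgd : DifferentiableOn ℂ g (ball 0 (r⁻¹)) := by
      intro z hz
      have h2 : DifferentiableAt ℂ h ((r : ℂ) • z) :=
        hd.differentiableAt (isOpen_ball.mem_nhds (hmap z hz))
      have h3 : DifferentiableAt ℂ (fun z : E => (r : ℂ) • z) z := by fun_prop
      exact ((h2.comp z h3).const_smul ((r : ℂ)⁻¹)).differentiableWithinAt
    have hg0 : g 0 = 0 := by simp [hg, h0]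
    have hg1 : fderiv ℂ g 0 = A := by
      have h2 : HasFDerivAt h A ((r : ℂ) • (0 : E)) := by
        rw [smul_zero, ← h1]
        exact (hd.differentiableAt (ball_mem_nhds _ one_pos)).hasFDerivAt
      have h3 : HasFDerivAt (fun z : E => (r : ℂ) • z) ((r : ℂ) • ContinuousLinearMap.id ℂ E) 0 :=
        (hasFDerivAt_id (0 : E)).const_smul (r : ℂ)
      have h4 := (h2.comp (0 : E) h3).const_smul ((r : ℂ)⁻¹)
      rw [show g = (r : ℂ)⁻¹ • (h ∘ fun z : E => (r : ℂ) • z) from rfl, h4.fderiv]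
      ext z
      change (r : ℂ)⁻¹ • A ((r : ℂ) • z) = A z
      rw [map_smul, smul_smul, inv_mul_cancel₀ hrc, one_smul]
    have hgpos : ∀ z, ‖z‖ ≤ 1 → 0 ≤ (inner ℂ z (g z)).re := by
      intro z hz
      have hzb : z ∈ ball (0 : E) (r⁻¹) := by
        rw [mem_ball_zero_iff]
        exact hz.trans_lt ((one_lt_inv₀ hr0).2 hr1)
      have h2 := hpos _ (hmap z hzb)
      have h3 : inner ℂ z (g z) = ((r⁻¹ * r⁻¹ : ℝ) : ℂ) * inner ℂ ((r : ℂ) • z) (h ((r : ℂ) • z)) := by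
        rw [hg, inner_smul_right, inner_smul_left, Complex.conj_ofReal]
        push_cast
        field_simp
      rw [h3, Complex.re_ofReal_mul]
      positivity
    have key := key_ineq_gen (R₁ := r⁻¹) ((one_lt_inv₀ hr0).2 hr1) hgd hg0 hg1 hgpos
      (le_refl 2) hu'n hwn hu'w hy0.le hy1 hρ0 hρ1 e1 rfl
    rw [hauA, hawA] at key
    have hs1 : DifferentiableOn ℂ (fun t : ℂ => h (t • u)) (ball 0 1) := by
      intro ζ hζ
      have hζ' : ‖ζ‖ < 1 := by simpa using hζ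
      have h2 : ζ • u ∈ ball (0 : E) 1 := by
        rw [mem_ball_zero_iff, norm_smul, hu, mul_one]
        linarith
      have h3 : DifferentiableAt ℂ (fun ζ : ℂ => ζ • u) ζ := by fun_prop
      exact ((hd.differentiableAt (isOpen_ball.mem_nhds h2)).comp ζ h3).differentiableWithinAt
    have htc : tc 2 (fun t : ℂ => g (t • u')) = ((r : ℂ)⁻¹ * (r * l) ^ 2) • P := by
      have h5 : (fun t : ℂ => g (t • u')) =
          fun t : ℂ => ((r : ℂ)⁻¹) • (fun s : ℂ => h (s • u)) (t • ((r : ℂ) * l)) := by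
        ext1 t
        simp only [hg, hu', smul_smul, smul_eq_mul]
        congr 3
        ring
      have h6 := tc_comp_smul one_pos hs1 2 ((r : ℂ) * l)
      have h7 : DifferentiableOn ℂ (fun t : ℂ => (fun s : ℂ => h (s • u)) (t • ((r : ℂ) * l)))
          (ball 0 1) := by
        intro ζ hζ
        have hζ' : ‖ζ‖ < 1 := by simpa using hζ
        have h2 : ζ • ((r : ℂ) * l) ∈ ball (0 : ℂ) 1 := by
          rw [mem_ball_zero_iff, norm_smul, norm_mul, hl1, mul_one, Complex.norm_real,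
            Real.norm_of_nonneg hr0.le]
          nlinarith [norm_nonneg ζ]
        have h3 : DifferentiableAt ℂ (fun ζ : ℂ => ζ • ((r : ℂ) * l)) ζ := by fun_prop
        exact ((hs1.differentiableAt (isOpen_ball.mem_nhds h2)).comp ζ h3).differentiableWithinAt
      have h8 := tc_clm ((r : ℂ)⁻¹ • ContinuousLinearMap.id ℂ E) 2 (contDiffAt_of_ball one_pos h7 2)
      rw [h5]
      simp only [FunLike.coe_smul, Pi.smul_apply, ContinuousLinearMap.id_apply] at h8
      rw [h8, h6, smul_smul]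
    rw [htc, inner_smul_right] at key
    have h9 : (r : ℂ)⁻¹ * (r * l) ^ 2 * inner ℂ w P = ((r * ‖p‖ : ℝ) : ℂ) := by
      have e4 : inner ℂ w P = (starRingEnd ℂ) l * φ * ((‖p‖ : ℂ) * ψ) := by
        rw [← hψ, hw, inner_smul_left, ← hp, hk]
        simp only [map_mul, Complex.conj_conj]
      rw [e4]
      have e3 : l * (φ * ψ) = 1 := by
        rw [hl]; exact unim _ (by rw [norm_mul, hφ1, hψ1, one_mul])
      calc (r : ℂ)⁻¹ * (r * l) ^ 2 * ((starRingEnd ℂ) l * φ * ((‖p‖ : ℂ) * ψ))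
          = ((r : ℂ)⁻¹ * r) * r * (((starRingEnd ℂ) l * l) * (l * (φ * ψ))) * ‖p‖ := by ring
        _ = ((r * ‖p‖ : ℝ) : ℂ) := by
          rw [unim l hl1, e3, inv_mul_cancel₀ hrc]; push_cast; ring
    rw [h9, Complex.ofReal_re] at key
    exact key
  have hlim : x * y ^ 2 * ‖p‖ ≤
      y ^ 2 * (inner ℂ u (A u)).re + x ^ 2 * (inner ℂ w₀ (A w₀)).re := by
    have hl2 : Tendsto (fun r : ℝ => x * y ^ 2 * (r * ‖p‖)) (𝓝[<] 1)
        (𝓝 (x * y ^ 2 * ((1 : ℝ) * ‖p‖))) := by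
      apply Tendsto.mono_left _ nhdsWithin_le_nhds
      apply Continuous.tendsto
      fun_prop
    rw [one_mul] at hl2
    refine le_of_tendsto hl2 ?_
    filter_upwards [Ioo_mem_nhdsLT (zero_lt_one (α := ℝ))] with r hr'
    exact hr r hr'.1 hr'.2
  -- conclusion
  set a : ℝ := (inner ℂ u (A u)).re with ha
  set b : ℝ := (inner ℂ w₀ (A w₀)).re with hb
  set σ : ℝ := Real.sqrt (1 - t) with hσ
  have hσ0 : 0 ≤ σ := Real.sqrt_nonneg _
  have hσ2 : σ ^ 2 = 1 - t := Real.sq_sqrt (by linarith)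
  have hdiff : b ≤ a + (M - m) * σ := by
    have := form_diff hmA hMA hu'n hwn hu'w hc0 hσ0 (by rw [hσ2])
    rwa [hauA, hawA] at this
  have ham : m ≤ a := by
    have := hmA u
    rwa [hu, one_pow, mul_one] at this
  have hpar := par_ineq hm (sub_nonneg.2 hmM) hs0 hs1 (by linarith) ham hdiff hσ0 hσ2 hκ0 hκ2
  have h10 : κ * (g * (1 - s) * ‖p‖) ≤ κ * ((1 - s) * a + s * b) := by
    have h11 : κ ^ 2 * (x * y ^ 2 * ‖p‖) ≤ κ ^ 2 * (y ^ 2 * a + x ^ 2 * b) := by gcongr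
    have h12 : κ ^ 2 * (x * y ^ 2 * ‖p‖) = κ * (g * (1 - s) * ‖p‖) := by
      rw [hy2, hx]; field_simp
    have h13 : κ ^ 2 * (y ^ 2 * a + x ^ 2 * b) = κ ^ 2 * (1 - s) * a + s * b := by
      rw [hy2, hx2]; field_simp
    rw [h12, h13] at h11
    nlinarith [mul_nonneg (sub_nonneg.2 hκ1) (sub_nonneg.2 hpar)]
  exact le_of_mul_le_mul_left h10 hκ0

end GenBound

end Pool.Agent.Helper342.Par
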