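import Mathlib
import Pool.Agent.Helper342.Par.GenBound

set_option autoImplicit false

namespace Pool.Agent.Helper342.Par

open Metric Set Filter Topology MeasureTheory

section GenCara

variable {E : Type*} [NormedAddCommGroup E] [InnerProductSpace ℂ E]

/-- Operators with real quadratic form between `m` and `M`, `0 < m`. -/
structure Adm (A : E →L[ℂ] E) (m M : ℝ) : Prop where
  pos : 0 < m
  mM : m ≤ M
  ge : ∀ z, m * ‖z‖ ^ 2 ≤ (inner ℂ z (A z)).re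
  le : ∀ z, (inner ℂ z (A z)).re ≤ M * ‖z‖ ^ 2

theorem Adm.M_pos {A : E →L[ℂ] E} {m M : ℝ} (hA : Adm A m M) : 0 < M := hA.pos.trans_le hA.mM

/-- The class `N_A`. -/
structure CaraA (A : E →L[ℂ] E) (h : E → E) : Prop where
  diff : DifferentiableOn ℂ h (ball 0 1)
  zero : h 0 = 0
  fder : fderiv ℂ h 0 = A
  pos : ∀ z ∈ ball (0 : E) 1, z ≠ 0 → 0 < (inner ℂ z (h z)).re

/-- The slice function of a Caratheodory map. -/
theorem CaraA.slice {A : E →L[ℂ] E} {m M : ℝ} (hA : Adm A m M) {h : E → E} (hh : CaraA A h) {u : E} (hu : ‖u‖ = 1) :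
    ∃ p : ℂ → ℂ, DifferentiableOn ℂ p (ball 0 1) ∧ p 0 = inner ℂ u (A u) ∧
      (∀ ζ ∈ ball (0 : ℂ) 1, 0 < (p ζ).re) ∧
      ∀ ζ ∈ ball (0 : ℂ) 1, inner ℂ (ζ • u) (h (ζ • u)) = (‖ζ‖ ^ 2 : ℝ) * p ζ := by
  set F : ℂ → ℂ := fun ζ => inner ℂ u (h (ζ • u)) with hF
  have hmem : ∀ ζ ∈ ball (0 : ℂ) 1, ζ • u ∈ ball (0 : E) 1 := by
    intro ζ hζ
    rw [mem_ball_zero_iff] at *
    rw [norm_smul, hu, mul_one]
    exact hζ
  have hFd : DifferentiableOn ℂ F (ball 0 1) := by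
    have h1 : DifferentiableOn ℂ (fun ζ : ℂ => h (ζ • u)) (ball 0 1) :=
      hh.diff.comp (by fun_prop) hmem
    exact (innerSL ℂ u).differentiable.comp_differentiableOn h1
  have hF0 : F 0 = 0 := by simp [hF, hh.zero]
  have hFder : deriv F 0 = inner ℂ u (A u) := by
    have h1 : HasFDerivAt h A ((0 : ℂ) • u) := by
      rw [zero_smul, ← hh.fder]
      exact (hh.diff.differentiableAt (ball_mem_nhds _ one_pos)).hasFDerivAt
    have h2 : HasDerivAt (fun ζ : ℂ => ζ • u) ((1 : ℂ) • u) 0 :=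
      (hasDerivAt_id (0 : ℂ)).smul_const u
    have h3 := h1.comp_hasDerivAt 0 h2
    have h4 := (innerSL ℂ u).hasFDerivAt.comp_hasDerivAt 0 h3
    have h5 : HasDerivAt F ((innerSL ℂ u) (A ((1 : ℂ) • u))) 0 := h4
    rw [h5.deriv]
    simp
  have hpd : DifferentiableOn ℂ (dslope F 0) (ball 0 1) :=
    (Complex.differentiableOn_dslope (ball_mem_nhds _ one_pos)).2 hFd
  have hp0 : dslope F 0 0 = inner ℂ u (A u) := by rw [dslope_same, hFder]
  have hmul : ∀ ζ, ζ * dslope F 0 ζ = F ζ := by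
    intro ζ
    have := sub_smul_dslope F 0 ζ
    simpa [hF0] using this
  have hfor : ∀ ζ ∈ ball (0 : ℂ) 1,
      inner ℂ (ζ • u) (h (ζ • u)) = (‖ζ‖ ^ 2 : ℝ) * dslope F 0 ζ := by
    intro ζ _
    rw [inner_smul_left]
    have : (starRingEnd ℂ) ζ * inner ℂ u (h (ζ • u)) = (starRingEnd ℂ) ζ * (ζ * dslope F 0 ζ) := by
      rw [hmul]
    rw [this, ← mul_assoc, mul_comm ((starRingEnd ℂ) ζ), Complex.mul_conj,
      Complex.normSq_eq_norm_sq]
  refine ⟨dslope F 0, hpd, hp0, ?_, hfor⟩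
  intro ζ hζ
  rcases eq_or_ne ζ 0 with h0 | h0
  · rw [h0, hp0]
    have h1 := hA.ge u
    rw [hu, one_pow, mul_one] at h1
    exact hA.pos.trans_le h1
  · have hne : ζ • u ≠ 0 := by
      have : u ≠ 0 := by
        intro h
        rw [h, norm_zero] at hu
        norm_num at hu
      exact smul_ne_zero h0 this
    have h1 := hh.pos _ (hmem ζ hζ) hne
    rw [hfor ζ hζ, Complex.re_ofReal_mul] at h1
    have h2 : 0 < ‖ζ‖ ^ 2 := by positivity
    exact (mul_pos_iff_of_pos_left h2).1 h1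

/-- Two sided estimate of the real part. -/
theorem CaraA.re_inner_ge {A : E →L[ℂ] E} {m M : ℝ} (hA : Adm A m M) {h : E → E}
    (hh : CaraA A h) {z : E} (hz : ‖z‖ < 1) :
    m * (‖z‖ ^ 2 * ((1 - ‖z‖) / (1 + ‖z‖))) ≤ (inner ℂ z (h z)).re ∧
      ‖inner ℂ z (h z)‖ ≤ (M + ‖A‖) * (‖z‖ ^ 2 * ((1 + ‖z‖) / (1 - ‖z‖))) := by
  rcases eq_or_ne z 0 with h0 | h0
  · simp [h0]
  have hzp : 0 < ‖z‖ := norm_pos_iff.2 h0
  set u : E := ((‖z‖ : ℂ)⁻¹) • z with hu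
  have hun : ‖u‖ = 1 := by
    rw [hu, norm_smul, norm_inv, Complex.norm_real, norm_norm, inv_mul_cancel₀ hzp.ne']
  have hzu : (‖z‖ : ℂ) • u = z := by
    rw [hu, smul_smul, mul_inv_cancel₀, one_smul]
    exact_mod_cast hzp.ne'
  obtain ⟨p, hpd, hp0, hpre, hp⟩ := hh.slice hA hun
  set a : ℝ := (inner ℂ u (A u)).re with ha
  have hma : m ≤ a := by
    have := hA.ge u
    rwa [hun, one_pow, mul_one] at this
  have haM : a ≤ M := by
    have := hA.le u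
    rwa [hun, one_pow, mul_one] at this
  have ha0 : 0 < a := hA.pos.trans_le hma
  have hac : (a : ℂ) ≠ 0 := by exact_mod_cast ha0.ne'
  have hn : ‖(‖z‖ : ℂ)‖ = ‖z‖ := by simp
  have hm : (‖z‖ : ℂ) ∈ ball (0 : ℂ) 1 := by rw [mem_ball_zero_iff, hn]; exact hz
  set β : ℝ := (inner ℂ u (A u)).im with hβ
  have hβA : |β| ≤ ‖A‖ := by
    refine (Complex.abs_im_le_norm _).trans ((norm_inner_le_norm (𝕜 := ℂ) _ _).trans ?_)
    have := A.le_opNorm u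
    rw [hun, mul_one] at this
    rw [hun, one_mul]
    exact this
  have hin : inner ℂ u (A u) = (a : ℂ) + (β : ℂ) * Complex.I := (Complex.re_add_im _).symm
  have hIre : ((β : ℂ) * Complex.I).re = 0 := by simp
  have hb := herglotz_bounds (p := fun ζ => ((a⁻¹ : ℝ) : ℂ) * (p ζ - (β : ℂ) * Complex.I))
    ((hpd.sub_const _).const_mul _)
    (by
      change ((a⁻¹ : ℝ) : ℂ) * (p 0 - (β : ℂ) * Complex.I) = 1
      rw [hp0, hin, add_sub_cancel_right]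
      push_cast
      exact inv_mul_cancel₀ hac)
    (fun ζ hζ => by
      rw [Complex.re_ofReal_mul, Complex.sub_re, hIre, sub_zero]
      exact mul_pos (inv_pos.2 ha0) (hpre ζ hζ)) (ζ := (‖z‖ : ℂ)) (by rw [hn]; exact hz)
  have h1 := hp _ hm
  rw [hzu, hn] at h1
  rw [hn] at hb
  rw [h1]
  obtain ⟨hb1, hb2⟩ := hb
  rw [Complex.re_ofReal_mul, Complex.sub_re, hIre, sub_zero] at hb1
  rw [norm_mul, Complex.norm_real, Real.norm_of_nonneg (by positivity)] at hb2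
  have h1z : 0 < 1 - ‖z‖ := by linarith
  constructor
  · rw [Complex.re_ofReal_mul]
    have h5 : a * ((1 - ‖z‖) / (1 + ‖z‖)) ≤ (p (‖z‖ : ℂ)).re := by
      calc a * ((1 - ‖z‖) / (1 + ‖z‖)) ≤ a * (a⁻¹ * (p (‖z‖ : ℂ)).re) := by gcongr
        _ = _ := by field_simp
    calc m * (‖z‖ ^ 2 * ((1 - ‖z‖) / (1 + ‖z‖))) ≤ a * (‖z‖ ^ 2 * ((1 - ‖z‖) / (1 + ‖z‖))) := by
          apply mul_le_mul_of_nonneg_right hma; positivity
      _ = ‖z‖ ^ 2 * (a * ((1 - ‖z‖) / (1 + ‖z‖))) := by ring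
      _ ≤ _ := by gcongr
  · rw [norm_mul, Complex.norm_real, Real.norm_of_nonneg (by positivity)]
    have h5 : ‖p (‖z‖ : ℂ) - (β : ℂ) * Complex.I‖ ≤ a * ((1 + ‖z‖) / (1 - ‖z‖)) := by
      calc ‖p (‖z‖ : ℂ) - (β : ℂ) * Complex.I‖ =
          a * (a⁻¹ * ‖p (‖z‖ : ℂ) - (β : ℂ) * Complex.I‖) := by field_simp
        _ ≤ _ := by gcongr
    have h6 : ‖p (‖z‖ : ℂ)‖ ≤ (M + ‖A‖) * ((1 + ‖z‖) / (1 - ‖z‖)) := by
      have h7 : ‖(β : ℂ) * Complex.I‖ = |β| := by simp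
      have h8 : (1 : ℝ) ≤ (1 + ‖z‖) / (1 - ‖z‖) := by
        rw [le_div_iff₀ h1z]; linarith
      calc ‖p (‖z‖ : ℂ)‖ = ‖(p (‖z‖ : ℂ) - (β : ℂ) * Complex.I) + (β : ℂ) * Complex.I‖ := by
            rw [sub_add_cancel]
        _ ≤ a * ((1 + ‖z‖) / (1 - ‖z‖)) + ‖A‖ := by
            refine (norm_add_le _ _).trans ?_
            rw [h7]
            exact add_le_add h5 hβA
        _ ≤ M * ((1 + ‖z‖) / (1 - ‖z‖)) + ‖A‖ * ((1 + ‖z‖) / (1 - ‖z‖)) := by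
            apply add_le_add
            · apply mul_le_mul_of_nonneg_right haM; positivity
            · exact le_mul_of_one_le_right (norm_nonneg _) h8
        _ = _ := by ring
    calc ‖z‖ ^ 2 * ‖p (‖z‖ : ℂ)‖ ≤ ‖z‖ ^ 2 * ((M + ‖A‖) * ((1 + ‖z‖) / (1 - ‖z‖))) := by gcongr
      _ = _ := by ring

theorem CaraA.re_inner_nonneg {A : E →L[ℂ] E} {m M : ℝ} (hA : Adm A m M) {h : E → E}
    (hh : CaraA A h) {z : E} (hz : ‖z‖ < 1) : 0 ≤ (inner ℂ z (h z)).re :=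
  le_trans (by
    have := norm_nonneg z
    have : 0 ≤ 1 - ‖z‖ := by linarith
    have := hA.pos
    positivity) (hh.re_inner_ge hA hz).1

/-- A uniform bound on compact subballs. -/
theorem CaraA.norm_le {A : E →L[ℂ] E} {m M : ℝ} (hA : Adm A m M) {h : E → E} (hh : CaraA A h) {R ρ : ℝ} (hR : 0 ≤ R) (hρ : 0 < ρ)
    (hRρ : R + ρ < 1) {z : E} (hz : ‖z‖ ≤ R) :
    ‖h z‖ ≤ ρ⁻¹ * ((M + ‖A‖) * ((1 + (R + ρ)) / (1 - (R + ρ)))) := by
  have hMp : 0 < M + ‖A‖ := by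
    have := hA.M_pos
    positivity
  rcases eq_or_ne (h z) 0 with h0 | h0
  · rw [h0, norm_zero]
    have : 0 < 1 - (R + ρ) := by linarith
    positivity
  have hhp : 0 < ‖h z‖ := norm_pos_iff.2 h0
  set w : E := ((‖h z‖ : ℂ)⁻¹) • h z with hw
  have hwn : ‖w‖ = 1 := by
    rw [hw, norm_smul, norm_inv, Complex.norm_real, norm_norm, inv_mul_cancel₀ hhp.ne']
  have hwi : inner ℂ w (h z) = (‖h z‖ : ℂ) := by
    rw [hw, inner_smul_left, inner_self_eq_norm_sq_to_K, map_inv₀, Complex.conj_ofReal]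
    have : (‖h z‖ : ℂ) ≠ 0 := by exact_mod_cast hhp.ne'
    simp only [Complex.coe_algebraMap]
    field_simp
  -- the disc `ζ ↦ z + ζ w`, `|ζ| ≤ ρ`
  have hmem : ∀ ζ ∈ closedBall (0 : ℂ) ρ, ‖z + ζ • w‖ ≤ R + ρ := by
    intro ζ hζ
    have : ‖ζ‖ ≤ ρ := by simpa using hζ
    calc ‖z + ζ • w‖ ≤ ‖z‖ + ‖ζ • w‖ := norm_add_le _ _
      _ ≤ R + ρ := by rw [norm_smul, hwn, mul_one]; linarith
  have hd : DifferentiableOn ℂ (fun ζ : ℂ => h (z + ζ • w)) (closedBall 0 ρ) := by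
    apply hh.diff.comp (by fun_prop)
    intro ζ hζ
    rw [mem_ball_zero_iff]
    exact (hmem ζ hζ).trans_lt hRρ
  have hdin : ∀ p : E, DifferentiableOn ℂ (fun ζ : ℂ => inner ℂ p (h (z + ζ • w)))
      (closedBall 0 ρ) := fun p =>
    (innerSL ℂ p).differentiable.comp_differentiableOn hd
  have hcl : closure (ball (0 : ℂ) ρ) = closedBall 0 ρ := closure_ball _ hρ.ne'
  have hdc : ∀ p : E, DiffContOnCl ℂ (fun ζ : ℂ => inner ℂ p (h (z + ζ • w))) (ball 0 ρ) :=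
    fun p => DifferentiableOn.diffContOnCl (by rw [hcl]; exact hdin p)
  have a1 : Real.circleAverage (fun ζ : ℂ => inner ℂ w (h (z + ζ • w))) 0 ρ = (‖h z‖ : ℂ) := by
    have := DiffContOnCl.circleAverage (c := (0 : ℂ)) (R := ρ)
      (by rw [abs_of_pos hρ]; exact hdc w)
    rw [this]
    simpa using hwi
  have a2 : Real.circleAverage (fun ζ : ℂ => ζ * inner ℂ z (h (z + ζ • w))) 0 ρ = 0 := by
    have h2 : DiffContOnCl ℂ (fun ζ : ℂ => ζ * inner ℂ z (h (z + ζ • w))) (ball 0 ρ) :=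
      DifferentiableOn.diffContOnCl (by rw [hcl]; exact differentiableOn_id.mul (hdin z))
    have := DiffContOnCl.circleAverage (c := (0 : ℂ)) (R := ρ)
      (by rw [abs_of_pos hρ]; exact h2)
    rw [this]
    simp
  have hci : ∀ {f : ℂ → ℂ}, ContinuousOn f (closedBall 0 ρ) → CircleIntegrable f 0 ρ :=
    fun {f} hf => ContinuousOn.circleIntegrable hρ.le (hf.mono sphere_subset_closedBall)
  have i1 : CircleIntegrable (fun ζ : ℂ => inner ℂ w (h (z + ζ • w))) 0 ρ :=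
    hci (hdin w).continuousOn
  have i2 : CircleIntegrable (fun ζ : ℂ => ζ * inner ℂ z (h (z + ζ • w))) 0 ρ :=
    hci ((differentiableOn_id.mul (hdin z)).continuousOn)
  have i1' := i1.const_fun_smul (a := ((ρ ^ 2 : ℝ) : ℂ))
  have hsum : Real.circleAverage ((fun ζ : ℂ => ζ * inner ℂ z (h (z + ζ • w))) +
      fun ζ : ℂ => ((ρ ^ 2 : ℝ) : ℂ) • inner ℂ w (h (z + ζ • w))) 0 ρ =
      ((ρ ^ 2 * ‖h z‖ : ℝ) : ℂ) := by
    rw [Real.circleAverage_add i2 i1', Real.circleAverage_fun_smul, a1, a2]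
    simp
  have hbound : ∀ ζ ∈ sphere (0 : ℂ) ρ, ‖((fun ζ : ℂ => ζ * inner ℂ z (h (z + ζ • w))) +
      fun ζ : ℂ => ((ρ ^ 2 : ℝ) : ℂ) • inner ℂ w (h (z + ζ • w))) ζ‖ ≤
      ρ * ((M + ‖A‖) * ((1 + (R + ρ)) / (1 - (R + ρ)))) := by
    intro ζ hζ
    have hζn : ‖ζ‖ = ρ := by simpa using hζ
    have hζm : ζ ∈ closedBall (0 : ℂ) ρ := sphere_subset_closedBall hζ
    have hz1 := hmem ζ hζm
    have e1 : ((fun ζ : ℂ => ζ * inner ℂ z (h (z + ζ • w))) +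
        fun ζ : ℂ => ((ρ ^ 2 : ℝ) : ℂ) • inner ℂ w (h (z + ζ • w))) ζ =
        ζ * inner ℂ (z + ζ • w) (h (z + ζ • w)) := by
      have hc : ζ * (starRingEnd ℂ) ζ = ((ρ ^ 2 : ℝ) : ℂ) := by
        rw [Complex.mul_conj, Complex.normSq_eq_norm_sq, hζn]
      simp only [Pi.add_apply, inner_add_left, inner_smul_left, smul_eq_mul, ← hc]
      ring
    rw [e1, norm_mul, hζn]
    apply mul_le_mul_of_nonneg_left _ hρ.le
    refine (hh.re_inner_ge hA (hz1.trans_lt hRρ)).2.trans ?_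
    have h3 : 0 ≤ ‖z + ζ • w‖ := norm_nonneg _
    have h4 : 0 < 1 - (R + ρ) := by linarith
    calc (M + ‖A‖) * (‖z + ζ • w‖ ^ 2 * ((1 + ‖z + ζ • w‖) / (1 - ‖z + ζ • w‖)))
        ≤ (M + ‖A‖) * (1 * ((1 + (R + ρ)) / (1 - (R + ρ)))) := by
          apply mul_le_mul_of_nonneg_left _ hMp.le
          have h5 : ‖z + ζ • w‖ ^ 2 ≤ 1 := by nlinarith
          have h6 : 0 ≤ (1 + ‖z + ζ • w‖) / (1 - ‖z + ζ • w‖) :=
            div_nonneg (by linarith) (by linarith)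
          have h7 : (1 + ‖z + ζ • w‖) / (1 - ‖z + ζ • w‖) ≤ (1 + (R + ρ)) / (1 - (R + ρ)) := by
            apply div_le_div₀ <;> linarith
          exact mul_le_mul h5 h7 h6 zero_le_one
      _ = _ := by rw [one_mul]
  have hfin : ‖Real.circleAverage ((fun ζ : ℂ => ζ * inner ℂ z (h (z + ζ • w))) +
      fun ζ : ℂ => ((ρ ^ 2 : ℝ) : ℂ) • inner ℂ w (h (z + ζ • w))) 0 ρ‖ ≤
      ρ * ((M + ‖A‖) * ((1 + (R + ρ)) / (1 - (R + ρ)))) := by
    rw [Real.circleAverage]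
    have h8 := intervalIntegral.norm_integral_le_of_norm_le_const (a := 0) (b := 2 * Real.pi)
      (C := ρ * ((M + ‖A‖) * ((1 + (R + ρ)) / (1 - (R + ρ)))))
      (f := fun θ => ((fun ζ : ℂ => ζ * inner ℂ z (h (z + ζ • w))) +
      fun ζ : ℂ => ((ρ ^ 2 : ℝ) : ℂ) • inner ℂ w (h (z + ζ • w))) (circleMap 0 ρ θ))
      (fun θ _ => hbound _ (circleMap_mem_sphere _ hρ.le θ))
    rw [norm_smul, norm_inv, Real.norm_of_nonneg (by positivity)]
    rw [sub_zero, abs_of_pos (by positivity)] at h8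
    rw [inv_mul_le_iff₀ (by positivity)]
    linarith
  rw [hsum, Complex.norm_real, Real.norm_of_nonneg (by positivity)] at hfin
  rw [inv_mul_eq_div, le_div_iff₀ hρ]
  nlinarith

/-- Uniform second order estimate at the origin. -/
theorem CaraA.second_order {A : E →L[ℂ] E} {m M : ℝ} (hA : Adm A m M) {h : E → E}
    (hh : CaraA A h) {z : E} (hz : ‖z‖ < 1 / 4) : ‖h z - A z‖ ≤ 800 * (M + ‖A‖) * ‖z‖ ^ 2 := by
  have hb : ∀ w ∈ ball (0 : E) (1 / 4), ‖h w‖ ≤ 12 * (M + ‖A‖) := by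
    intro w hw
    have hw' : ‖w‖ < 1 / 4 := by simpa using hw
    have := hh.norm_le hA (R := 1 / 4) (ρ := 1 / 4) (by norm_num) (by norm_num) (by norm_num) hw'.le
    norm_num at this
    linarith
  have := norm_sub_sub_fderiv_le (by norm_num) (hh.diff.mono (ball_subset_ball (by norm_num))) hb
    (w := z) (by simpa using hz)
  rw [hh.zero, hh.fder] at this
  simp only [sub_zero] at this
  refine this.trans ?_
  have := sq_nonneg ‖z‖
  have hM := hA.M_pos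
  have e : 4 * (12 * (M + ‖A‖)) * (‖z‖ / (1 / 4)) ^ 2 = 768 * (M + ‖A‖) * ‖z‖ ^ 2 := by ring
  rw [e]
  have : 0 ≤ (M + ‖A‖) * ‖z‖ ^ 2 := by positivity
  nlinarith

/-- The constant in the third order estimate. -/
noncomputable def C3 (A : E →L[ℂ] E) (M : ℝ) : ℝ := 64 * (200 * (M + ‖A‖) + ‖A‖)

variable [CompleteSpace E]

/-- Sharp second order estimate with uniform third order remainder. -/
theorem CaraA.inner_sub_le {A : E →L[ℂ] E} {m M s : ℝ} (hA : Adm A m M) (hs0 : 0 < s)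
    (hs : (M - m) * s ^ 2 + (2 * m + M) * s = m) {h : E → E} (hh : CaraA A h) {z : E}
    (hz : ‖z‖ < 1 / 4) {w : E} (hw : w ≠ 0) :
    Real.sqrt s * (1 - s) * ‖inner ℂ w (h z - A z)‖ ≤
      (1 - s) * (‖w‖ * (inner ℂ z (A z)).re) +
        s * (‖z‖ ^ 2 * ((inner ℂ w (A w)).re / ‖w‖)) + C3 A M * (‖w‖ * ‖z‖ ^ 3) := by
  have hs1 : s < 1 := by
    nlinarith [sq_nonneg s, mul_nonneg (sub_nonneg.2 hA.mM) (sq_nonneg s), hA.pos, hA.mM]
  have hM := hA.M_pos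
  have hC3 : 0 ≤ C3 A M := by rw [C3]; positivity
  have hwp : 0 < ‖w‖ := norm_pos_iff.2 hw
  rcases eq_or_ne z 0 with h0 | h0
  · rw [h0, hh.zero]; simp
  have hzp : 0 < ‖z‖ := norm_pos_iff.2 h0
  set u : E := ((‖z‖ : ℂ)⁻¹) • z with hu
  have hun : ‖u‖ = 1 := by
    rw [hu, norm_smul, norm_inv, Complex.norm_real, norm_norm, inv_mul_cancel₀ hzp.ne']
  have hzu : (‖z‖ : ℂ) • u = z := by
    rw [hu, smul_smul, mul_inv_cancel₀, one_smul]
    exact_mod_cast hzp.ne'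
  set w₀ : E := ((‖w‖ : ℂ)⁻¹) • w with hw₀
  have hw₀n : ‖w₀‖ = 1 := by
    rw [hw₀, norm_smul, norm_inv, Complex.norm_real, norm_norm, inv_mul_cancel₀ hwp.ne']
  have hww : (‖w‖ : ℂ) • w₀ = w := by
    rw [hw₀, smul_smul, mul_inv_cancel₀, one_smul]
    exact_mod_cast hwp.ne'
  set g : ℂ → E := fun ζ => h (ζ • u) with hg
  have hmem : ∀ ζ ∈ ball (0 : ℂ) (1 / 4), ζ • u ∈ ball (0 : E) 1 := by
    intro ζ hζ
    rw [mem_ball_zero_iff] at *
    rw [norm_smul, hun, mul_one]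
    linarith
  have hgd : DifferentiableOn ℂ g (ball 0 (1 / 4)) := hh.diff.comp (by fun_prop) hmem
  have g0 : g 0 = 0 := by simp [hg, hh.zero]
  have g1 : HasDerivAt g (A u) 0 := by
    have h1 : HasFDerivAt h A ((0 : ℂ) • u) := by
      rw [zero_smul, ← hh.fder]
      exact (hh.diff.differentiableAt (ball_mem_nhds _ one_pos)).hasFDerivAt
    have h2 : HasDerivAt (fun ζ : ℂ => ζ • u) ((1 : ℂ) • u) 0 :=
      (hasDerivAt_id (0 : ℂ)).smul_const u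
    have h3 : HasDerivAt g (A ((1 : ℂ) • u)) 0 := h1.comp_hasDerivAt 0 h2
    simpa using h3
  have hB : ∀ ζ ∈ ball (0 : ℂ) (1 / 4), ‖dslope g 0 ζ‖ ≤ 200 * (M + ‖A‖) + ‖A‖ := by
    intro ζ hζ
    have hAu : ‖A u‖ ≤ ‖A‖ := by
      have := A.le_opNorm u
      rwa [hun, mul_one] at this
    rcases eq_or_ne ζ 0 with hq | hq
    · rw [hq, dslope_same, g1.deriv]
      have : 0 ≤ 200 * (M + ‖A‖) := by positivity
      linarith
    · have hζ' : ‖ζ‖ < 1 / 4 := by simpa using hζ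
      have h1 : ‖ζ • u‖ < 1 / 4 := by rw [norm_smul, hun, mul_one]; exact hζ'
      have h2 := hh.second_order hA h1
      rw [norm_smul, hun, mul_one] at h2
      rw [dslope_of_ne _ hq, slope_def_module, sub_zero, g0, sub_zero, norm_smul, norm_inv,
        inv_mul_le_iff₀ (norm_pos_iff.2 hq)]
      have h3 : ‖g ζ‖ ≤ ‖h (ζ • u) - A (ζ • u)‖ + ‖A (ζ • u)‖ := by
        have := norm_add_le (h (ζ • u) - A (ζ • u)) (A (ζ • u))
        simpa [hg] using this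
      rw [map_smul, norm_smul] at h3
      rw [map_smul] at h2
      have h4 : ‖ζ‖ * ‖A u‖ ≤ ‖ζ‖ * ‖A‖ := by gcongr
      have h5 : 800 * (M + ‖A‖) * ‖ζ‖ ^ 2 ≤ ‖ζ‖ * (200 * (M + ‖A‖)) := by
        have : 0 ≤ (M + ‖A‖) * ‖ζ‖ * (1 / 4 - ‖ζ‖) := by
          have : 0 ≤ 1 / 4 - ‖ζ‖ := by linarith
          positivity
        nlinarith
      linarith
  obtain ⟨-, h4⟩ := curve_third (by norm_num) hgd g0 g1 hB
  have hmz : (‖z‖ : ℂ) ∈ ball (0 : ℂ) (1 / 4) := by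
    rw [mem_ball_zero_iff, Complex.norm_real, norm_norm]; exact hz
  have h5 := h4 _ hmz
  have h7 : g (‖z‖ : ℂ) = h z := by simp only [hg, hzu]
  rw [h7, ← map_smul, hzu, Complex.norm_real, norm_norm] at h5
  have hC : 4 * (200 * (M + ‖A‖) + ‖A‖) / (1 / 4) ^ 2 = C3 A M := by rw [C3]; ring
  rw [hC] at h5
  have hpos' : ∀ z ∈ ball (0 : E) 1, 0 ≤ (inner ℂ z (h z)).re := fun z hz =>
    hh.re_inner_nonneg hA (by simpa using hz)
  have h6 := inner_tc_two_le hh.diff hh.zero hh.fder hpos' hA.pos hA.mM hA.ge hA.le hs0 hs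
    hun hw₀n
  -- the inner product
  have h8 : inner ℂ w (h z - A z) = inner ℂ w (h z - A z - (‖z‖ : ℂ) ^ 2 • tc 2 g) +
      (‖w‖ : ℂ) * ((‖z‖ : ℂ) ^ 2 * inner ℂ w₀ (tc 2 g)) := by
    have h9 : (‖w‖ : ℂ) * ((‖z‖ : ℂ) ^ 2 * inner ℂ w₀ (tc 2 g)) =
        inner ℂ w ((‖z‖ : ℂ) ^ 2 • tc 2 g) := by
      have e0 := inner_smul_left w₀ (tc 2 g) (‖w‖ : ℂ)
      rw [Complex.conj_ofReal, hww] at e0
      rw [inner_smul_right, e0]
      ring
    rw [h9, ← inner_add_right]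
    congr 1
    abel
  have h9 : ‖inner ℂ w (h z - A z)‖ ≤ ‖w‖ * (C3 A M * ‖z‖ ^ 3) +
      ‖w‖ * (‖z‖ ^ 2 * ‖inner ℂ w₀ (tc 2 g)‖) := by
    rw [h8]
    refine (norm_add_le _ _).trans ?_
    apply add_le_add
    · exact (norm_inner_le_norm (𝕜 := ℂ) _ _).trans (by gcongr)
    · rw [norm_mul, norm_mul, norm_pow, Complex.norm_real, Complex.norm_real, norm_norm, norm_norm]
  have hg1 : Real.sqrt s * (1 - s) ≤ 1 := by
    have : Real.sqrt s ≤ 1 := by rw [Real.sqrt_le_one]; exact hs1.le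
    calc Real.sqrt s * (1 - s) ≤ 1 * 1 := by
          apply mul_le_mul this (by linarith) (by linarith) zero_le_one
      _ = 1 := one_mul _
  have hg0 : 0 ≤ Real.sqrt s * (1 - s) := by
    have : 0 ≤ 1 - s := by linarith
    positivity
  have hz1 : inner ℂ z (A z) = ((‖z‖ ^ 2 : ℝ) : ℂ) * inner ℂ u (A u) := by
    conv_lhs => rw [← hzu]
    rw [map_smul, inner_smul_left, inner_smul_right, Complex.conj_ofReal]
    push_cast
    ring
  have hw1 : inner ℂ w (A w) = ((‖w‖ ^ 2 : ℝ) : ℂ) * inner ℂ w₀ (A w₀) := by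
    conv_lhs => rw [← hww]
    rw [map_smul, inner_smul_left, inner_smul_right, Complex.conj_ofReal]
    push_cast
    ring
  rw [hz1, hw1, Complex.re_ofReal_mul, Complex.re_ofReal_mul]
  have e1 : ‖w‖ ^ 2 * (inner ℂ w₀ (A w₀)).re / ‖w‖ = ‖w‖ * (inner ℂ w₀ (A w₀)).re := by
    field_simp
  rw [e1]
  calc Real.sqrt s * (1 - s) * ‖inner ℂ w (h z - A z)‖
      ≤ Real.sqrt s * (1 - s) * (‖w‖ * (C3 A M * ‖z‖ ^ 3) +
          ‖w‖ * (‖z‖ ^ 2 * ‖inner ℂ w₀ (tc 2 g)‖)) := by gcongr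
    _ = (Real.sqrt s * (1 - s)) * (‖w‖ * (C3 A M * ‖z‖ ^ 3)) +
          ‖w‖ * ‖z‖ ^ 2 * (Real.sqrt s * (1 - s) * ‖inner ℂ w₀ (tc 2 g)‖) := by ring
    _ ≤ 1 * (‖w‖ * (C3 A M * ‖z‖ ^ 3)) +
          ‖w‖ * ‖z‖ ^ 2 * ((1 - s) * (inner ℂ u (A u)).re + s * (inner ℂ w₀ (A w₀)).re) := by
        gcongr
    _ = _ := by ring

end GenCara

end Pool.Agent.Helper342.Par
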