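import Mathlib
import Pool.Agent.Helper342.Par.GenCara

set_option autoImplicit false

namespace Pool.Agent.Helper342.Par

open Metric Set Filter Topology MeasureTheory

section GenOde

variable {E : Type*} [NormedAddCommGroup E] [InnerProductSpace ℂ E] [CompleteSpace E]

theorem Sol.norm_antitoneA {A : E →L[ℂ] E} {m M : ℝ} (hA : Adm A m M) {h : E → ℝ → E} {z : E} {v : ℝ → E} (hv : Sol h z v)
    (hh : ∀ s, CaraA A (fun w => h w s)) {a b : ℝ} (ha : 0 ≤ a) (hab : a ≤ b) : ‖v b‖ ≤ ‖v a‖ := by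
  have h1 : ‖v b‖ ^ 2 ≤ ‖v a‖ ^ 2 := by
    apply ac_le_of_deriv_nonpos (f := fun t => ‖v t‖ ^ 2)
      (f' := fun x => -(2 * (inner ℂ (v x) (h (v x) x)).re)) hab (hv.normSq_ac ha hab)
    filter_upwards [hv.normSq_hasDerivAt ha hab] with x hx hxm
    refine ⟨hx hxm, ?_⟩
    have := (hh x).re_inner_nonneg hA (hv.mem x (ha.trans hxm.1.le))
    linarith
  exact (pow_le_pow_iff_left₀ (norm_nonneg _) (norm_nonneg _) two_ne_zero).1 h1

/-- The growth estimate for solutions. -/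
theorem Sol.growthA {A : E →L[ℂ] E} {m M : ℝ} (hA : Adm A m M) {h : E → ℝ → E} {z : E} {v : ℝ → E} (hv : Sol h z v)
    (hh : ∀ s, CaraA A (fun w => h w s)) {t : ℝ} (ht : 0 ≤ t) :
    Real.exp (m * t) * (‖v t‖ / (1 - ‖v t‖) ^ 2) ≤ ‖z‖ / (1 - ‖z‖) ^ 2 := by
  have hz : ‖z‖ < 1 := by have := hv.mem 0 le_rfl; rwa [hv.start] at this
  rcases eq_or_ne (v t) 0 with h0 | h0
  · rw [h0, norm_zero]
    have := norm_nonneg z
    simp only [zero_div, mul_zero]
    positivity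
  have hvt : 0 < ‖v t‖ := norm_pos_iff.2 h0
  have hlo : ∀ s ∈ Icc 0 t, ‖v t‖ ≤ ‖v s‖ := fun s hs => hv.norm_antitoneA hA hh hs.1 hs.2
  have hhi : ∀ s ∈ Icc 0 t, ‖v s‖ ≤ ‖z‖ := fun s hs => by
    have := hv.norm_antitoneA hA hh le_rfl hs.1
    rwa [hv.start] at this
  set c : ℝ := ‖v t‖ ^ 2 with hc
  have hc0 : 0 < c := by positivity
  set K : ℝ := 1 / (c * (1 - ‖z‖)) with hK
  have hK0 : 0 ≤ K := by
    have : 0 < 1 - ‖z‖ := by linarith
    positivity
  set N : ℝ → ℝ := fun s => ‖v s‖ ^ 2 with hN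
  have hNlo : ∀ s ∈ Icc 0 t, c ≤ N s := by
    intro s hs
    have := hlo s hs
    simp only [hN, hc]
    gcongr
  have hNhi : ∀ s ∈ Icc 0 t, N s ≤ ‖z‖ ^ 2 := by
    intro s hs
    have := hhi s hs
    simp only [hN]
    gcongr
  have hz2 : ‖z‖ ^ 2 < 1 := by nlinarith [norm_nonneg z]
  -- Lipschitz bound for `Th` on `[c, ‖z‖^2]`
  have hlip : ∀ x ∈ Icc c (‖z‖ ^ 2), ∀ y ∈ Icc c (‖z‖ ^ 2), ‖Th x - Th y‖ ≤ K * ‖x - y‖ := by
    intro x hx y hy
    have := Convex.norm_image_sub_le_of_norm_hasDerivWithin_le (f := Th)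
      (f' := fun n => (1 + Real.sqrt n) / (2 * n * (1 - Real.sqrt n))) (s := Icc c (‖z‖ ^ 2))
      (C := K) (x := y) (y := x) (fun n hn =>
        (Th_hasDerivAt (hc0.trans_le hn.1) (hn.2.trans_lt hz2)).hasDerivWithinAt) ?_
        (convex_Icc _ _) hy hx
    · exact this
    · intro n hn
      have hn0 : 0 < n := hc0.trans_le hn.1
      have hs1 : Real.sqrt n ≤ ‖z‖ := by
        rw [← Real.sqrt_sq (norm_nonneg z)]
        exact Real.sqrt_le_sqrt hn.2
      have hs0 : 0 ≤ Real.sqrt n := Real.sqrt_nonneg _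
      rw [Real.norm_of_nonneg (by
        have : 0 < 1 - Real.sqrt n := by linarith
        positivity), hK, div_le_div_iff₀ (by
        have : 0 < 1 - Real.sqrt n := by linarith
        positivity) (by
        have : 0 < 1 - ‖z‖ := by linarith
        positivity)]
      have h5 : c * (1 - ‖z‖) ≤ n * (1 - Real.sqrt n) := by
        apply mul_le_mul hn.1 (by linarith) (by linarith) hn0.le
      have h6 : 0 ≤ c * (1 - ‖z‖) := mul_nonneg hc0.le (by linarith)
      nlinarith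
  have hAC : AbsolutelyContinuousOnInterval (fun s => m * s + Th (N s)) 0 t := by
    apply AbsolutelyContinuousOnInterval.fun_add
    · have : ContDiffOn ℝ 1 (fun s : ℝ => m * s) (uIcc 0 t) := by fun_prop
      exact this.absolutelyContinuousOnInterval
    · apply ac_of_dist_le hK0 (hv.normSq_ac le_rfl ht)
      intro x hx y hy
      rw [uIcc_of_le ht] at hx hy
      rw [dist_eq_norm, dist_eq_norm]
      exact hlip _ ⟨hNlo x hx, hNhi x hx⟩ _ ⟨hNlo y hy, hNhi y hy⟩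
  have hfin := ac_le_of_deriv_nonpos (f := fun s => m * s + Th (N s))
    (f' := fun s => m * 1 + (1 + Real.sqrt (N s)) / (2 * N s * (1 - Real.sqrt (N s))) *
      (-(2 * (inner ℂ (v s) (h (v s) s)).re))) ht hAC (by
    filter_upwards [hv.normSq_hasDerivAt le_rfl ht] with s hs hsm
    have hsI : s ∈ Icc 0 t := ⟨hsm.1.le, hsm.2.le⟩
    have hN0 : 0 < N s := hc0.trans_le (hNlo s hsI)
    have hN1 : N s < 1 := (hNhi s hsI).trans_lt hz2
    have d1 := (Th_hasDerivAt hN0 hN1).comp s (hs hsm)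
    refine ⟨((hasDerivAt_id s).const_mul m).add d1, ?_⟩
    have hsq : Real.sqrt (N s) = ‖v s‖ := Real.sqrt_sq (norm_nonneg _)
    rw [hsq]
    have hv1 : ‖v s‖ < 1 := hv.mem s hsm.1.le
    have hv0 : 0 < ‖v s‖ := hvt.trans_le (hlo s hsI)
    have key := ((hh s).re_inner_ge hA hv1).1
    have h7 : 0 < 1 - ‖v s‖ := by linarith
    have h8 : (1 + ‖v s‖) / (2 * N s * (1 - ‖v s‖)) * (2 * (m * (‖v s‖ ^ 2 * ((1 - ‖v s‖) / (1 + ‖v s‖)))))
        = m := by
      simp only [hN]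
      field_simp
    have h9 : 0 ≤ (1 + ‖v s‖) / (2 * N s * (1 - ‖v s‖)) := by positivity
    nlinarith [mul_le_mul_of_nonneg_left key h9])
  simp only [hN, mul_zero, zero_add, hv.start] at hfin
  have hTh : ∀ r : ℝ, 0 < r → r < 1 → Real.exp (Th (r ^ 2)) = r / (1 - r) ^ 2 := by
    intro r hr0 hr1
    have h1r : 0 < 1 - r := by linarith
    rw [Th, Real.sqrt_sq hr0.le, Real.exp_sub, Real.log_pow]
    have e1 : 1 / 2 * (((2 : ℕ) : ℝ) * Real.log r) = Real.log r := by push_cast; ring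
    have e2 : 2 * Real.log (1 - r) = Real.log ((1 - r) ^ 2) := by rw [Real.log_pow]; push_cast; ring
    rw [e1, e2, Real.exp_log hr0, Real.exp_log (by positivity)]
  have hz0 : 0 < ‖z‖ := hvt.trans_le (hhi t ⟨ht, le_rfl⟩)
  rw [← hTh ‖z‖ hz0 hz, ← hTh ‖v t‖ hvt (hv.mem t ht), ← Real.exp_add]
  exact Real.exp_le_exp.2 hfin

/-- The pointwise differential inequality, real form. -/
theorem real_final {m M s κ e R a n ε x b f c N : ℝ} (hm : 0 < m) (hM2 : M < 2 * m) (hN : 0 ≤ N)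
    (hmM : m ≤ M) (hs0 : 0 < s) (hκ : κ * (2 * m - M) = m) (he : 0 < e) (hR0 : 0 ≤ R)
    (hR : R ≤ e) (ha : m * n ≤ a) (hn : 0 ≤ n) (hε : |ε| ≤ 1600 * N * x) (hx : 0 ≤ x)
    (hc : 0 ≤ c) (hf : f ≤ (1 - s) * (R * a) + s * (n * b) + c * (R * x)) :
    f + κ * (1 + s) * (e * M * n + e * (-2 * a + ε)) - s * ((-2 * a + ε) * R + n * b) ≤
      (c + 1600 * N * (κ * (1 + s) + s)) * (e * x) := by
  have h2m : 0 < 2 * m - M := by linarith
  have hκ0 : 0 < κ := by
    by_contra hcon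
    push Not at hcon
    nlinarith
  have ha0 : 0 ≤ a := le_trans (by positivity) ha
  have hM0 : 0 < M := by linarith
  have h1 : (1 + s) * (a * R) ≤ (1 + s) * (a * e) := by gcongr
  have h2 : a + κ * (M * n - 2 * a) ≤ 0 := by
    have h3 : (2 * m - M) * (a + κ * (M * n - 2 * a)) = -(M * (a - m * n)) := by
      calc (2 * m - M) * (a + κ * (M * n - 2 * a)) =
          (2 * m - M) * a + (κ * (2 * m - M)) * (M * n - 2 * a) := by ring
        _ = _ := by rw [hκ]; ring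
    have h4 : 0 ≤ M * (a - m * n) := mul_nonneg hM0.le (by linarith)
    by_contra hcon
    push Not at hcon
    have := mul_pos h2m hcon
    linarith
  have h5 : (1 + s) * e * (a + κ * (M * n - 2 * a)) ≤ 0 :=
    mul_nonpos_of_nonneg_of_nonpos (by positivity) h2
  have h6 : c * (R * x) ≤ c * (e * x) := by gcongr
  obtain ⟨hε1, hε2⟩ := abs_le.1 hε
  have h7 : κ * (1 + s) * e * ε ≤ κ * (1 + s) * e * (1600 * N * x) := by gcongr
  have h8 : -(s * ε * R) ≤ s * (1600 * N * x) * e := by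
    have h9 : -(s * ε * R) ≤ s * (1600 * N * x) * R := by
      have : s * R * (-ε) ≤ s * R * (1600 * N * x) := by
        apply mul_le_mul_of_nonneg_left _ (by positivity)
        linarith
      linarith
    refine h9.trans ?_
    gcongr
  nlinarith

/-- Absolute continuity of the real part of an inner product. -/
theorem ac_re_inner {Y v : ℝ → E} {a b : ℝ} (hY : AbsolutelyContinuousOnInterval Y a b)
    (hv : AbsolutelyContinuousOnInterval v a b) :
    AbsolutelyContinuousOnInterval (fun t => (inner ℂ (Y t) (v t)).re) a b := by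
  have hnorm : ∀ {u : ℝ → E}, AbsolutelyContinuousOnInterval u a b →
      AbsolutelyContinuousOnInterval (fun t => ‖u t‖) a b := by
    intro u hu
    apply ac_of_dist_le zero_le_one hu
    intro x _ y _
    rw [Real.dist_eq, dist_eq_norm, one_mul]
    exact abs_norm_sub_norm_le _ _
  have h1 := hnorm (hY.fun_add hv)
  have h2 := hnorm (hY.fun_sub hv)
  have h3 := (h1.fun_mul h1).fun_sub (h2.fun_mul h2)
  apply ac_of_dist_le (K := 1 / 4) (by norm_num) h3
  intro x _ y _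
  have h4 : ∀ t, (inner ℂ (Y t) (v t)).re =
      1 / 4 * (‖Y t + v t‖ * ‖Y t + v t‖ - ‖Y t - v t‖ * ‖Y t - v t‖) := by
    intro t
    have e1 := @norm_add_sq ℂ _ _ _ _ (Y t) (v t)
    have e2 := @norm_sub_sq ℂ _ _ _ _ (Y t) (v t)
    simp only [RCLike.re_eq_complex_re] at e1 e2
    nlinarith
  rw [h4, h4, Real.dist_eq, Real.dist_eq, ← mul_sub, abs_mul, abs_of_pos (by norm_num : (0 : ℝ) < 1 / 4)]

/-- The main estimate along the flow. -/
theorem Sol.quadA {A : E →L[ℂ] E} {m M s : ℝ} (hA : Adm A m M) (hM2 : M < 2 * m) (hs0 : 0 < s)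
    (hs : (M - m) * s ^ 2 + (2 * m + M) * s = m) {κ : ℝ} (hκ : κ * (2 * m - M) = m)
    {h : E → ℝ → E} {z : E} {v : ℝ → E} (hv : Sol h z v)
    (hh : ∀ s, CaraA A (fun w => h w s)) (hz : ‖z‖ ≤ 1 / 8) {Y : ℝ → E}
    (hY : ∀ τ, HasDerivAt Y (ContinuousLinearMap.adjoint A (Y τ)) τ) (hY0 : ‖Y 0‖ = 1) (hYne : ∀ τ, Y τ ≠ 0)
    {t : ℝ} (ht : 0 ≤ t) :
    Real.sqrt s * (1 - s) * ((inner ℂ (Y t) (v t)).re - (inner ℂ (Y 0) z).re) ≤
      (κ * (1 + s) - s) * ‖z‖ ^ 2 + (C3 A M + 1600 * (M + ‖A‖) * (κ * (1 + s) + s)) / (3 * m - M) *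
        (‖z‖ / (1 - ‖z‖) ^ 2) ^ 3 := by
  have hm := hA.pos
  have hM := hA.M_pos
  have hmM := hA.mM
  have hs1 : s < 1 := by
    nlinarith [sq_nonneg s, mul_nonneg (sub_nonneg.2 hA.mM) (sq_nonneg s), hA.pos, hA.mM]
  have h2m : 0 < 2 * m - M := by linarith
  have h3m : 0 < 3 * m - M := by linarith
  have hκ1 : 1 ≤ κ := by
    by_contra hcon
    push Not at hcon
    nlinarith
  have hC3 : 0 ≤ C3 A M := by rw [C3]; positivity
  set c : ℝ := ‖z‖ / (1 - ‖z‖) ^ 2 with hc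
  have hc0 : 0 ≤ c := by
    have := norm_nonneg z
    positivity
  set K0 : ℝ := C3 A M + 1600 * (M + ‖A‖) * (κ * (1 + s) + s) with hK0
  have hK0p : 0 ≤ K0 := by positivity
  -- size of the solution
  have hvs : ∀ s, 0 ≤ s → ‖v s‖ ≤ Real.exp (-(m * s)) * c := by
    intro s hs
    have h1 := hv.growthA hA hh hs
    have hv1 := hv.mem s hs
    have h2 : ‖v s‖ ≤ ‖v s‖ / (1 - ‖v s‖) ^ 2 := by
      rw [le_div_iff₀ (by have : 0 < 1 - ‖v s‖ := by linarith
                          positivity)]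
      have h3 : (1 - ‖v s‖) ^ 2 ≤ 1 := by nlinarith [norm_nonneg (v s)]
      nlinarith [norm_nonneg (v s)]
    have h4 : Real.exp (m * s) * ‖v s‖ ≤ c := by
      calc Real.exp (m * s) * ‖v s‖ ≤ Real.exp (m * s) * (‖v s‖ / (1 - ‖v s‖) ^ 2) := by gcongr
        _ ≤ c := h1
    rw [Real.exp_neg, ← div_eq_inv_mul, le_div_iff₀ (Real.exp_pos _)]
    linarith
  have hvz : ∀ s, 0 ≤ s → ‖v s‖ < 1 / 4 := by
    intro s hs
    have := hv.norm_antitoneA hA hh le_rfl hs
    rw [hv.start] at this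
    linarith
  -- regularity of `Y`
  have hYc : Continuous Y := continuous_iff_continuousAt.2 fun τ => (hY τ).continuousAt
  have hYC1 : ContDiff ℝ 1 Y := by
    rw [contDiff_one_iff_deriv]
    refine ⟨fun τ => (hY τ).differentiableAt, ?_⟩
    have : deriv Y = fun τ => ContinuousLinearMap.adjoint A (Y τ) := funext fun τ => (hY τ).deriv
    rw [this]
    exact (ContinuousLinearMap.adjoint A).continuous.comp hYc
  have hYac : ∀ b : ℝ, AbsolutelyContinuousOnInterval Y 0 b := fun b =>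
    hYC1.contDiffOn.absolutelyContinuousOnInterval
  have hRac : ∀ b : ℝ, AbsolutelyContinuousOnInterval (fun τ => ‖Y τ‖) 0 b := by
    intro b
    apply ac_of_dist_le zero_le_one (hYac b)
    intro x _ y _
    rw [Real.dist_eq, dist_eq_norm, one_mul]
    exact abs_norm_sub_norm_le _ _
  have hR2 : ∀ τ, HasDerivAt (fun τ => ‖Y τ‖ ^ 2) (2 * (inner ℂ (Y τ) (A (Y τ))).re) τ := by
    intro τ
    have h2 := HasDerivAt.inner ℂ (hY τ) (hY τ)
    have h3 := Complex.reCLM.hasFDerivAt.comp_hasDerivAt τ h2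
    have e1 : (Complex.reCLM ∘ fun t => inner ℂ (Y t) (Y t)) = fun t => ‖Y t‖ ^ 2 := by
      ext t
      simp only [Function.comp_apply, Complex.reCLM_apply]
      rw [inner_self_eq_norm_sq_to_K]
      norm_cast
    rw [e1] at h3
    refine h3.congr_deriv ?_
    simp only [Complex.reCLM_apply, Complex.add_re]
    rw [ContinuousLinearMap.adjoint_inner_left, ContinuousLinearMap.adjoint_inner_right]
    have : (inner ℂ (A (Y τ)) (Y τ)).re = (inner ℂ (Y τ) (A (Y τ))).re := by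
      rw [← inner_conj_symm, Complex.conj_re]
    rw [this]
    ring
  have hR1 : ∀ τ, HasDerivAt (fun τ => ‖Y τ‖) ((inner ℂ (Y τ) (A (Y τ))).re / ‖Y τ‖) τ := by
    intro τ
    have hp : 0 < ‖Y τ‖ := norm_pos_iff.2 (hYne τ)
    have h2 := (hR2 τ).sqrt (by positivity)
    have e1 : (fun y => Real.sqrt (‖Y y‖ ^ 2)) = fun τ => ‖Y τ‖ := by
      ext y; exact Real.sqrt_sq (norm_nonneg _)
    rw [e1, Real.sqrt_sq hp.le] at h2
    refine h2.congr_deriv ?_
    field_simp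
  have hexp : ∀ b τ : ℝ, HasDerivAt (fun s : ℝ => Real.exp (b * s)) (Real.exp (b * τ) * b) τ := by
    intro b τ
    have := ((hasDerivAt_id τ).const_mul b).exp
    simpa using this
  have hACe : ∀ a b r : ℝ, AbsolutelyContinuousOnInterval (fun s => a * Real.exp (b * s)) 0 r := by
    intro a b r
    have : ContDiffOn ℝ 1 (fun s : ℝ => a * Real.exp (b * s)) (uIcc 0 r) := by fun_prop
    exact this.absolutelyContinuousOnInterval
  have hRle : ∀ τ, 0 ≤ τ → ‖Y τ‖ ≤ Real.exp (M * τ) := by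
    intro τ hτ
    have h1 := ac_le_of_deriv_nonpos (f := fun τ => ‖Y τ‖ * (1 * Real.exp ((-M) * τ)))
      (f' := fun τ => (inner ℂ (Y τ) (A (Y τ))).re / ‖Y τ‖ * (1 * Real.exp ((-M) * τ)) +
        ‖Y τ‖ * (1 * (Real.exp ((-M) * τ) * (-M)))) hτ ((hRac τ).fun_mul (hACe 1 (-M) τ)) (by
      refine Eventually.of_forall fun x _ => ⟨(hR1 x).mul ((hexp (-M) x).const_mul 1), ?_⟩
      have h2 := hA.le (Y x)
      have hp : 0 < ‖Y x‖ := norm_pos_iff.2 (hYne x)
      have h3 : (inner ℂ (Y x) (A (Y x))).re / ‖Y x‖ ≤ M * ‖Y x‖ := by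
        rw [div_le_iff₀ hp]; nlinarith
      have h4 := Real.exp_pos ((-M) * x)
      nlinarith [mul_le_mul_of_nonneg_right h3 h4.le])
    simp only [mul_zero, Real.exp_zero, mul_one, one_mul, hY0] at h1
    have h5 : Real.exp ((-M) * τ) = (Real.exp (M * τ))⁻¹ := by
      rw [← Real.exp_neg]; congr 1; ring
    rw [h5, ← div_eq_mul_inv, div_le_one (Real.exp_pos _)] at h1
    exact h1
  have hnac := hv.normSq_ac le_rfl ht
  have hFac := ac_re_inner (hYac t) (hv.ac le_rfl ht)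
  have hcst : AbsolutelyContinuousOnInterval (fun _ : ℝ => Real.sqrt s * (1 - s)) 0 t := by
    have : ContDiffOn ℝ 1 (fun _ : ℝ => Real.sqrt s * (1 - s)) (uIcc 0 t) := contDiffOn_const
    exact this.absolutelyContinuousOnInterval
  have hcst2 : AbsolutelyContinuousOnInterval (fun _ : ℝ => s) 0 t := by
    have : ContDiffOn ℝ 1 (fun _ : ℝ => s) (uIcc 0 t) := contDiffOn_const
    exact this.absolutelyContinuousOnInterval
  have hAC : AbsolutelyContinuousOnInterval (fun τ =>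
      Real.sqrt s * (1 - s) * (inner ℂ (Y τ) (v τ)).re +
        κ * (1 + s) * Real.exp (M * τ) * ‖v τ‖ ^ 2 - s * (‖v τ‖ ^ 2 * ‖Y τ‖) +
          K0 / (3 * m - M) * c ^ 3 * Real.exp ((M - 3 * m) * τ)) 0 t :=
    (((hcst.fun_mul hFac).fun_add ((hACe _ _ _).fun_mul hnac)).fun_sub
      (hcst2.fun_mul (hnac.fun_mul (hRac t)))).fun_add (hACe _ _ _)
  have hfin := ac_le_of_deriv_nonpos (f := fun τ =>
      Real.sqrt s * (1 - s) * (inner ℂ (Y τ) (v τ)).re +
        κ * (1 + s) * Real.exp (M * τ) * ‖v τ‖ ^ 2 - s * (‖v τ‖ ^ 2 * ‖Y τ‖) +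
          K0 / (3 * m - M) * c ^ 3 * Real.exp ((M - 3 * m) * τ))
    (f' := fun τ => Real.sqrt s * (1 - s) *
        ((inner ℂ (Y τ) (-(h (v τ) τ))).re + (inner ℂ (ContinuousLinearMap.adjoint A (Y τ)) (v τ)).re) +
        (κ * (1 + s) * (Real.exp (M * τ) * M) * ‖v τ‖ ^ 2 +
          κ * (1 + s) * Real.exp (M * τ) * (-(2 * (inner ℂ (v τ) (h (v τ) τ)).re))) -
        s * (-(2 * (inner ℂ (v τ) (h (v τ) τ)).re) * ‖Y τ‖ +
          ‖v τ‖ ^ 2 * ((inner ℂ (Y τ) (A (Y τ))).re / ‖Y τ‖)) +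
        K0 / (3 * m - M) * c ^ 3 * (Real.exp ((M - 3 * m) * τ) * (M - 3 * m))) ht hAC (by
    filter_upwards [hv.hasDerivAt le_rfl ht, hv.normSq_hasDerivAt le_rfl ht] with τ hτ hτ2 hτm
    have h1 := hτ hτm
    have h2 := hτ2 hτm
    have h3 := HasDerivAt.inner ℂ (hY τ) h1
    have h4 := Complex.reCLM.hasFDerivAt.comp_hasDerivAt τ h3
    have h5 : HasDerivAt (fun s => (inner ℂ (Y s) (v s)).re)
        ((inner ℂ (Y τ) (-(h (v τ) τ))).re + (inner ℂ (ContinuousLinearMap.adjoint A (Y τ)) (v τ)).re) τ := by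
      refine HasDerivAt.congr_deriv (f := fun s => (inner ℂ (Y s) (v s)).re) h4 ?_
      simp only [Complex.reCLM_apply, Complex.add_re]
    refine ⟨(((h5.const_mul _).add (((hexp M τ).const_mul _).mul h2)).sub
      ((h2.mul (hR1 τ)).const_mul s)).add ((hexp (M - 3 * m) τ).const_mul _), ?_⟩
    have hvt := hvz τ hτm.1.le
    have k1 := (hh τ).inner_sub_le hA hs0 hs hvt (hYne τ)
    have k2 := (hh τ).second_order hA hvt
    have k3 := hvs τ hτm.1.le
    set x : ℝ := ‖v τ‖ ^ 3 with hx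
    have hx0 : 0 ≤ x := by positivity
    set f : ℝ := Real.sqrt s * (1 - s) *
        ((inner ℂ (Y τ) (-(h (v τ) τ))).re + (inner ℂ (ContinuousLinearMap.adjoint A (Y τ)) (v τ)).re) with hf
    have hfle : f ≤ (1 - s) * (‖Y τ‖ * (inner ℂ (v τ) (A (v τ))).re) +
        s * (‖v τ‖ ^ 2 * ((inner ℂ (Y τ) (A (Y τ))).re / ‖Y τ‖)) + C3 A M * (‖Y τ‖ * x) := by
      refine le_trans ?_ k1
      rw [hf]
      have e1 : (inner ℂ (Y τ) (-(h (v τ) τ))).re + (inner ℂ (ContinuousLinearMap.adjoint A (Y τ)) (v τ)).re =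
          -(inner ℂ (Y τ) (h (v τ) τ - A (v τ))).re := by
        rw [ContinuousLinearMap.adjoint_inner_left, inner_neg_right, inner_sub_right, Complex.neg_re,
          Complex.sub_re]
        ring
      rw [e1]
      have e2 : 0 ≤ Real.sqrt s * (1 - s) := by
        have : 0 ≤ 1 - s := by linarith
        positivity
      apply mul_le_mul_of_nonneg_left _ e2
      exact (neg_le_abs _).trans (Complex.abs_re_le_norm _)
    set ε : ℝ := -2 * (inner ℂ (v τ) (h (v τ) τ - A (v τ))).re with hε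
    have hεle : |ε| ≤ 1600 * (M + ‖A‖) * x := by
      rw [hε, abs_mul, hx]
      have e3 : |(inner ℂ (v τ) (h (v τ) τ - A (v τ))).re| ≤ ‖v τ‖ * (800 * (M + ‖A‖) * ‖v τ‖ ^ 2) :=
        (Complex.abs_re_le_norm _).trans ((norm_inner_le_norm (𝕜 := ℂ) _ _).trans (by gcongr))
      have e4 : |(-2 : ℝ)| = 2 := by norm_num
      rw [e4]
      nlinarith
    have e5 : -(2 * (inner ℂ (v τ) (h (v τ) τ)).re) = -2 * (inner ℂ (v τ) (A (v τ))).re + ε := by
      rw [hε, inner_sub_right, Complex.sub_re]; ring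
    have hge := hA.ge (v τ)
    have k4 := real_final (c := C3 A M) (b := (inner ℂ (Y τ) (A (Y τ))).re / ‖Y τ‖) (N := M + ‖A‖) hm hM2
      (by positivity) hmM hs0
      hκ (Real.exp_pos (M * τ)) (norm_nonneg (Y τ)) (hRle τ hτm.1.le) hge (sq_nonneg _) hεle hx0
      hC3 hfle
    rw [e5]
    have k5 : K0 * (Real.exp (M * τ) * x) ≤
        K0 / (3 * m - M) * c ^ 3 * (Real.exp ((M - 3 * m) * τ) * (3 * m - M)) := by
      have e6 : x ≤ (Real.exp (-(m * τ)) * c) ^ 3 := by rw [hx]; gcongr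
      have e7 : K0 / (3 * m - M) * c ^ 3 * (Real.exp ((M - 3 * m) * τ) * (3 * m - M)) =
          K0 * (Real.exp (M * τ) * (Real.exp (-(m * τ)) * c) ^ 3) := by
        have e8 : Real.exp ((M - 3 * m) * τ) = Real.exp (M * τ) * Real.exp (-(m * τ)) ^ 3 := by
          rw [← Real.exp_nat_mul, ← Real.exp_add]
          congr 1
          push_cast
          ring
        rw [e8]
        field_simp
      rw [e7]
      gcongr
    linarith)
  simp only [mul_zero, Real.exp_zero, mul_one, hv.start, hY0] at hfin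
  have h17 : 0 ≤ K0 / (3 * m - M) * c ^ 3 * Real.exp ((M - 3 * m) * t) := by positivity
  have h18 : 0 ≤ κ * (1 + s) * Real.exp (M * t) * ‖v t‖ ^ 2 - s * (‖v t‖ ^ 2 * ‖Y t‖) := by
    have h19 : s * (‖v t‖ ^ 2 * ‖Y t‖) ≤ s * (‖v t‖ ^ 2 * Real.exp (M * t)) := by
      have := hRle t ht
      gcongr
    have h20 : 0 ≤ (κ * (1 + s) - s) * (Real.exp (M * t) * ‖v t‖ ^ 2) := by
      have : 0 ≤ κ * (1 + s) - s := by nlinarith
      positivity
    nlinarith
  nlinarith

end GenOde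

end Pool.Agent.Helper342.Par
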