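import Mathlib
import Pool.Agent.Helper342.Par.GenOde

set_option autoImplicit false

namespace Pool.Agent.Helper342.Par

open Metric Set Filter Topology MeasureTheory

section GenExp

variable {E : Type*} [NormedAddCommGroup E] [InnerProductSpace ℂ E] [CompleteSpace E]

/-- The operator exponential `exp (t A)`. -/
noncomputable def ex (A : E →L[ℂ] E) (t : ℝ) : E →L[ℂ] E := NormedSpace.exp ((t : ℂ) • A)

theorem ex_hasDerivAt (A : E →L[ℂ] E) (t : ℝ) : HasDerivAt (ex A) (A * ex A t) t := by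
  have h1 := hasDerivAt_exp_smul_const' (𝕂 := ℂ) A (t : ℂ)
  have h2 : HasDerivAt (fun s : ℝ => (s : ℂ)) 1 t := Complex.ofRealCLM.hasDerivAt
  have h3 := HasDerivAt.scomp t h1 h2
  rw [one_smul] at h3
  exact h3

theorem ex_hasDerivAt' (A : E →L[ℂ] E) (t : ℝ) : HasDerivAt (ex A) (ex A t * A) t := by
  have h1 := hasDerivAt_exp_smul_const (𝕂 := ℂ) A (t : ℂ)
  have h2 : HasDerivAt (fun s : ℝ => (s : ℂ)) 1 t := Complex.ofRealCLM.hasDerivAt
  have h3 := HasDerivAt.scomp t h1 h2
  rw [one_smul] at h3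
  exact h3

theorem ex_apply_hasDerivAt (A : E →L[ℂ] E) (w : E) (t : ℝ) :
    HasDerivAt (fun t => ex A t w) (A (ex A t w)) t := by
  have h1 := ((ContinuousLinearMap.apply ℂ E w).restrictScalars ℝ).hasFDerivAt.comp_hasDerivAt t
    (ex_hasDerivAt A t)
  exact h1

theorem ex_apply_hasDerivAt' (A : E →L[ℂ] E) (w : E) (t : ℝ) :
    HasDerivAt (fun t => ex A t w) (ex A t (A w)) t := by
  have h1 := ((ContinuousLinearMap.apply ℂ E w).restrictScalars ℝ).hasFDerivAt.comp_hasDerivAt t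
    (ex_hasDerivAt' A t)
  exact h1

theorem ex_zero (A : E →L[ℂ] E) (w : E) : ex A 0 w = w := by
  simp [ex]

theorem ex_neg_apply (A : E →L[ℂ] E) (t : ℝ) (w : E) : ex A t (ex A (-t) w) = w := by
  have h1 : ex A t * ex A (-t) = 1 := by
    letI : NormedAlgebra ℚ (E →L[ℂ] E) := NormedAlgebra.restrictScalars ℚ ℂ _
    rw [ex, ex]
    have hc : Commute ((t : ℂ) • A) (((-t : ℝ) : ℂ) • A) :=
      ((Commute.refl A).smul_left _).smul_right _
    rw [← NormedSpace.exp_add_of_commute hc, ← add_smul]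
    simp
  have h2 := congrArg (fun T : E →L[ℂ] E => T w) h1
  exact h2

theorem ex_neg_apply' (A : E →L[ℂ] E) (t : ℝ) (w : E) : ex A (-t) (ex A t w) = w := by
  have := ex_neg_apply A (-t) w
  rwa [neg_neg] at this

theorem ex_adjoint (A : E →L[ℂ] E) (t : ℝ) (x y : E) :
    inner ℂ (ex (ContinuousLinearMap.adjoint A) t x) y = inner ℂ x (ex A t y) := by
  have h1 : ex (ContinuousLinearMap.adjoint A) t = ContinuousLinearMap.adjoint (ex A t) := by
    rw [ex, ex, ← ContinuousLinearMap.star_eq_adjoint, ← ContinuousLinearMap.star_eq_adjoint,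
      NormedSpace.star_exp, star_smul]
    congr 2
    simp
  rw [h1, ContinuousLinearMap.adjoint_inner_left]

theorem ex_eigen {A : E →L[ℂ] E} {α : ℂ} {p : E} (hp : A p = α • p) (t : ℝ) :
    ex A t p = Complex.exp (α * t) • p := by
  have hd : ∀ s : ℝ, HasDerivAt (fun s : ℝ => Complex.exp (-α * s) • ex A s p) 0 s := by
    intro s
    have h1 : HasDerivAt (fun s : ℝ => Complex.exp (-α * (s : ℂ)))
        (Complex.exp (-α * (s : ℂ)) * (-α)) s := by
      have h2 : HasDerivAt (fun s : ℂ => Complex.exp (-α * s)) (Complex.exp (-α * (s : ℂ)) * (-α))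
          (s : ℂ) := by
        have := ((hasDerivAt_id (s : ℂ)).const_mul (-α)).cexp
        simpa using this
      exact h2.comp_ofReal
    have h3 := h1.smul (ex_apply_hasDerivAt' A p s)
    refine h3.congr_deriv ?_
    rw [hp, map_smul]
    module
  have hc := is_const_of_deriv_eq_zero (fun s => (hd s).differentiableAt) (fun s => (hd s).deriv)
  have h1 := hc t 0
  simp only [ex_zero] at h1
  have h2 : Complex.exp (α * t) • (Complex.exp (-α * t) • ex A t p) = ex A t p := by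
    rw [smul_smul, ← Complex.exp_add]
    simp
  rw [← h2, h1]
  simp

/-- The final estimate for the limit map. -/
theorem limit_est {A : E →L[ℂ] E} {m M s : ℝ} (hA : Adm A m M) (hM2 : M < 2 * m) (hs0 : 0 < s)
    (hs : (M - m) * s ^ 2 + (2 * m + M) * s = m) {κ : ℝ} (hκ : κ * (2 * m - M) = m)
    {h : E → ℝ → E} {z : E} {v : ℝ → E} (hv : Sol h z v)
    (hh : ∀ s, CaraA A (fun w => h w s)) (hz : ‖z‖ ≤ 1 / 8) {f : E}
    (hf : Tendsto (fun t => ex A t (v t)) atTop (𝓝 f)) :
    Real.sqrt s * (1 - s) * ‖f - z‖ ≤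
      (κ * (1 + s) - s) * ‖z‖ ^ 2 + (C3 A M + 1600 * (M + ‖A‖) * (κ * (1 + s) + s)) / (3 * m - M) *
        (‖z‖ / (1 - ‖z‖) ^ 2) ^ 3 := by
  have hm := hA.pos
  have hM := hA.M_pos
  have h2m : 0 < 2 * m - M := by linarith
  have h3m : 0 < 3 * m - M := by linarith
  have hmM := hA.mM
  have hκ1 : 1 ≤ κ := by
    by_contra hcon
    push Not at hcon
    nlinarith
  have hC3 : 0 ≤ C3 A M := by rw [C3]; positivity
  rcases eq_or_ne (f - z) 0 with h0 | h0
  · rw [h0, norm_zero, mul_zero]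
    have h1 : 0 ≤ κ * (1 + s) - s := by nlinarith
    have h2 : 0 ≤ ‖z‖ / (1 - ‖z‖) ^ 2 := by
      have := norm_nonneg z
      positivity
    positivity
  have hdp : 0 < ‖f - z‖ := norm_pos_iff.2 h0
  set w : E := ((‖f - z‖ : ℂ)⁻¹) • (f - z) with hw
  have hwn : ‖w‖ = 1 := by
    rw [hw, norm_smul, norm_inv, Complex.norm_real, norm_norm, inv_mul_cancel₀ hdp.ne']
  have hwi : inner ℂ w (f - z) = (‖f - z‖ : ℂ) := by
    rw [hw, inner_smul_left, inner_self_eq_norm_sq_to_K, map_inv₀, Complex.conj_ofReal]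
    have : (‖f - z‖ : ℂ) ≠ 0 := by exact_mod_cast hdp.ne'
    simp only [Complex.coe_algebraMap]
    field_simp
  have hYne : ∀ τ, ex (ContinuousLinearMap.adjoint A) τ w ≠ 0 := by
    intro τ h1
    have h2 := ex_neg_apply' (ContinuousLinearMap.adjoint A) τ w
    rw [h1, map_zero] at h2
    rw [← h2, norm_zero] at hwn
    norm_num at hwn
  have key : ∀ t : ℝ, 0 ≤ t → Real.sqrt s * (1 - s) *
      ((inner ℂ w (ex A t (v t))).re - (inner ℂ w z).re) ≤
      (κ * (1 + s) - s) * ‖z‖ ^ 2 + (C3 A M + 1600 * (M + ‖A‖) * (κ * (1 + s) + s)) / (3 * m - M) *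
        (‖z‖ / (1 - ‖z‖) ^ 2) ^ 3 := by
    intro t ht
    have := hv.quadA hA hM2 hs0 hs hκ hh hz
      (Y := fun τ => ex (ContinuousLinearMap.adjoint A) τ w)
      (ex_apply_hasDerivAt (ContinuousLinearMap.adjoint A) w) (by simp only [ex_zero]; exact hwn)
      hYne ht
    simp only [ex_zero, ex_adjoint] at this
    exact this
  have hlim : Tendsto (fun t => Real.sqrt s * (1 - s) *
      ((inner ℂ w (ex A t (v t))).re - (inner ℂ w z).re)) atTop
      (𝓝 (Real.sqrt s * (1 - s) * ((inner ℂ w f).re - (inner ℂ w z).re))) := by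
    have h1 : Tendsto (fun t => (inner ℂ w (ex A t (v t))).re) atTop (𝓝 (inner ℂ w f).re) :=
      (Complex.continuous_re.tendsto _).comp
        (((innerSL ℂ w).continuous.tendsto f).comp hf)
    exact (h1.sub_const _).const_mul _
  have h1 := le_of_tendsto hlim (by
    filter_upwards [eventually_ge_atTop (0 : ℝ)] with t ht
    exact key t ht)
  have h2 : (inner ℂ w f).re - (inner ℂ w z).re = ‖f - z‖ := by
    rw [← Complex.sub_re, ← inner_sub_right, hwi, Complex.ofReal_re]
  rwa [h2] at h1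

end GenExp

section Params

/-- The parameter `s`. -/
noncomputable def sPar (m k : ℝ) : ℝ := 2 * m / (2 * m + k + Real.sqrt (k * (k + 8 * m)))

/-- The sharp constant. -/
noncomputable def sharpConst (m k : ℝ) : ℝ :=
  2 * m / ((2 * m - k) * (Real.sqrt (sPar m k) * (1 + sPar m k)))

theorem sPar_spec {m k : ℝ} (hm : 0 < m) (hk : m ≤ k) :
    0 < sPar m k ∧ (k - m) * sPar m k ^ 2 + (2 * m + k) * sPar m k = m := by
  have hk0 : 0 < k := hm.trans_le hk
  set D : ℝ := Real.sqrt (k * (k + 8 * m)) with hD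
  have hD2 : D ^ 2 = k * (k + 8 * m) := Real.sq_sqrt (by positivity)
  have hD0 : 0 ≤ D := Real.sqrt_nonneg _
  have hT : 0 < 2 * m + k + D := by positivity
  constructor
  · rw [sPar]; positivity
  · rw [sPar, ← hD]
    field_simp
    nlinarith

theorem sPar_lt_one {m k : ℝ} (hm : 0 < m) (hk : m ≤ k) : sPar m k < 1 := by
  have hk0 : 0 < k := hm.trans_le hk
  rw [sPar, div_lt_one (by positivity)]
  have : 0 ≤ Real.sqrt (k * (k + 8 * m)) := Real.sqrt_nonneg _
  linarith

theorem sharpConst_spec {m k κ : ℝ} (hm : 0 < m) (hk : m ≤ k) (hk2 : k < 2 * m)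
    (hκ : κ * (2 * m - k) = m) :
    κ * (1 + sPar m k) - sPar m k =
      Real.sqrt (sPar m k) * (1 - sPar m k) * sharpConst m k := by
  obtain ⟨hs0, hs⟩ := sPar_spec hm hk
  rw [sharpConst]
  set s := sPar m k with hsdef
  have h2 : 0 < 2 * m - k := by linarith
  have hg : 0 < Real.sqrt s := Real.sqrt_pos.2 hs0
  have e1 : Real.sqrt s * (1 - s) * (2 * m / ((2 * m - k) * (Real.sqrt s * (1 + s)))) =
      2 * m * (1 - s) / ((2 * m - k) * (1 + s)) := by
    field_simp
  rw [e1, eq_div_iff (by positivity)]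
  linear_combination (1 + s) ^ 2 * hκ + hs

theorem sharpConst_pos {m k : ℝ} (hm : 0 < m) (hk : m ≤ k) (hk2 : k < 2 * m) :
    0 < sharpConst m k := by
  obtain ⟨hs0, hs⟩ := sPar_spec hm hk
  rw [sharpConst]
  have h2 : 0 < 2 * m - k := by linarith
  have hg : 0 < Real.sqrt (sPar m k) := Real.sqrt_pos.2 hs0
  positivity

/-- The extremal quadratic form. -/
theorem scale_form_le {m k : ℝ} (hm : 0 < m) (hk : m ≤ k) (hk2 : k < 2 * m) {x b : ℝ} (hx : 0 ≤ x)
    (hxb : 0 < x ^ 2 + b) :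
    (2 * m - k) * sharpConst m k * (x * b) ≤ Real.sqrt (x ^ 2 + b) * (k * x ^ 2 + m * b) := by
  obtain ⟨hs0, hs⟩ := sPar_spec hm hk
  have h2 : 0 < 2 * m - k := by linarith
  have hk0 : 0 < k := hm.trans_le hk
  set s := sPar m k with hsdef
  set g := Real.sqrt s with hg
  have hg0 : 0 < g := Real.sqrt_pos.2 hs0
  have hg2 : g ^ 2 = s := Real.sq_sqrt hs0.le
  set q : ℝ := (2 * m - k) * sharpConst m k with hq
  have hq0 : 0 < q := mul_pos h2 (sharpConst_pos hm hk hk2)
  have hq1 : q * (g * (1 + s)) = 2 * m := by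
    rw [hq, sharpConst, ← hsdef, ← hg]
    field_simp
  -- the cubic inequality
  have hcub : ∀ y : ℝ, 0 ≤ y → 0 ≤ k * y ^ 2 + m * (1 - y ^ 2) - q * y * (1 - y ^ 2) := by
    intro y hy
    have e1 : s * (k * y ^ 2 + m * (1 - y ^ 2) - q * y * (1 - y ^ 2)) =
        (y - g) ^ 2 * (s * q * y + m) := by
      have e2 : s * q * (1 + s) = 2 * m * g := by
        rw [← hg2, ← hq1]
        rw [← hg2]
        ring
      have e3 : (y - g) ^ 2 = y ^ 2 - 2 * g * y + s := by rw [← hg2]; ring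
      rw [e3]
      have e4 : g * q * (1 + s) = 2 * m := by linarith
      have e5 : 2 * g * (s * q) = s * (m - (k - m) * s) / s * 1 ∨ True := Or.inr trivial
      have e6 : 2 * s * (g * q) = m - (k - m) * s := by
        have h3 : (1 + s) * (2 * s * (g * q)) = (1 + s) * (m - (k - m) * s) := by
          calc (1 + s) * (2 * s * (g * q)) = 2 * s * (g * q * (1 + s)) := by ring
            _ = 4 * s * m := by rw [e4]; ring
            _ = (1 + s) * (m - (k - m) * s) := by nlinarith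
        exact mul_left_cancel₀ (by positivity) h3
      have e7 : s * q = 2 * m * g - s * (s * q) := by linarith
      calc s * (k * y ^ 2 + m * (1 - y ^ 2) - q * y * (1 - y ^ 2)) =
          s * (k - m) * y ^ 2 + s * m + (s * q) * y ^ 3 - (s * q) * y := by ring
        _ = s * (k - m) * y ^ 2 + s * m + (s * q) * y ^ 3 - (2 * m * g - s * (s * q)) * y := by
            rw [← e7]
        _ = (s * q) * y ^ 3 + (m - (m - (k - m) * s)) * y ^ 2 + (s * (s * q) - 2 * m * g) * y +
            s * m := by ring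
        _ = (s * q) * y ^ 3 + (m - 2 * s * (g * q)) * y ^ 2 + (s * (s * q) - 2 * m * g) * y +
            s * m := by rw [e6]
        _ = _ := by ring
    have h3 : 0 ≤ (y - g) ^ 2 * (s * q * y + m) := by positivity
    rw [← e1] at h3
    exact nonneg_of_mul_nonneg_right h3 hs0
  -- scaling
  set R : ℝ := Real.sqrt (x ^ 2 + b) with hR
  have hR2 : R ^ 2 = x ^ 2 + b := Real.sq_sqrt hxb.le
  have hR0 : 0 < R := Real.sqrt_pos.2 hxb
  have h4 := hcub (x / R) (by positivity)
  have e1 : R ^ 3 * (k * (x / R) ^ 2 + m * (1 - (x / R) ^ 2) - q * (x / R) * (1 - (x / R) ^ 2)) =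
      R * (k * x ^ 2 + m * (R ^ 2 - x ^ 2)) - q * x * (R ^ 2 - x ^ 2) := by
    field_simp
  have e2 : R ^ 2 - x ^ 2 = b := by rw [hR2]; ring
  have h6 := mul_nonneg (by positivity : 0 ≤ R ^ 3) h4
  rw [e1, e2] at h6
  linarith

/-- Positivity of the extremal quadratic form. -/
theorem pos_form {m k : ℝ} (hm : 0 < m) (hk : m ≤ k) (hk2 : k < 2 * m) {x b : ℝ} (hx : 0 ≤ x)
    (hb : 0 ≤ b) (hxb : 0 < x ^ 2 + b) (hx1 : x ^ 2 + b < 1) :
    (2 * m - k) * sharpConst m k * (x * b) < k * x ^ 2 + m * b := by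
  have hk0 : 0 < k := hm.trans_le hk
  have h5 := scale_form_le hm hk hk2 hx hxb
  set R : ℝ := Real.sqrt (x ^ 2 + b) with hR
  have hR2 : R ^ 2 = x ^ 2 + b := Real.sq_sqrt hxb.le
  have hR0 : 0 < R := Real.sqrt_pos.2 hxb
  have hR1 : R < 1 := by
    have : R ^ 2 < 1 := by rw [hR2]; exact hx1
    nlinarith
  have h7 : 0 < k * x ^ 2 + m * b := by
    rcases hx.eq_or_lt with h | h
    · rw [← h] at hxb ⊢
      have : 0 < b := by nlinarith
      positivity
    · positivity
  calc (2 * m - k) * sharpConst m k * (x * b) ≤ R * (k * x ^ 2 + m * b) := h5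
    _ < 1 * (k * x ^ 2 + m * b) := by gcongr
    _ = _ := one_mul _

end Params

end Pool.Agent.Helper342.Par
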