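import Mathlib
import Pool.Agent.Helper342.Par.GenExp

set_option autoImplicit false

namespace Pool.Agent.Helper342.Par

open Metric Set Filter Topology MeasureTheory

section Normal

variable {E : Type*} [NormedAddCommGroup E] [InnerProductSpace ℂ E] [FiniteDimensional ℂ E]

/-- A joint eigenvector inside an eigenspace of `A + A*`. -/
theorem joint_vec [CompleteSpace E] {A : E →L[ℂ] E} (hA : IsStarNormal A) {ν : ℝ} {x : E}
    (hx : x ≠ 0) (hxH : A x + ContinuousLinearMap.adjoint A x = (ν : ℂ) • x) :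
    ∃ (p : E) (α : ℂ), ‖p‖ = 1 ∧ A p + ContinuousLinearMap.adjoint A p = (ν : ℂ) • p ∧
      A p = α • p ∧ ContinuousLinearMap.adjoint A p = (starRingEnd ℂ) α • p ∧ 2 * α.re = ν := by
  have hcomm : ∀ y, ContinuousLinearMap.adjoint A (A y) = A (ContinuousLinearMap.adjoint A y) := by
    intro y
    have h1 := hA.star_comm_self.eq
    rw [ContinuousLinearMap.star_eq_adjoint] at h1
    exact congrArg (fun T : E →L[ℂ] E => T y) h1
  set V : Submodule ℂ E := Module.End.eigenspace
    ((A + ContinuousLinearMap.adjoint A : E →L[ℂ] E) : E →ₗ[ℂ] E) (ν : ℂ) with hV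
  have hmem : ∀ y, y ∈ V ↔ A y + ContinuousLinearMap.adjoint A y = (ν : ℂ) • y := by
    intro y
    rw [hV, Module.End.mem_eigenspace_iff]
    rfl
  have hinv : ∀ y ∈ V, (A : E →ₗ[ℂ] E) y ∈ V := by
    intro y hy
    rw [hmem] at hy ⊢
    change A (A y) + ContinuousLinearMap.adjoint A (A y) = (ν : ℂ) • A y
    rw [hcomm, ← map_add, hy, map_smul]
  haveI : Nontrivial V := ⟨⟨⟨x, (hmem x).2 hxH⟩, 0, by
    intro h
    exact hx (congrArg Subtype.val h)⟩⟩
  obtain ⟨α, hα⟩ := Module.End.exists_eigenvalue ((A : E →ₗ[ℂ] E).restrict hinv)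
  obtain ⟨y, hy⟩ := hα.exists_hasEigenvector
  have hy0 : (y : E) ≠ 0 := by
    intro h
    exact hy.2 (Subtype.ext h)
  have hyA : A (y : E) = α • (y : E) := by
    have := hy.apply_eq_smul
    exact congrArg Subtype.val this
  have hyH := (hmem (y : E)).1 y.2
  have hyn : 0 < ‖(y : E)‖ := norm_pos_iff.2 hy0
  set p : E := ((‖(y : E)‖ : ℂ)⁻¹) • (y : E) with hp
  have hpn : ‖p‖ = 1 := by
    rw [hp, norm_smul, norm_inv, Complex.norm_real, norm_norm, inv_mul_cancel₀ hyn.ne']
  have hpA : A p = α • p := by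
    rw [hp, map_smul, hyA, smul_comm]
  have hpH : A p + ContinuousLinearMap.adjoint A p = (ν : ℂ) • p := by
    rw [hp, map_smul, map_smul, ← smul_add, hyH, smul_comm]
  have hpA' : ContinuousLinearMap.adjoint A p = ((ν : ℂ) - α) • p := by
    rw [hpA] at hpH
    rw [sub_smul, ← hpH]
    abel
  have hpp : inner ℂ p p = (1 : ℂ) := by
    rw [inner_self_eq_norm_sq_to_K, hpn]; simp
  have h1 : (starRingEnd ℂ) α = (ν : ℂ) - α := by
    have h2 : inner ℂ p (ContinuousLinearMap.adjoint A p) = inner ℂ (A p) p :=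
      ContinuousLinearMap.adjoint_inner_right A p p
    rw [hpA', hpA, inner_smul_right, inner_smul_left p p, hpp, mul_one, mul_one] at h2
    exact h2.symm
  refine ⟨p, α, hpn, hpH, hpA, by rw [h1]; exact hpA', ?_⟩
  have h3 := congrArg Complex.re h1
  rw [Complex.conj_re, Complex.sub_re, Complex.ofReal_re] at h3
  linarith

/-- Spectral data of a normal operator. -/
theorem normal_data [CompleteSpace E] {n : ℕ} (hn : 2 ≤ n) (hE : Module.finrank ℂ E = n)
    {A : E →L[ℂ] E} (hA : IsStarNormal A) :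
    ∃ (m M : ℝ) (p q : E) (α β : ℂ), (∀ z, m * ‖z‖ ^ 2 ≤ (inner ℂ z (A z)).re) ∧
      (∀ z, (inner ℂ z (A z)).re ≤ M * ‖z‖ ^ 2) ∧ ‖p‖ = 1 ∧ ‖q‖ = 1 ∧ inner ℂ q p = (0 : ℂ) ∧
      A p = α • p ∧ ContinuousLinearMap.adjoint A p = (starRingEnd ℂ) α • p ∧
      A q = β • q ∧ ContinuousLinearMap.adjoint A q = (starRingEnd ℂ) β • q ∧
      α.re = M ∧ β.re = m := by
  set H : E →ₗ[ℂ] E := ((A + ContinuousLinearMap.adjoint A : E →L[ℂ] E) : E →ₗ[ℂ] E) with hH
  have hHa : ∀ z, H z = A z + ContinuousLinearMap.adjoint A z := fun z => rfl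
  have hsym : H.IsSymmetric := by
    intro x y
    rw [hHa, hHa, inner_add_left, inner_add_right, ContinuousLinearMap.adjoint_inner_left,
      ContinuousLinearMap.adjoint_inner_right]
    ring
  set b := hsym.eigenvectorBasis hE with hb
  set ν := hsym.eigenvalues hE with hν
  have hanti : Antitone ν := hsym.eigenvalues_antitone hE
  have happ : ∀ i, H (b i) = (ν i : ℂ) • b i := fun i => hsym.apply_eigenvectorBasis hE i
  set i0 : Fin n := ⟨0, by omega⟩ with hi0
  set j0 : Fin n := ⟨n - 1, by omega⟩ with hj0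
  have hhi : ∀ k, ν k ≤ ν i0 := fun k => hanti (by rw [hi0, Fin.le_def]; simp)
  have hlo : ∀ k, ν j0 ≤ ν k := fun k => hanti (by rw [hj0, Fin.le_def]; have := k.2; simp; omega)
  -- the quadratic form
  have hre : ∀ z, 2 * (inner ℂ z (A z)).re = ∑ k, ν k * ‖b.repr z k‖ ^ 2 := by
    intro z
    have h1 : (inner ℂ z (H z)).re = 2 * (inner ℂ z (A z)).re := by
      rw [hHa, inner_add_right, Complex.add_re, ContinuousLinearMap.adjoint_inner_right]
      have : (inner ℂ (A z) z).re = (inner ℂ z (A z)).re := by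
        rw [← inner_conj_symm, Complex.conj_re]
      rw [this]; ring
    have h2 : inner ℂ z (H z) = ((∑ k, ν k * ‖b.repr z k‖ ^ 2 : ℝ) : ℂ) := by
      rw [← b.repr.inner_map_map, PiLp.inner_apply]
      push_cast
      apply Finset.sum_congr rfl
      intro k _
      have h3 : b.repr (H z) k = (ν k : ℂ) * b.repr z k := hsym.eigenvectorBasis_apply_self_apply hE z k
      rw [h3, RCLike.inner_apply]
      have h4 : b.repr z k * (starRingEnd ℂ) (b.repr z k) = ((‖b.repr z k‖ : ℂ)) ^ 2 := by
        rw [Complex.mul_conj, Complex.normSq_eq_norm_sq]; push_cast; rfl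
      calc (ν k : ℂ) * b.repr z k * (starRingEnd ℂ) (b.repr z k) =
          (ν k : ℂ) * (b.repr z k * (starRingEnd ℂ) (b.repr z k)) := by ring
        _ = _ := by rw [h4]
    rw [← h1, h2, Complex.ofReal_re]
  have hnorm : ∀ z, ‖z‖ ^ 2 = ∑ k, ‖b.repr z k‖ ^ 2 := by
    intro z
    rw [← b.repr.norm_map z, EuclideanSpace.norm_sq_eq]
  have hge : ∀ z, ν j0 / 2 * ‖z‖ ^ 2 ≤ (inner ℂ z (A z)).re := by
    intro z
    have h1 : ν j0 * ‖z‖ ^ 2 ≤ 2 * (inner ℂ z (A z)).re := by
      rw [hre, hnorm, Finset.mul_sum]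
      apply Finset.sum_le_sum
      intro k _
      have := hlo k
      gcongr
    linarith
  have hle : ∀ z, (inner ℂ z (A z)).re ≤ ν i0 / 2 * ‖z‖ ^ 2 := by
    intro z
    have h1 : 2 * (inner ℂ z (A z)).re ≤ ν i0 * ‖z‖ ^ 2 := by
      rw [hre, hnorm, Finset.mul_sum]
      apply Finset.sum_le_sum
      intro k _
      have := hhi k
      gcongr
    linarith
  have hbn : ∀ k, b k ≠ 0 := by
    intro k h
    have := b.orthonormal.1 k
    rw [h, norm_zero] at this
    norm_num at this
  rcases eq_or_ne (ν i0) (ν j0) with heq | hne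
  · -- `A + A*` is scalar
    have hall : ∀ k, ν k = ν i0 := fun k => le_antisymm (hhi k) (by rw [heq]; exact hlo k)
    have hHs : ∀ z, H z = (ν i0 : ℂ) • z := by
      intro z
      have h1 : H = (ν i0 : ℂ) • LinearMap.id := by
        apply b.toBasis.ext
        intro k
        simp only [OrthonormalBasis.coe_toBasis]
        rw [happ k, hall k]
        rfl
      rw [h1]; rfl
    set B : E →ₗ[ℂ] E := ((Complex.I • (A - ContinuousLinearMap.adjoint A) : E →L[ℂ] E) :
      E →ₗ[ℂ] E) with hB
    have hBa : ∀ z, B z = Complex.I • (A z - ContinuousLinearMap.adjoint A z) := fun z => rfl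
    have hsymB : B.IsSymmetric := by
      intro x y
      rw [hBa, hBa, inner_smul_left, inner_smul_right, inner_sub_left, inner_sub_right,
        ContinuousLinearMap.adjoint_inner_left, ContinuousLinearMap.adjoint_inner_right,
        Complex.conj_I]
      ring
    set c := hsymB.eigenvectorBasis hE with hc
    set τ := hsymB.eigenvalues hE with hτ
    have happ' : ∀ i, B (c i) = (τ i : ℂ) • c i := fun i => hsymB.apply_eigenvectorBasis hE i
    have hAc : ∀ k, A (c k) = (((ν i0 : ℂ) - Complex.I * τ k) / 2) • c k ∧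
        ContinuousLinearMap.adjoint A (c k) = (((ν i0 : ℂ) + Complex.I * τ k) / 2) • c k := by
      intro k
      have e1 : A (c k) + ContinuousLinearMap.adjoint A (c k) = (ν i0 : ℂ) • c k := hHs (c k)
      have e2 : A (c k) - ContinuousLinearMap.adjoint A (c k) = -(Complex.I * τ k) • c k := by
        have h1 := happ' k
        rw [hBa] at h1
        have h2 := congrArg (fun x => (-Complex.I) • x) h1
        simp only [smul_smul] at h2
        have h3 : -Complex.I * Complex.I = 1 := by
          rw [neg_mul, Complex.I_mul_I]; ring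
        rw [h3, one_smul] at h2
        rw [h2]
        congr 1
        ring
      constructor
      · have : (2 : ℂ) • A (c k) = ((ν i0 : ℂ) - Complex.I * τ k) • c k := by
          rw [sub_smul, ← e1, two_smul]
          rw [neg_smul] at e2
          rw [show (Complex.I * (τ k : ℂ)) • c k = -(A (c k) - ContinuousLinearMap.adjoint A (c k)) by
            rw [e2, neg_neg]]
          abel
        rw [div_eq_inv_mul, mul_smul, ← this, smul_smul]
        norm_num
      · have : (2 : ℂ) • ContinuousLinearMap.adjoint A (c k) =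
            ((ν i0 : ℂ) + Complex.I * τ k) • c k := by
          rw [add_smul, ← e1, two_smul]
          rw [neg_smul] at e2
          rw [show (Complex.I * (τ k : ℂ)) • c k = -(A (c k) - ContinuousLinearMap.adjoint A (c k)) by
            rw [e2, neg_neg]]
          abel
        rw [div_eq_inv_mul, mul_smul, ← this, smul_smul]
        norm_num
    have hconj : ∀ k, (starRingEnd ℂ) (((ν i0 : ℂ) - Complex.I * τ k) / 2) =
        ((ν i0 : ℂ) + Complex.I * τ k) / 2 := by
      intro k
      simp only [map_div₀, map_sub, map_mul, Complex.conj_ofReal, Complex.conj_I, map_ofNat]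
      ring
    have hrek : ∀ k, ((((ν i0 : ℂ) - Complex.I * τ k) / 2)).re = ν i0 / 2 := by
      intro k
      simp
    set i1 : Fin n := ⟨1, by omega⟩ with hi1
    have h01 : i1 ≠ i0 := by rw [hi0, hi1]; simp
    refine ⟨ν j0 / 2, ν i0 / 2, c i0, c i1, ((ν i0 : ℂ) - Complex.I * τ i0) / 2,
      ((ν i0 : ℂ) - Complex.I * τ i1) / 2, hge, hle, c.orthonormal.1 i0, c.orthonormal.1 i1,
      c.orthonormal.2 h01, (hAc i0).1, ?_, (hAc i1).1, ?_, hrek i0, ?_⟩
    · rw [hconj]; exact (hAc i0).2
    · rw [hconj]; exact (hAc i1).2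
    · rw [hrek i1, heq]
  · obtain ⟨p, α, hp, hpH, hpA, hpA', hα⟩ := joint_vec hA (hbn i0) (happ i0)
    obtain ⟨q, β, hq, hqH, hqA, hqA', hβ⟩ := joint_vec hA (hbn j0) (happ j0)
    refine ⟨ν j0 / 2, ν i0 / 2, p, q, α, β, hge, hle, hp, hq, ?_, hpA, hpA', hqA, hqA', by linarith,
      by linarith⟩
    have h1 : inner ℂ (H q) p = inner ℂ q (H p) := hsym q p
    rw [hHa, hHa, hqH, hpH, inner_smul_left, inner_smul_right, Complex.conj_ofReal] at h1
    have h2 : ((ν j0 : ℂ) - ν i0) * inner ℂ q p = 0 := by rw [sub_mul, h1, sub_self]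
    rcases mul_eq_zero.1 h2 with h3 | h3
    · exfalso
      apply hne
      rw [sub_eq_zero] at h3
      exact_mod_cast h3.symm
    · exact h3

end Normal

end Pool.Agent.Helper342.Par
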