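import Mathlib
import Pool.Agent.Helper342.Par.GenNormal

set_option autoImplicit false

namespace Pool.Agent.Helper342.Par

open Metric Set Filter Topology MeasureTheory

section Ext

variable {E : Type*} [NormedAddCommGroup E] [InnerProductSpace ℂ E] [CompleteSpace E]

/-- Data for the extremal flow. -/
structure ExtData (A : E →L[ℂ] E) (m M : ℝ) (p q : E) (α β : ℂ) : Prop where
  adm : Adm A m M
  lt : M < 2 * m
  pn : ‖p‖ = 1
  qn : ‖q‖ = 1
  qp : inner ℂ q p = (0 : ℂ)
  Ap : A p = α • p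
  Ap' : ContinuousLinearMap.adjoint A p = (starRingEnd ℂ) α • p
  Aq' : ContinuousLinearMap.adjoint A q = (starRingEnd ℂ) β • q
  αre : α.re = M
  βre : β.re = m

/-- The quadratic map `θ ⟨z, q⟩^2 p`. -/
noncomputable def qm (θ : ℂ) (p q z : E) : E := (θ * (inner ℂ q z) ^ 2) • p

theorem qm_hasFDerivAt (θ : ℂ) (p q z : E) :
    HasFDerivAt (qm θ p q) ((θ • ((2 : ℕ) * (inner ℂ q z) ^ (2 - 1)) • (innerSL ℂ q)).smulRight p)
      z := by
  have h0 : HasFDerivAt (fun z : E => inner ℂ q z) (innerSL ℂ q) z := (innerSL ℂ q).hasFDerivAt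
  have h1 := h0.pow 2
  have h2 := h1.const_mul θ
  have h3 := h2.smul_const p
  refine h3.congr_fderiv ?_
  ext w
  simp

theorem qm_zero (θ : ℂ) (p q : E) : qm θ p q 0 = 0 := by simp [qm]

/-- The extremal field. -/
noncomputable def fieldX (A : E →L[ℂ] E) (θ : ℂ) (p q z : E) : E := A z - qm θ p q z

theorem fieldX_cara {A : E →L[ℂ] E} {m M : ℝ} {p q : E} {α β : ℂ} (hd : ExtData A m M p q α β)
    {θ : ℂ} (hθ : ‖θ‖ = (2 * m - M) * sharpConst m M) : CaraA A (fieldX A θ p q) := by
  have hder : ∀ z, HasFDerivAt (fieldX A θ p q)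
      (A - (θ • ((2 : ℕ) * (inner ℂ q z) ^ (2 - 1)) • (innerSL ℂ q)).smulRight p) z := fun z =>
    A.hasFDerivAt.sub (qm_hasFDerivAt θ p q z)
  refine ⟨fun z _ => (hder z).differentiableAt.differentiableWithinAt, by simp [fieldX, qm_zero],
    ?_, ?_⟩
  · rw [(hder 0).fderiv]
    ext w
    simp
  intro z hz hz0
  rw [mem_ball_zero_iff] at hz
  have hm := hd.adm.pos
  have hmM := hd.adm.mM
  have hM := hd.adm.M_pos
  have hM2 := hd.lt
  have hzp : 0 < ‖z‖ := norm_pos_iff.2 hz0
  set ξ : ℂ := inner ℂ p z with hξ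
  set z' : E := z - ξ • p with hz'
  have hpp : inner ℂ p p = (1 : ℂ) := by
    rw [inner_self_eq_norm_sq_to_K, hd.pn]; simp
  have hpz' : inner ℂ p z' = (0 : ℂ) := by
    rw [hz', inner_sub_right, inner_smul_right, hpp, mul_one, ← hξ, sub_self]
  have hz'p : inner ℂ z' p = (0 : ℂ) := by
    rw [← inner_conj_symm, hpz', map_zero]
  have hzz : z = z' + ξ • p := by rw [hz', sub_add_cancel]
  have hnz : ‖z‖ ^ 2 = ‖z'‖ ^ 2 + ‖ξ‖ ^ 2 := by
    have h1 : ‖z' + ξ • p‖ ^ 2 = ‖z'‖ ^ 2 + ‖ξ‖ ^ 2 := by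
      rw [@norm_add_sq ℂ, inner_smul_right, hz'p, norm_smul, hd.pn]
      simp
    rwa [← hzz] at h1
  have hqz : inner ℂ q z = inner ℂ q z' := by
    conv_lhs => rw [hzz]
    rw [inner_add_right, inner_smul_right, hd.qp, mul_zero, add_zero]
  have hη : ‖inner ℂ q z‖ ^ 2 ≤ ‖z'‖ ^ 2 := by
    rw [hqz]
    have := norm_inner_le_norm (𝕜 := ℂ) q z'
    rw [hd.qn, one_mul] at this
    gcongr
  have hAz : M * ‖ξ‖ ^ 2 + m * ‖z'‖ ^ 2 ≤ (inner ℂ z (A z)).re := by
    have h1 : inner ℂ (z' + ξ • p) (A (z' + ξ • p)) = inner ℂ z' (A z') +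
        ((‖ξ‖ ^ 2 : ℝ) : ℂ) * α := by
      have h2 : inner ℂ p (A z') = (0 : ℂ) := by
        rw [← ContinuousLinearMap.adjoint_inner_left, hd.Ap', inner_smul_left, hpz', mul_zero]
      rw [map_add, map_smul, hd.Ap, inner_add_left, inner_add_right, inner_add_right,
        inner_smul_left, inner_smul_left, inner_smul_right, inner_smul_right, inner_smul_right,
        inner_smul_right, hz'p, h2, hpp]
      have h3 : (starRingEnd ℂ) ξ * ξ = ((‖ξ‖ ^ 2 : ℝ) : ℂ) := by
        rw [mul_comm, Complex.mul_conj, Complex.normSq_eq_norm_sq]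
      rw [← h3]
      ring
    rw [← hzz] at h1
    rw [h1, Complex.add_re, Complex.re_ofReal_mul, hd.αre]
    have := hd.adm.ge z'
    linarith
  have hq : (inner ℂ z (qm θ p q z)).re ≤ (2 * m - M) * sharpConst m M * (‖ξ‖ * ‖z'‖ ^ 2) := by
    refine ((le_abs_self _).trans (Complex.abs_re_le_norm _)).trans ?_
    rw [qm, inner_smul_right, norm_mul, norm_mul, norm_pow, hθ]
    have h1 : ‖inner ℂ z p‖ = ‖ξ‖ := by
      rw [← inner_conj_symm, Complex.norm_conj]
    rw [h1]
    have h2 : 0 ≤ (2 * m - M) * sharpConst m M := by rw [← hθ]; exact norm_nonneg _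
    calc (2 * m - M) * sharpConst m M * ‖inner ℂ q z‖ ^ 2 * ‖ξ‖ ≤
        (2 * m - M) * sharpConst m M * ‖z'‖ ^ 2 * ‖ξ‖ := by gcongr
      _ = _ := by ring
  have h1 := pos_form hm hmM hM2 (norm_nonneg ξ) (sq_nonneg ‖z'‖)
    (by have : 0 < ‖z‖ ^ 2 := by positivity
        linarith)
    (by have : ‖z‖ ^ 2 < 1 := by nlinarith
        linarith)
  rw [fieldX, inner_sub_right, Complex.sub_re]
  linarith

theorem hasDerivAt_cexp_mul (a : ℂ) (t : ℝ) :
    HasDerivAt (fun s : ℝ => Complex.exp (a * (s : ℂ))) (Complex.exp (a * (t : ℂ)) * a) t := by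
  have h2 : HasDerivAt (fun s : ℂ => Complex.exp (a * s)) (Complex.exp (a * (t : ℂ)) * a)
      (t : ℂ) := by
    have := ((hasDerivAt_id (t : ℂ)).const_mul a).cexp
    simpa using this
  exact h2.comp_ofReal

/-- The scalar coefficient of the extremal flow. -/
noncomputable def cf (m M : ℝ) (α : ℂ) (t : ℝ) : ℂ :=
  (sharpConst m M : ℂ) * ((1 - Complex.exp (-((2 * m - M : ℝ) : ℂ) * t)) * Complex.exp (-α * t))

/-- The extremal flow. -/
noncomputable def flowX (A : E →L[ℂ] E) (m M : ℝ) (α : ℂ) (p q z : E) (t : ℝ) : E :=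
  ex A (-t) z + qm (cf m M α t) p q z

/-- The time dependent coefficient of the extremal field. -/
noncomputable def th (m M : ℝ) (α β : ℂ) (t : ℝ) : ℂ :=
  (((2 * m - M) * sharpConst m M : ℝ) : ℂ) *
    Complex.exp ((2 * β - α - ((2 * m - M : ℝ) : ℂ)) * t)

theorem norm_th {A : E →L[ℂ] E} {m M : ℝ} {p q : E} {α β : ℂ} (hd : ExtData A m M p q α β)
    (t : ℝ) : ‖th m M α β t‖ = (2 * m - M) * sharpConst m M := by
  have h1 : 0 < (2 * m - M) * sharpConst m M :=
    mul_pos (by linarith [hd.lt]) (sharpConst_pos hd.adm.pos hd.adm.mM hd.lt)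
  rw [th, norm_mul, Complex.norm_real, Real.norm_of_nonneg h1.le, Complex.norm_exp]
  have h2 : ((2 * β - α - ((2 * m - M : ℝ) : ℂ)) * t).re = 0 := by
    rw [Complex.re_mul_ofReal, Complex.sub_re, Complex.sub_re, Complex.ofReal_re, hd.αre]
    have : (2 * β).re = 2 * m := by
      rw [← hd.βre]; simp
    rw [this]
    ring
  rw [h2, Real.exp_zero, mul_one]

theorem inner_flowX {A : E →L[ℂ] E} {m M : ℝ} {p q : E} {α β : ℂ} (hd : ExtData A m M p q α β)
    (z : E) (t : ℝ) : inner ℂ q (flowX A m M α p q z t) = Complex.exp (-β * t) * inner ℂ q z := by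
  rw [flowX, inner_add_right, qm, inner_smul_right, hd.qp, mul_zero, add_zero, ← ex_adjoint,
    ex_eigen hd.Aq', inner_smul_left]
  congr 1
  rw [← Complex.exp_conj]
  congr 1
  simp

theorem flowX_hasDerivAt {A : E →L[ℂ] E} {m M : ℝ} {p q : E} {α β : ℂ}
    (hd : ExtData A m M p q α β) (z : E) (t : ℝ) :
    HasDerivAt (flowX A m M α p q z)
      (-(fieldX A (th m M α β t) p q (flowX A m M α p q z t))) t := by
  have h1 : HasDerivAt (fun t : ℝ => ex A (-t) z) (-(A (ex A (-t) z))) t := by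
    have h2 := HasDerivAt.scomp t (ex_apply_hasDerivAt A z (-t)) (hasDerivAt_neg t)
    rw [neg_smul, one_smul] at h2
    exact h2
  set d : ℂ := ((2 * m - M : ℝ) : ℂ) with hdd
  have h3 : HasDerivAt (cf m M α) ((sharpConst m M : ℂ) *
      (-(Complex.exp (-d * t) * (-d)) * Complex.exp (-α * t) +
        (1 - Complex.exp (-d * t)) * (Complex.exp (-α * t) * (-α)))) t := by
    exact (((hasDerivAt_cexp_mul (-d) t).const_sub 1).mul (hasDerivAt_cexp_mul (-α) t)).const_mul _
  have h4 : HasDerivAt (fun t => qm (cf m M α t) p q z) _ t :=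
    (h3.mul_const ((inner ℂ q z) ^ 2)).smul_const p
  have h5 := h1.add h4
  refine h5.congr_deriv ?_
  rw [fieldX, qm, inner_flowX hd]
  have e1 : A (flowX A m M α p q z t) = A (ex A (-t) z) +
      (cf m M α t * (inner ℂ q z) ^ 2 * α) • p := by
    rw [flowX, map_add, qm, map_smul, hd.Ap, smul_smul]
  rw [e1]
  have e2 : th m M α β t * (Complex.exp (-β * t) * inner ℂ q z) ^ 2 =
      d * (sharpConst m M : ℂ) * (Complex.exp (-d * t) * Complex.exp (-α * t)) *
        (inner ℂ q z) ^ 2 := by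
    rw [th, mul_pow, ← Complex.exp_nat_mul, ← Complex.exp_add]
    have e3 : Complex.exp ((2 * β - α - d) * t) * Complex.exp (((2 : ℕ) : ℂ) * (-β * t)) =
        Complex.exp (-d * t + -α * t) := by
      rw [← Complex.exp_add]
      congr 1
      push_cast
      ring
    rw [← e3, hdd]
    push_cast
    ring
  rw [e2, cf, ← hdd]
  module

theorem flowX_zero (A : E →L[ℂ] E) (m M : ℝ) (α : ℂ) (p q z : E) :
    flowX A m M α p q z 0 = z := by
  simp [flowX, cf, qm, ex_zero]

theorem ex_flowX {A : E →L[ℂ] E} {m M : ℝ} {p q : E} {α β : ℂ} (hd : ExtData A m M p q α β)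
    (z : E) (t : ℝ) : ex A t (flowX A m M α p q z t) =
      z + qm ((sharpConst m M * (1 - Real.exp (-(2 * m - M) * t)) : ℝ) : ℂ) p q z := by
  rw [flowX, map_add, ex_neg_apply, qm, map_smul, ex_eigen hd.Ap, smul_smul, qm]
  congr 2
  rw [cf]
  have e1 : Complex.exp (-α * t) * Complex.exp (α * t) = 1 := by
    rw [← Complex.exp_add]; simp
  calc (sharpConst m M : ℂ) * ((1 - Complex.exp (-((2 * m - M : ℝ) : ℂ) * t)) *
        Complex.exp (-α * t)) * (inner ℂ q z) ^ 2 * Complex.exp (α * t) =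
      (sharpConst m M : ℂ) * (1 - Complex.exp (-((2 * m - M : ℝ) : ℂ) * t)) *
        (Complex.exp (-α * t) * Complex.exp (α * t)) * (inner ℂ q z) ^ 2 := by ring
    _ = _ := by rw [e1]; push_cast; ring

theorem normSq_hasDerivAt {v : ℝ → E} {v' : E} {x : ℝ}
    (h1 : HasDerivAt v v' x) :
    HasDerivAt (fun t => ‖v t‖ ^ 2) (2 * (inner ℂ (v x) v').re) x := by
  have h2 := HasDerivAt.inner ℂ h1 h1
  have h3 := Complex.reCLM.hasFDerivAt.comp_hasDerivAt x h2
  have e1 : (Complex.reCLM ∘ fun t => inner ℂ (v t) (v t)) = fun t => ‖v t‖ ^ 2 := by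
    ext t
    simp only [Function.comp_apply, Complex.reCLM_apply]
    rw [inner_self_eq_norm_sq_to_K]
    norm_cast
  rw [e1] at h3
  refine h3.congr_deriv ?_
  simp only [Complex.reCLM_apply, Complex.add_re]
  have : (inner ℂ v' (v x)).re = (inner ℂ (v x) v').re := by
    rw [← inner_conj_symm, Complex.conj_re]
  rw [this]
  ring

theorem norm_flowX_lt {A : E →L[ℂ] E} {m M : ℝ} {p q : E} {α β : ℂ}
    (hd : ExtData A m M p q α β) {z : E} (hz : ‖z‖ < 1) {t : ℝ} (ht : 0 ≤ t) :
    ‖flowX A m M α p q z t‖ < 1 := by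
  by_contra hcon
  push Not at hcon
  have hz0 : flowX A m M α p q z 0 = z := flowX_zero A m M α p q z
  have hcont : Continuous (fun s => ‖flowX A m M α p q z s‖) := by
    have : ∀ s, ContinuousAt (flowX A m M α p q z) s := fun s =>
      (flowX_hasDerivAt hd z s).continuousAt
    exact (continuous_iff_continuousAt.2 this).norm
  have hanti : ∀ s, 0 ≤ s → (∀ r ∈ Icc 0 s, ‖flowX A m M α p q z r‖ < 1) →
      ‖flowX A m M α p q z s‖ ≤ ‖z‖ := by
    intro s hs hlt
    have hA : AntitoneOn (fun r => ‖flowX A m M α p q z r‖ ^ 2) (Icc 0 s) := by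
      apply antitoneOn_of_deriv_nonpos (convex_Icc _ _)
      · exact (hcont.pow 2).continuousOn
      · intro r _
        exact (normSq_hasDerivAt (flowX_hasDerivAt hd z r)).differentiableAt.differentiableWithinAt
      · intro r hr
        rw [interior_Icc] at hr
        have h1 := normSq_hasDerivAt (flowX_hasDerivAt hd z r)
        rw [h1.deriv, inner_neg_right, Complex.neg_re]
        have h2 := (fieldX_cara hd (norm_th hd r)).re_inner_nonneg hd.adm
          (hlt r ⟨hr.1.le, hr.2.le⟩)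
        linarith
    have := hA ⟨le_rfl, hs⟩ ⟨hs, le_rfl⟩ hs
    simp only [hz0] at this
    exact (pow_le_pow_iff_left₀ (norm_nonneg _) (norm_nonneg _) two_ne_zero).1 this
  set S : Set ℝ := {s | 0 ≤ s ∧ 1 ≤ ‖flowX A m M α p q z s‖} with hS
  have hSc : IsClosed S := (isClosed_Ici.preimage continuous_id).inter
    (isClosed_le continuous_const hcont)
  have hSn : S.Nonempty := ⟨t, ht, hcon⟩
  have hSb : BddBelow S := ⟨0, fun s hs => hs.1⟩
  have hm := hSc.csInf_mem hSn hSb
  set τ := sInf S with hτ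
  have hlt : ∀ r, 0 ≤ r → r < τ → ‖flowX A m M α p q z r‖ < 1 := by
    intro r hr hrτ
    by_contra hc
    push Not at hc
    exact absurd (csInf_le hSb (⟨hr, hc⟩ : r ∈ S)) (not_le.2 hrτ)
  have hτ0 : 0 < τ := by
    rcases hm.1.eq_or_lt with h | h
    · have := hm.2
      rw [← h, hz0] at this
      linarith
    · exact h
  have hle : ‖flowX A m M α p q z τ‖ ≤ ‖z‖ := by
    have h1 : Tendsto (fun s => ‖flowX A m M α p q z s‖) (𝓝[<] τ)
        (𝓝 ‖flowX A m M α p q z τ‖) := (hcont.tendsto τ).mono_left nhdsWithin_le_nhds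
    apply le_of_tendsto h1
    filter_upwards [Ioo_mem_nhdsLT hτ0] with s hs
    exact hanti s hs.1.le (fun r hr => hlt r hr.1 (hr.2.trans_lt hs.2))
  have := hm.2
  linarith

theorem continuous_field_flowX {A : E →L[ℂ] E} {m M : ℝ} {p q : E} {α β : ℂ}
    (hd : ExtData A m M p q α β) (z : E) :
    Continuous (fun s => fieldX A (th m M α β s) p q (flowX A m M α p q z s)) := by
  have h1 : Continuous (flowX A m M α p q z) := continuous_iff_continuousAt.2 fun s =>
    (flowX_hasDerivAt hd z s).continuousAt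
  have h2 : Continuous (th m M α β) := by
    unfold th
    fun_prop
  have h3 : Continuous (fun s => inner ℂ q (flowX A m M α p q z s)) :=
    (innerSL ℂ q).continuous.comp h1
  exact (A.continuous.comp h1).sub ((h2.mul (h3.pow 2)).smul continuous_const)

theorem continuous_field (A : E →L[ℂ] E) (m M : ℝ) (α β : ℂ) (p q z : E) :
    Continuous (fun s => fieldX A (th m M α β s) p q z) := by
  have h2 : Continuous (th m M α β) := by
    unfold th
    fun_prop
  exact continuous_const.sub ((h2.mul continuous_const).smul continuous_const)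

theorem flowX_integral {A : E →L[ℂ] E} {m M : ℝ} {p q : E} {α β : ℂ}
    (hd : ExtData A m M p q α β) (z : E) (t : ℝ) :
    flowX A m M α p q z t =
      z - ∫ s in (0 : ℝ)..t, fieldX A (th m M α β s) p q (flowX A m M α p q z s) := by
  have hcont := continuous_field_flowX hd z
  have h1 := intervalIntegral.integral_eq_sub_of_hasDerivAt
    (f := flowX A m M α p q z)
    (f' := fun s => -(fieldX A (th m M α β s) p q (flowX A m M α p q z s))) (a := 0) (b := t)
    (fun s _ => flowX_hasDerivAt hd z s) (hcont.neg.intervalIntegrable _ _)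
  rw [intervalIntegral.integral_neg, flowX_zero] at h1
  have h2 : flowX A m M α p q z t =
      z + -∫ s in (0 : ℝ)..t, fieldX A (th m M α β s) p q (flowX A m M α p q z s) := by
    rw [h1]; abel
  rw [h2, sub_eq_add_neg]

end Ext

end Pool.Agent.Helper342.Par
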